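import Pool.Agent.Y301.Shi
import Pool.Agent.Y301.DataA

/-! At most one closed orbit around the strong focus. -/

open Set Topology Filter

set_option linter.unusedSimpArgs false
set_option linter.deprecated false

namespace Pool.Agent.Y301

open Pool.Agent.H709Q
open Pool.Agent.H709R2 (wedge ClosedOrbit)

noncomputable section

namespace AS

open DA

lemma ev_PZ (z : ℝ × ℝ) : ev PZ z.1 z.2 = 10 ^ 200 * (XA.f z).1 := by
  rw [XA_f]
  simp only [PZ, ev_cons, ev_nil, ev1_cons, ev1_nil, lam, bb]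
  push_cast
  ring

lemma ev_QZ (z : ℝ × ℝ) : ev QZ z.1 z.2 = 10 ^ 200 * (XA.f z).2 := by
  rw [XA_f]
  simp only [QZ, ev_cons, ev_nil, ev1_cons, ev1_nil, ee]
  push_cast
  ring

lemma ev_divZ (z : ℝ × ℝ) : ev divZ z.1 z.2 = 10 ^ 200 * XA.div z := by
  have h1 := (hasFDerivAt_f1 XA z).const_mul ((10:ℝ) ^ 200)
  have h2 := (hasFDerivAt_f2 XA z).const_mul ((10:ℝ) ^ 200)
  have k1 := hasFDerivAt_ev PZ (hasFDerivAt_fst (𝕜 := ℝ) (E := ℝ) (F := ℝ) (p := z))
    (hasFDerivAt_snd (𝕜 := ℝ) (E := ℝ) (F := ℝ) (p := z))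
  have k2 := hasFDerivAt_ev QZ (hasFDerivAt_fst (𝕜 := ℝ) (E := ℝ) (F := ℝ) (p := z))
    (hasFDerivAt_snd (𝕜 := ℝ) (E := ℝ) (F := ℝ) (p := z))
  simp only [ev_PZ] at k1
  simp only [ev_QZ] at k2
  have e1 := congrArg (fun L : ℝ × ℝ →L[ℝ] ℝ => L (1, 0)) (h1.unique k1)
  have e2 := congrArg (fun L : ℝ × ℝ →L[ℝ] ℝ => L (0, 1)) (h2.unique k2)
  simp at e1 e2
  unfold divZ
  rw [ev_addP, ← e1, ← e2]
  unfold QF.div P1 Q2'
  ring

/-- the function `Ψ` -/
def psi (z : ℝ × ℝ) : ℝ := ev PsiZ z.1 z.2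
def psi1 (z : ℝ × ℝ) : ℝ := ev (dX PsiZ) z.1 z.2
def psi2 (z : ℝ × ℝ) : ℝ := ev (dY PsiZ) z.1 z.2

lemma psi_deriv (z : ℝ × ℝ) : HasFDerivAt psi (lf (psi1 z) (psi2 z)) z :=
  hasFDerivAt_ev PsiZ (hasFDerivAt_fst (𝕜 := ℝ) (E := ℝ) (F := ℝ) (p := z))
    (hasFDerivAt_snd (𝕜 := ℝ) (E := ℝ) (F := ℝ) (p := z))

lemma psi_cont : Continuous psi := continuous_ev PsiZ
lemma psi1_cont : Continuous psi1 := continuous_ev _
lemma psi2_cont : Continuous psi2 := continuous_ev _

/-- `κ Ψ div - ZΨ` -/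
def NN (z : ℝ × ℝ) : ℝ :=
  7 / 10 * psi z * XA.div z - (psi1 z * (XA.f z).1 + psi2 z * (XA.f z).2)

lemma ev_NZ (z : ℝ × ℝ) : ev NZ z.1 z.2 = 10 ^ 201 * NN z := by
  unfold NZ NN psi psi1 psi2
  rw [ev_addP, ev_smulP, ev_smulP, ev_addP, ev_mulP, ev_mulP, ev_mulP, ev_PZ, ev_QZ, ev_divZ]
  push_cast
  ring

lemma ev_sos_nonneg (l : List (ℤ × List (List ℤ))) (h : l.all (fun a => decide (0 ≤ a.1)) = true)
    (x y : ℝ) : 0 ≤ ev (DB.sos l) x y := by
  induction l with
  | nil => simp [DB.sos]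
  | cons a l ih =>
    rw [List.all_cons, Bool.and_eq_true, decide_eq_true_eq] at h
    have e : DB.sos (a :: l) = addP (smulP a.1 (mulP a.2 a.2)) (DB.sos l) := rfl
    rw [e, ev_addP, ev_smulP, ev_mulP]
    have h1 : (0:ℝ) ≤ a.1 := by exact_mod_cast h.1
    have h2 := ih h.2
    have h3 := mul_self_nonneg (ev a.2 x y)
    positivity

lemma NZ_pos {x y : ℝ} (hy : 0 ≤ 24 + 25 * y) : 0 < ev NZ x y := by
  set m : ℝ := max |x| |y| with hm
  have hx' : |x| ≤ m := le_max_left _ _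
  have hy' : |y| ≤ m := le_max_right _ _
  have hm0 : 0 ≤ m := (abs_nonneg x).trans hx'
  have h1 := abs_ev_le' EN bN leN hx' hy'
  have h2 : ev NZ x y = ev CertZ x y + ev EN x y := by
    unfold EN
    rw [ev_addP, ev_smulP]
    push_cast
    ring
  have h3 : ev1 bN m = 10 ^ 200 * (68 + 62 * m + 250 * m ^ 2 + 440 * m ^ 3 + 470 * m ^ 4) := by
    simp only [bN, ev1_cons, ev1_nil]
    push_cast
    ring
  have h4 := ev_sos_nonneg sq0 (by decide) x y
  have h5 := ev_sos_nonneg sq1 (by decide) x y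
  have h6 : ev linZ x y = 24 + 25 * y := by
    simp only [linZ, ev_cons, ev_nil, ev1_cons, ev1_nil]
    push_cast
    ring
  have h7 : ev tZ x y = 1 + x ^ 2 + y ^ 2 + x ^ 4 + x ^ 2 * y ^ 2 + y ^ 4 := by
    simp only [tZ, ev_cons, ev_nil, ev1_cons, ev1_nil]
    push_cast
    ring
  have h8 : 10 ^ 200 * (1200 * (1 + m ^ 2 + m ^ 4)) ≤ ev CertZ x y := by
    unfold CertZ
    rw [ev_addP, ev_smulP, ev_addP, ev_smulP, ev_smulP, ev_mulP, h6, h7]
    have k1 := mul_nonneg hy h5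
    have k2 : 1 + m ^ 2 + m ^ 4 ≤ 1 + x ^ 2 + y ^ 2 + x ^ 4 + x ^ 2 * y ^ 2 + y ^ 4 := by
      rcases le_total |x| |y| with h | h
      · have e : m = |y| := max_eq_right h
        rw [e]
        have e2 : |y| ^ 2 = y ^ 2 := sq_abs y
        have e4 : |y| ^ 4 = y ^ 4 := by
          rw [show |y| ^ 4 = (|y| ^ 2) ^ 2 by ring, e2]; ring
        rw [e2, e4]
        nlinarith [sq_nonneg x, sq_nonneg (x ^ 2), sq_nonneg (x * y)]
      · have e : m = |x| := max_eq_left h
        rw [e]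
        have e2 : |x| ^ 2 = x ^ 2 := sq_abs x
        have e4 : |x| ^ 4 = x ^ 4 := by
          rw [show |x| ^ 4 = (|x| ^ 2) ^ 2 by ring, e2]; ring
        rw [e2, e4]
        nlinarith [sq_nonneg y, sq_nonneg (y ^ 2), sq_nonneg (x * y)]
    have k3 : (0:ℝ) ≤ 10 ^ 200 * (1200 * ((1 + x ^ 2 + y ^ 2 + x ^ 4 + x ^ 2 * y ^ 2 + y ^ 4) -
        (1 + m ^ 2 + m ^ 4))) := by
      have := sub_nonneg.2 k2
      positivity
    push_cast
    nlinarith [h4, k1, k3]
  have h9 := (abs_le.1 h1).1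
  rw [h3] at h9
  rw [h2]
  have h10 : 0 < 1200 * (1 + m ^ 2 + m ^ 4) -
      (68 + 62 * m + 250 * m ^ 2 + 440 * m ^ 3 + 470 * m ^ 4) := by
    nlinarith [sq_nonneg (m - 1), sq_nonneg (m ^ 2 - m), sq_nonneg m, sq_nonneg (m ^ 2)]
  have h11 : (0:ℝ) < 10 ^ 200 * (1200 * (1 + m ^ 2 + m ^ 4) -
      (68 + 62 * m + 250 * m ^ 2 + 440 * m ^ 3 + 470 * m ^ 4)) := by positivity
  nlinarith [h8, h9, h11]

/-- the half plane of the orbits -/
def HP (z : ℝ × ℝ) : Prop := 1 + ee * (1 + z.2) < 0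

lemma NN_pos {z : ℝ × ℝ} (h : HP z) : 0 < NN z := by
  have h1 : 0 ≤ 24 + 25 * z.2 := by
    unfold HP ee at h
    nlinarith
  have h2 := NZ_pos (x := z.1) h1
  rw [ev_NZ] at h2
  by_contra hcon
  push Not at hcon
  have : (10:ℝ) ^ 201 * NN z ≤ 0 := mul_nonpos_of_nonneg_of_nonpos (by positivity) hcon
  linarith

lemma ee_neg : ee < -24 := by unfold ee; norm_num

lemma f0 : XA.f 0 = 0 := zero_mem XA rfl rfl

lemma orbit_half {γ : ℝ → ℝ × ℝ} {T : ℝ} (hc : Cyc XA γ T) (ha : Around XA 0 γ) (t : ℝ) :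
    HP (γ t) := by
  have hγc : Continuous γ := continuous_iff_continuousAt.2 fun t => (hc.ode t).continuousAt
  have hd1 : ∀ t, HasDerivAt (fun t => (γ t).1) (XA.f (γ t)).1 t := fun t =>
    (hasFDerivAt_fst (𝕜 := ℝ) (p := γ t)).comp_hasDerivAt t (hc.ode t)
  have hd2 : ∀ t, HasDerivAt (fun t => (γ t).2) (XA.f (γ t)).2 t := fun t =>
    (hasFDerivAt_snd (𝕜 := ℝ) (p := γ t)).comp_hasDerivAt t (hc.ode t)
  set g : ℝ → ℝ := fun t => 1 + ee * (1 + (γ t).2) with hg
  have hgd : ∀ t, HasDerivAt g (-ee * (γ t).1 * g t + -ee * (γ t).1 ^ 2) t := by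
    intro t
    have := (((hd2 t).const_add 1).const_mul ee).const_add 1
    refine this.congr_deriv ?_
    rw [XA_f]
    simp only [hg]
    ring
  have hne : ∀ t, g t ≠ 0 := by
    intro t0 h0
    have hall := linear_sign (g := g) (α := fun t => -ee * (γ t).1)
      (β := fun t => -ee * (γ t).1 ^ 2) hc.pos (by fun_prop) hgd
      (fun t => by
        have := sq_nonneg (γ t).1
        have := ee_neg
        nlinarith) (fun t => by simp only [hg, hc.per]) h0
    have hx : ∀ t, (γ t).1 = 0 := by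
      intro t
      have h1 := (hall t).2
      have h2 : (γ t).1 ^ 2 = 0 := by
        rcases mul_eq_zero.1 h1 with h3 | h3
        · have := ee_neg; linarith
        · exact h3
      exact pow_eq_zero_iff (two_ne_zero) |>.1 h2
    have h2 := hd1 0
    have h3 : HasDerivAt (fun t => (γ t).1) 0 0 := by
      have : (fun t => (γ t).1) = fun _ => 0 := funext hx
      rw [this]
      exact hasDerivAt_const 0 0
    have h4 := h2.unique h3
    rw [XA_f] at h4
    simp only [hx] at h4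
    have h5 := (hall 0).1
    simp only [hg] at h5
    have h6 := ee_neg
    have h7 : (γ 0).2 * (1 + (γ 0).2) = 0 := by linear_combination -h4
    rcases mul_eq_zero.1 h7 with h8 | h8
    · rw [h8] at h5; linarith
    · rw [h8] at h5; linarith
  obtain ⟨t1, r, hr, ht1⟩ := rays XA γ T 0 hc ha (0, 1) (by simp)
  have h1 : 0 < -g t1 := by
    simp only [hg, ht1]
    have := ee_neg
    simp
    nlinarith
  have hgc : Continuous g := by simp only [hg]; fun_prop
  have := sign_const (g := fun t => -g t) hgc.neg (fun t => neg_ne_zero.2 (hne t)) h1 t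
  have h2 : g t < 0 := by linarith
  exact h2

lemma HP_mono {z : ℝ × ℝ} {a : ℝ} (ha0 : 0 ≤ a) (ha1 : a ≤ 1) (h : HP z) :
    1 + ee * (1 + a * z.2) < 0 := by
  unfold HP at h
  have h1 : 1 + ee < 0 := by have := ee_neg; linarith
  have : 1 + ee * (1 + a * z.2) = (1 - a) * (1 + ee) + a * (1 + ee * (1 + z.2)) := by ring
  rw [this]
  rcases eq_or_lt_of_le ha0 with h2 | h2
  · rw [← h2]; linarith
  · nlinarith [mul_neg_of_pos_of_neg h2 h]

lemma PG.half {C : Set (ℝ × ℝ)} (hC : C ∈ Orb XA 0) {R R' : ℝ → ℝ} (h : PG XA C R R')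
    {φ r : ℝ} (hr : r ∈ Icc 0 (R φ)) : HP (r * Real.cos φ, r * Real.sin φ) := by
  have h1 := h.mem φ
  obtain ⟨γ, T, hc, ha, rfl⟩ := hC
  obtain ⟨t, ht⟩ := h1
  have h2 := orbit_half hc ha t
  rw [ht] at h2
  have h3 := h.pos φ
  have h4 := HP_mono (a := r / R φ) (div_nonneg hr.1 h3.le) ((div_le_one h3).2 hr.2) h2
  unfold HP
  simp only at h4 ⊢
  have e : r / R φ * (R φ * Real.sin φ) = r * Real.sin φ := by field_simp
  rwa [e] at h4

/-- `Ψ` on lines through the focus -/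
lemma psi_line (t c s : ℝ) : psi (t * c, t * s) =
    -1000000 + (-6124595 * c - 2602043 * s) * t +
    (8462260 * c ^ 2 - 4582006 * (c * s) - 1157580 * s ^ 2) * t ^ 2 +
    (6403765 * c ^ 3 + 8319762 * (c ^ 2 * s) + 1854199 * (c * s ^ 2) + 485993 * s ^ 3) * t ^ 3 := by
  unfold psi
  simp only [PsiZ, ev_cons, ev_nil, ev1_cons, ev1_nil]
  push_cast
  ring

lemma psi_zero : psi (0, 0) = -1000000 := by
  have := psi_line 0 0 0
  simpa using this

lemma psi_ne {γ : ℝ → ℝ × ℝ} {T : ℝ} (hc : Cyc XA γ T) (ha : Around XA 0 γ) (t : ℝ) :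
    psi (γ t) ≠ 0 := by
  have hγc : Continuous γ := continuous_iff_continuousAt.2 fun t => (hc.ode t).continuousAt
  have := no_cross (g := fun t => -psi (γ t)) hc.pos (fun t => by simp only [hc.per])
    (psi_cont.comp hγc).neg ?_ t
  · intro h
    exact this (by simp only [h, neg_zero])
  · intro s hs
    have h1 := ((psi_deriv (γ s)).comp_hasDerivAt s (hc.ode s)).neg
    refine ⟨_, ?_, h1⟩
    have h2 := NN_pos (orbit_half hc ha s)
    unfold NN at h2
    have h3 : psi (γ s) = 0 := by linarith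
    rw [h3] at h2
    simp
    linarith

/-- no closed orbit with `Ψ < 0` -/
lemma psi_pos {C : Set (ℝ × ℝ)} (hC : C ∈ Orb XA 0) : ∀ z ∈ C, 0 < psi z := by
  obtain ⟨R, R', h⟩ := exists_PG f0 hC
  have hC' := hC
  obtain ⟨γ, T, hc, ha, hCγ⟩ := hC'
  have hγc : Continuous γ := continuous_iff_continuousAt.2 fun t => (hc.ode t).continuousAt
  have hpc : Continuous fun t => psi (γ t) := psi_cont.comp hγc
  by_contra hcon
  push Not at hcon
  obtain ⟨z, hz, hz0⟩ := hcon
  rw [hCγ] at hz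
  obtain ⟨t0, rfl⟩ := hz
  have hneg0 : 0 < -psi (γ t0) := by
    have := lt_of_le_of_ne hz0 (psi_ne hc ha t0)
    linarith
  have hneg : ∀ z ∈ C, 0 < -psi z := by
    intro z hz
    rw [hCγ] at hz
    obtain ⟨t, rfl⟩ := hz
    exact sign_const (g := fun t => -psi (γ t)) hpc.neg
      (fun t => neg_ne_zero.2 (psi_ne hc ha t)) hneg0 t
  have hfd : ∀ z, HasFDerivAt (fun z => -psi z) (lf (-psi1 z) (-psi2 z)) z := by
    intro z
    refine (psi_deriv z).neg.congr_fderiv ?_
    ext <;> simp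
  -- positivity in the disc
  have hdisc : ∀ φ, ∀ r ∈ Icc 0 (R φ), 0 < -psi (r * Real.cos φ, r * Real.sin φ) := by
    by_contra hcon
    push Not at hcon
    obtain ⟨φ1, r1, hr1, h1⟩ := hcon
    have hprop := h.exists_nonpos₁ (f := fun z => -psi z) (f1 := fun z => -psi1 z)
      (f2 := fun z => -psi2 z) hfd (by rw [psi_zero]; norm_num) hneg (ε := -1) (Or.inr rfl)
      (by
        rintro φ r hr z rfl hz
        have h2 := NN_pos (PG.half hC h (φ := φ) (r := r) ⟨hr.1.le, hr.2.le⟩)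
        unfold NN at h2
        have h3 : psi (r * Real.cos φ, r * Real.sin φ) = 0 := by linarith
        rw [h3] at h2
        linarith) hr1 h1
    obtain ⟨a, ha1, ha2⟩ := hprop 0
    obtain ⟨b, hb1, hb2⟩ := hprop Real.pi
    have e0 := hneg _ (h.mem 0)
    have e1 := hneg _ (h.mem Real.pi)
    simp only [Real.cos_zero, Real.sin_zero, Real.cos_pi, Real.sin_pi, mul_zero, mul_one,
      mul_neg] at ha2 hb2 e0 e1
    have key : ∀ x : ℝ, -psi (x, 0) = 1000000 + 6124595 * x + (-8462260) * x ^ 2 +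
        (-6403765) * x ^ 3 := by
      intro x
      have := psi_line x 1 0
      simp only [mul_one, mul_zero] at this
      rw [this]; ring
    rw [key] at ha2 hb2 e0 e1
    have ha3 : 0 < a := by
      refine lt_of_le_of_ne ha1.1 fun he => ?_
      rw [← he] at ha2; norm_num at ha2
    have hb3 : 0 < b := by
      refine lt_of_le_of_ne hb1.1 fun he => ?_
      rw [← he] at hb2; norm_num at hb2
    have ha4 : a < R 0 := by
      refine lt_of_le_of_ne ha1.2 fun he => ?_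
      rw [he] at ha2; linarith
    have hb4 : b < R Real.pi := by
      refine lt_of_le_of_ne hb1.2 fun he => ?_
      rw [he] at hb2; linarith
    exact cubic_signs (x0 := -R Real.pi) (x1 := -b) (x2 := 0) (x3 := a) (x4 := R 0)
      (by linarith) (by linarith) ha3 ha4 e1 hb2 (by norm_num) ha2 e0
  -- the Dulac function
  refine no_one_psi (Ψ := fun z => -psi z) (Ψ1 := fun z => -psi1 z) (Ψ2 := fun z => -psi2 z)
    (g := fun _ => -1) (g1 := fun _ => 0) (g2 := fun _ => 0) (κ := 7 / 10)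
    (U := {z | ∃ φ, ∃ r ∈ Icc 0 (R φ), z = (r * Real.cos φ, r * Real.sin φ)})
    h (fun φ r hr => ⟨φ, r, hr, rfl⟩) (fun z _ => hfd z) ?_ psi1_cont.neg.continuousOn
    psi2_cont.neg.continuousOn continuousOn_const continuousOn_const ?_ (by norm_num) ?_
  · intro z _
    refine (hasFDerivAt_const (-1:ℝ) z).congr_fderiv ?_
    ext <;> simp
  · rintro z ⟨φ, r, hr, rfl⟩
    exact hdisc φ r hr
  · rintro z ⟨φ, r, hr, rfl⟩
    have h2 := NN_pos (PG.half hC h (φ := φ) hr)
    unfold NN at h2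
    linarith [h2]

/-- At most one closed orbit around the strong focus. -/
theorem subsingleton : (Orb XA 0).Subsingleton := by
  -- two nested orbits
  have main : ∀ {C D : Set (ℝ × ℝ)} (_ : C ∈ Orb XA 0) (_ : D ∈ Orb XA 0) {R R' S S' : ℝ → ℝ},
      PG XA C R R' → PG XA D S S' → (∀ φ, R φ < S φ) → False := by
    intro C D hC hD R R' S S' h k hlt
    have hann : ∀ φ, ∀ r ∈ Icc (R φ) (S φ), 0 < psi (r * Real.cos φ, r * Real.sin φ) := by
      intro φ r hr
      by_contra hcon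
      push Not at hcon
      have e0 := psi_pos hC _ (h.mem φ)
      have e1 := psi_pos hD _ (k.mem φ)
      have e2 := psi_pos hD _ (k.mem (φ + Real.pi))
      have e3 := psi_zero
      have hR := h.pos φ
      have hS := k.pos (φ + Real.pi)
      have e2' : psi (-S (φ + Real.pi) * Real.cos φ, -S (φ + Real.pi) * Real.sin φ) > 0 := by
        rw [Real.cos_add_pi, Real.sin_add_pi] at e2
        have : (-S (φ + Real.pi) * Real.cos φ, -S (φ + Real.pi) * Real.sin φ) =
          (S (φ + Real.pi) * -Real.cos φ, S (φ + Real.pi) * -Real.sin φ) := by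
          ext <;> simp only <;> ring
        rw [this]
        exact e2
      rw [psi_line] at e0 e1 e2' hcon
      have hr1 : R φ < r := by
        refine lt_of_le_of_ne hr.1 fun he => ?_
        rw [← he] at hcon; linarith
      have hr2 : r < S φ := by
        refine lt_of_le_of_ne hr.2 fun he => ?_
        rw [he] at hcon; linarith
      exact cubic_signs (x0 := -S (φ + Real.pi)) (x1 := 0) (x2 := R φ) (x3 := r) (x4 := S φ)
        (by linarith) hR hr1 hr2 e2' (by norm_num) e0 hcon e1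
    refine no_two_psi (Ψ := psi) (Ψ1 := psi1) (Ψ2 := psi2)
      (g := fun _ => 1) (g1 := fun _ => 0) (g2 := fun _ => 0) (κ := 7 / 10)
      (U := {z | ∃ φ, ∃ r ∈ Icc (R φ) (S φ), z = (r * Real.cos φ, r * Real.sin φ)})
      h k hlt (fun φ r hr => ⟨φ, r, hr, rfl⟩) (fun z _ => psi_deriv z) ?_
      psi1_cont.continuousOn psi2_cont.continuousOn continuousOn_const continuousOn_const ?_
      (by norm_num) ?_
    · intro z _
      refine (hasFDerivAt_const (1:ℝ) z).congr_fderiv ?_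
      ext <;> simp
    · rintro z ⟨φ, r, hr, rfl⟩
      exact hann φ r hr
    · rintro z ⟨φ, r, hr, rfl⟩
      have h2 := NN_pos (PG.half hD k (φ := φ) (r := r) ⟨(h.pos φ).le.trans hr.1, hr.2⟩)
      unfold NN at h2
      linarith [h2]
  intro C hC D hD
  by_contra hne
  obtain ⟨R, R', h⟩ := exists_PG f0 hC
  obtain ⟨S, S', k⟩ := exists_PG f0 hD
  rcases PG.nested hC hD h k hne with h1 | h1
  · exact main hC hD h k h1
  · exact main hD hC k h h1

end AS

end

end Pool.Agent.Y301
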