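import Pool.Agent.Y301.OrbB

/-! At most three closed orbits around the weak focus. -/

open Set Topology Filter

set_option linter.unusedSimpArgs false
set_option linter.deprecated false

namespace Pool.Agent.Y301

open Pool.Agent.H709Q
open Pool.Agent.H709R2 (wedge ClosedOrbit)

noncomputable section

namespace BS

set_option exponentiation.threshold 1000

lemma rho_pos : 0 < ρ := by unfold ρ; norm_num

/-- `F` increases along rays -/
lemma FF_mono {φ r1 r2 : ℝ} (h0 : 0 ≤ r1) (h1 : r1 ≤ r2) (h2 : r2 ≤ ρ) :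
    FF (r1 * Real.cos φ, r1 * Real.sin φ) ≤ FF (r2 * Real.cos φ, r2 * Real.sin φ) := by
  have hd : ∀ r : ℝ, HasDerivAt (fun r : ℝ => FF (r * Real.cos φ, r * Real.sin φ))
      (Real.cos φ * FF1 (r * Real.cos φ, r * Real.sin φ) +
        Real.sin φ * FF2 (r * Real.cos φ, r * Real.sin φ)) r := by
    intro r
    have hg : HasDerivAt (fun r : ℝ => (r * Real.cos φ, r * Real.sin φ))
        (Real.cos φ, Real.sin φ) r := by
      have a1 := (hasDerivAt_id r).mul_const (Real.cos φ)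
      have a2 := (hasDerivAt_id r).mul_const (Real.sin φ)
      simp only [id, one_mul] at a1 a2
      exact a1.prodMk a2
    refine ((FF_deriv _).comp_hasDerivAt r hg).congr_deriv ?_
    simp
    ring
  have hm : MonotoneOn (fun r : ℝ => FF (r * Real.cos φ, r * Real.sin φ)) (Icc 0 ρ) := by
    refine monotoneOn_of_deriv_nonneg (convex_Icc 0 ρ)
      (fun r _ => (hd r).continuousAt.continuousWithinAt)
      (fun r _ => (hd r).differentiableAt.differentiableWithinAt) ?_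
    intro r hr
    rw [interior_Icc] at hr
    rw [(hd r).deriv]
    have h3 := R_pos hr.1.le (z := (r * Real.cos φ, r * Real.sin φ))
      (by simp only; linear_combination -(r ^ 2 * Real.cos_sq_add_sin_sq φ)) hr.2.le hr.1
    simp only at h3
    have h4 : 0 < r * (Real.cos φ * FF1 (r * Real.cos φ, r * Real.sin φ) +
        Real.sin φ * FF2 (r * Real.cos φ, r * Real.sin φ)) := by linarith
    exact ((mul_pos_iff_of_pos_left hr.1).1 h4).le
  exact hm ⟨h0, h1.trans h2⟩ ⟨h0.trans h1, h2⟩ h1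

/-- the cut-off version of `F` -/
def G (z : ℝ × ℝ) : ℝ := if nrm z < ρ then min (FF z) (1 / 10 ^ 12) else 1 / 10 ^ 12

lemma FF_big {z : ℝ × ℝ} (h1 : 3 / 2 / 10 ^ 6 ≤ nrm z) (h2 : nrm z ≤ ρ) : 1 / 10 ^ 12 < FF z := by
  have h := abs_le.1 (F_range (nrm_nonneg z) (nrm_sq z) h2)
  have h3 : (3 / 2 / 10 ^ 6) ^ 2 ≤ nrm z ^ 2 := pow_le_pow_left₀ (by norm_num) h1 2
  norm_num at h3 h ⊢
  linarith [h.1]

lemma G_out {z : ℝ × ℝ} (h1 : 3 / 2 / 10 ^ 6 ≤ nrm z) : G z = 1 / 10 ^ 12 := by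
  unfold G
  split_ifs with h
  · exact min_eq_right (FF_big h1 h.le).le
  · rfl

lemma G_in {z : ℝ × ℝ} (h1 : nrm z < ρ) : G z = min (FF z) (1 / 10 ^ 12) := if_pos h1

lemma G_cont : Continuous G := by
  rw [continuous_iff_continuousAt]
  intro z
  rcases lt_or_ge (nrm z) ρ with h | h
  · have : G =ᶠ[𝓝 z] fun z => min (FF z) (1 / 10 ^ 12) := by
      filter_upwards [nrm_cont.continuousAt.eventually (gt_mem_nhds h)] with w hw
      exact G_in hw
    exact ((FF_cont.min continuous_const).continuousAt).congr this.symm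
  · have h' : 3 / 2 / 10 ^ 6 < nrm z := lt_of_lt_of_le (by unfold ρ; norm_num) h
    have : G =ᶠ[𝓝 z] fun _ => 1 / 10 ^ 12 := by
      filter_upwards [nrm_cont.continuousAt.eventually (lt_mem_nhds h')] with w hw
      exact G_out hw.le
    exact continuousAt_const.congr this.symm

/-- an orbit does not meet a barrier -/
lemma trap {γ : ℝ → ℝ × ℝ} {T : ℝ} (hc : Cyc XB γ T) {a : ℝ} (ha1 : a < 1 / 10 ^ 12)
    {ε : ℝ} (hε : ε = 1 ∨ ε = -1)
    (hX : ∀ z, nrm z < ρ → FF z = a → 0 < ε * XF z) (t : ℝ) : G (γ t) ≠ a := by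
  have hγc : Continuous γ := continuous_iff_continuousAt.2 fun t => (hc.ode t).continuousAt
  have hε0 : ε ≠ 0 := by rcases hε with h | h <;> rw [h] <;> norm_num
  have := no_cross (g := fun t => ε * (G (γ t) - a)) hc.pos (fun t => by simp only [hc.per])
    (continuous_const.mul ((G_cont.comp hγc).sub continuous_const)) ?_ t
  · intro h
    exact this (by simp only [h, sub_self, mul_zero])
  · intro s hs
    have h1 : G (γ s) = a := by
      rcases mul_eq_zero.1 hs with h | h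
      · exact absurd h hε0
      · linarith
    have h2 : nrm (γ s) < ρ := by
      by_contra hcon
      push Not at hcon
      have := G_out (z := γ s) (le_trans (by unfold ρ; norm_num) hcon)
      linarith
    have h3 : FF (γ s) = a := by
      rw [G_in h2] at h1
      rcases min_choice (FF (γ s)) (1 / 10 ^ 12) with h | h
      · rw [← h]; exact h1
      · rw [h] at h1; linarith
    refine ⟨ε * XF (γ s), hX _ h2 h3, ?_⟩
    have h4 : HasDerivAt (fun t => FF (γ t)) (XF (γ s)) s := by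
      refine ((FF_deriv _).comp_hasDerivAt s (hc.ode s)).congr_deriv ?_
      unfold XF
      simp
    have h5 : HasDerivAt (fun t => ε * (FF (γ t) - a)) (ε * XF (γ s)) s :=
      (h4.sub_const a).const_mul ε
    refine h5.congr_of_eventuallyEq ?_
    have e1 : ∀ᶠ t in 𝓝 s, nrm (γ t) < ρ :=
      (nrm_cont.comp hγc).continuousAt.eventually (gt_mem_nhds h2)
    have e2 : ∀ᶠ t in 𝓝 s, FF (γ t) < 1 / 10 ^ 12 :=
      (FF_cont.comp hγc).continuousAt.eventually (gt_mem_nhds (by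
        show FF (γ s) < _
        rw [h3]; exact ha1))
    filter_upwards [e1, e2] with t h6 h7
    rw [G_in h6, min_eq_left h7.le]

lemma XF_bar1 {z : ℝ × ℝ} (h : nrm z < ρ) (h1 : FF z = 1 / 10 ^ 60) : 0 < XF z :=
  XF_pos (nrm_nonneg z) (nrm_sq z)
    (s_le_of_FF (nrm_nonneg z) (nrm_sq z) h.le (by norm_num) (by norm_num) h1.le)
    (le_s_of_FF (nrm_nonneg z) (nrm_sq z) h.le (by norm_num) h1.ge)

lemma XF_bar2 {z : ℝ × ℝ} (h : nrm z < ρ) (h1 : FF z = 1 / 10 ^ 17) : XF z < 0 :=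
  XF_neg (nrm_nonneg z) (nrm_sq z)
    (s_le_of_FF (nrm_nonneg z) (nrm_sq z) h.le (by norm_num) (by norm_num) h1.le)
    (le_s_of_FF (nrm_nonneg z) (nrm_sq z) h.le (by norm_num) h1.ge)

/-- the three classes -/
lemma classes {C : Set (ℝ × ℝ)} (hC : C ∈ Orb XB 0) :
    (∀ z ∈ C, G z < 1 / 10 ^ 60) ∨ (∀ z ∈ C, 1 / 10 ^ 60 < G z ∧ G z < 1 / 10 ^ 17) ∨
      (∀ z ∈ C, 1 / 10 ^ 17 < G z) := by
  obtain ⟨γ, T, hc, ha, rfl⟩ := hC
  have hγc : Continuous γ := continuous_iff_continuousAt.2 fun t => (hc.ode t).continuousAt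
  have hGc : Continuous fun t => G (γ t) := G_cont.comp hγc
  have n1 := trap hc (a := 1 / 10 ^ 60) (by norm_num) (ε := 1) (Or.inl rfl)
    (fun z h h1 => by rw [one_mul]; exact XF_bar1 h h1)
  have n2 := trap hc (a := 1 / 10 ^ 17) (by norm_num) (ε := -1) (Or.inr rfl)
    (fun z h h1 => by have := XF_bar2 h h1; linarith)
  rcases lt_or_gt_of_ne (n1 0) with h1 | h1
  · left
    rintro z ⟨t, rfl⟩
    have := sign_const (g := fun t => 1 / 10 ^ 60 - G (γ t)) (continuous_const.sub hGc)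
      (fun t => sub_ne_zero.2 (n1 t).symm) (t1 := 0) (sub_pos.2 h1) t
    linarith
  · have p1 : ∀ t, 1 / 10 ^ 60 < G (γ t) := fun t => by
      have := sign_const (g := fun t => G (γ t) - 1 / 10 ^ 60) (hGc.sub continuous_const)
        (fun t => sub_ne_zero.2 (n1 t)) (t1 := 0) (sub_pos.2 h1) t
      linarith
    rcases lt_or_gt_of_ne (n2 0) with h2 | h2
    · right; left
      rintro z ⟨t, rfl⟩
      refine ⟨p1 t, ?_⟩
      have := sign_const (g := fun t => 1 / 10 ^ 17 - G (γ t)) (continuous_const.sub hGc)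
        (fun t => sub_ne_zero.2 (n2 t).symm) (t1 := 0) (sub_pos.2 h2) t
      linarith
    · right; right
      rintro z ⟨t, rfl⟩
      have := sign_const (g := fun t => G (γ t) - 1 / 10 ^ 17) (hGc.sub continuous_const)
        (fun t => sub_ne_zero.2 (n2 t)) (t1 := 0) (sub_pos.2 h2) t
      linarith

lemma G_lt {z : ℝ × ℝ} {a : ℝ} (ha : a ≤ 1 / 10 ^ 12) (h : G z < a) : nrm z < ρ ∧ FF z < a := by
  have h2 : nrm z < ρ := by
    by_contra hcon
    push Not at hcon
    have := G_out (z := z) (le_trans (by unfold ρ; norm_num) hcon)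
    linarith
  refine ⟨h2, ?_⟩
  rw [G_in h2] at h
  rcases min_lt_iff.1 h with h3 | h3
  · exact h3
  · linarith

lemma lt_G {z : ℝ × ℝ} {a : ℝ} (h : a < G z) (h2 : nrm z < ρ) : a < FF z := by
  rw [G_in h2] at h
  exact lt_of_lt_of_le h (min_le_left _ _)

/-- powers of `F` -/
lemma pow_deriv {z : ℝ × ℝ} (h : 0 < FF z) (c p : ℝ) :
    HasFDerivAt (fun z => c * FF z ^ p)
      (lf (c * (p * FF z ^ (p - 1)) * FF1 z) (c * (p * FF z ^ (p - 1)) * FF2 z)) z := by
  refine (((FF_deriv z).rpow_const (p := p) (Or.inl h.ne')).const_mul c).congr_fderiv ?_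
  ext <;> simp <;> ring

/-- Two nested orbits with a Dulac function `c F ^ p Ψ ^ (-4/7)` between them. -/
lemma no_two_pow {C D : Set (ℝ × ℝ)} (hC : C ∈ Orb XB 0) (hD : D ∈ Orb XB 0)
    {R R' S S' : ℝ → ℝ}
    (h : PG XB C R R') (k : PG XB D S S') (hlt : ∀ φ, R φ < S φ) (c p : ℝ)
    (hF : ∀ φ, ∀ r ∈ Icc (R φ) (S φ), 0 < FF (r * Real.cos φ, r * Real.sin φ))
    (hT : ∀ φ, ∀ r ∈ Icc (R φ) (S φ), ∀ z, z = (r * Real.cos φ, r * Real.sin φ) →
      0 < c * (FF z * NN z + 7 / 4 * p * (psi z * XF z))) : False := by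
  refine no_two_psi (Ψ := psi) (Ψ1 := psi1) (Ψ2 := psi2) (g := fun z => c * FF z ^ p)
    (g1 := fun z => c * (p * FF z ^ (p - 1)) * FF1 z)
    (g2 := fun z => c * (p * FF z ^ (p - 1)) * FF2 z) (κ := 7 / 4)
    (U := {z | ∃ φ, ∃ r ∈ Icc (R φ) (S φ), z = (r * Real.cos φ, r * Real.sin φ)})
    h k hlt (fun φ r hr => ⟨φ, r, hr, rfl⟩) (fun z _ => psi_deriv z) ?_
    psi1_cont.continuousOn psi2_cont.continuousOn ?_ ?_ ?_ (by norm_num) ?_
  · rintro z ⟨φ, r, hr, rfl⟩
    exact pow_deriv (hF φ r hr) c p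
  · refine (continuousOn_const.mul (continuousOn_const.mul
      (FF_cont.continuousOn.rpow_const ?_))).mul FF1_cont.continuousOn
    rintro z ⟨φ, r, hr, rfl⟩
    exact Or.inl (hF φ r hr).ne'
  · refine (continuousOn_const.mul (continuousOn_const.mul
      (FF_cont.continuousOn.rpow_const ?_))).mul FF2_cont.continuousOn
    rintro z ⟨φ, r, hr, rfl⟩
    exact Or.inl (hF φ r hr).ne'
  · rintro z ⟨φ, r, hr, rfl⟩
    exact psi_ann hC hD h k hlt hr
  · rintro z ⟨φ, r, hr, hz⟩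
    have h1 := hT φ r hr z hz
    have h2 : 0 < FF z := by rw [hz]; exact hF φ r hr
    have h3 : FF z ^ p = FF z ^ (p - 1) * FF z := by
      rw [← Real.rpow_add_one h2.ne']
      congr 1
      ring
    have h4 : 0 < FF z ^ (p - 1) := Real.rpow_pos_of_pos h2 _
    have h5 := mul_pos h4 h1
    refine lt_of_lt_of_eq h5 ?_
    rw [h3]
    unfold NN XF
    ring

lemma class1 {C D : Set (ℝ × ℝ)} (hC : C ∈ Orb XB 0) (hD : D ∈ Orb XB 0) {R R' S S' : ℝ → ℝ}
    (h : PG XB C R R') (k : PG XB D S S') (hlt : ∀ φ, R φ < S φ)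
    (hD1 : ∀ z ∈ D, G z < 1 / 10 ^ 60) : False := by
  have hin : ∀ φ, S φ < ρ ∧ FF (S φ * Real.cos φ, S φ * Real.sin φ) < 1 / 10 ^ 60 := by
    intro φ
    have := G_lt (by norm_num) (hD1 _ (k.mem φ))
    rwa [nrm_polar (k.pos φ).le] at this
  refine no_two_pow hC hD h k hlt 1 (-(3 / 2)) ?_ ?_
  · intro φ r hr
    have hr0 : 0 < r := (h.pos φ).trans_le hr.1
    exact FF_pos hr0.le (by simp only; linear_combination -(r ^ 2 * Real.cos_sq_add_sin_sq φ))
      (hr.2.trans (hin φ).1.le) hr0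
  · intro φ r hr z hz
    have hr0 : 0 < r := (h.pos φ).trans_le hr.1
    have hs : r ^ 2 = z.1 ^ 2 + z.2 ^ 2 := by
      rw [hz]; simp only; linear_combination -(r ^ 2 * Real.cos_sq_add_sin_sq φ)
    have hle : FF z ≤ 1 / 10 ^ 60 := by
      rw [hz]
      exact (FF_mono hr0.le hr.2 (hin φ).1.le).trans (hin φ).2.le
    have h1 : r ≤ 101 / 100 / 10 ^ 30 :=
      s_le_of_FF hr0.le hs (hr.2.trans (hin φ).1.le) (by norm_num) (by norm_num) hle
    have h2 := T1_pos hr0.le hs h1 hr0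
    linarith

lemma class2 {C D : Set (ℝ × ℝ)} (hC : C ∈ Orb XB 0) (hD : D ∈ Orb XB 0) {R R' S S' : ℝ → ℝ}
    (h : PG XB C R R') (k : PG XB D S S') (hlt : ∀ φ, R φ < S φ)
    (hC1 : ∀ z ∈ C, 1 / 10 ^ 60 < G z) (hD1 : ∀ z ∈ D, G z < 1 / 10 ^ 17) : False := by
  have hin : ∀ φ, S φ < ρ ∧ FF (S φ * Real.cos φ, S φ * Real.sin φ) < 1 / 10 ^ 17 := by
    intro φ
    have := G_lt (by norm_num) (hD1 _ (k.mem φ))
    rwa [nrm_polar (k.pos φ).le] at this
  have hout : ∀ φ, 1 / 10 ^ 60 < FF (R φ * Real.cos φ, R φ * Real.sin φ) := by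
    intro φ
    refine lt_G (hC1 _ (h.mem φ)) ?_
    rw [nrm_polar (h.pos φ).le]
    exact (hlt φ).trans (hin φ).1
  refine no_two_pow hC hD h k hlt (-1) (-(5 / 2)) ?_ ?_
  · intro φ r hr
    have hr0 : 0 < r := (h.pos φ).trans_le hr.1
    exact FF_pos hr0.le (by simp only; linear_combination -(r ^ 2 * Real.cos_sq_add_sin_sq φ))
      (hr.2.trans (hin φ).1.le) hr0
  · intro φ r hr z hz
    have hr0 : 0 < r := (h.pos φ).trans_le hr.1
    have hs : r ^ 2 = z.1 ^ 2 + z.2 ^ 2 := by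
      rw [hz]; simp only; linear_combination -(r ^ 2 * Real.cos_sq_add_sin_sq φ)
    have hrρ : r ≤ ρ := hr.2.trans (hin φ).1.le
    have hle : FF z ≤ 1 / 10 ^ 17 := by
      rw [hz]
      exact (FF_mono hr0.le hr.2 (hin φ).1.le).trans (hin φ).2.le
    have hge : 1 / 10 ^ 60 ≤ FF z := by
      rw [hz]
      exact (hout φ).le.trans (FF_mono (h.pos φ).le hr.1 hrρ)
    have h1 : r ≤ 32 / 10 ^ 10 := s_le_of_FF hr0.le hs hrρ (by norm_num) (by norm_num) hle
    have h2 : 99 / 100 / 10 ^ 30 ≤ r := le_s_of_FF hr0.le hs hrρ (by norm_num) hge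
    have h3 := T2_neg hr0.le hs h1 h2
    linarith

end BS

end

end Pool.Agent.Y301
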