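import Pool.Agent.Y301.BSide

/-! At most three closed orbits around the weak focus: the last class. -/

open Set Topology Filter

set_option linter.unusedSimpArgs false
set_option linter.deprecated false

namespace Pool.Agent.Y301

open Pool.Agent.H709Q
open Pool.Agent.H709R2 (wedge ClosedOrbit)

noncomputable section

lemma hasDerivAt_maxcube (u : ℝ) : HasDerivAt (fun u : ℝ => (max u 0) ^ 3) (3 * (max u 0) ^ 2) u := by
  rcases lt_trichotomy u 0 with h | h | h
  · rw [max_eq_right h.le]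
    have : (fun u : ℝ => (max u 0) ^ 3) =ᶠ[𝓝 u] fun _ => 0 := by
      filter_upwards [gt_mem_nhds h] with w hw
      rw [max_eq_right (le_of_lt hw)]; norm_num
    refine (HasDerivAt.congr_of_eventuallyEq ?_ this)
    simpa using hasDerivAt_const u (0:ℝ)
  · subst h
    rw [hasDerivAt_iff_tendsto_slope]
    have hc : Tendsto (fun u : ℝ => (max u 0) ^ 2) (𝓝[≠] 0) (𝓝 (3 * (max 0 0) ^ 2)) := by
      have : Continuous fun u : ℝ => (max u 0) ^ 2 := by fun_prop
      have h1 := (this.tendsto 0).mono_left (nhdsWithin_le_nhds (s := {0}ᶜ))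
      simpa using h1
    refine hc.congr' ?_
    filter_upwards [self_mem_nhdsWithin] with w hw
    have hw' : w ≠ 0 := hw
    rw [slope_def_field]
    rcases lt_or_gt_of_ne hw' with h1 | h1
    · rw [max_eq_right h1.le]; simp
    · rw [max_eq_left h1.le]; simp; field_simp
  · rw [max_eq_left h.le]
    have : (fun u : ℝ => (max u 0) ^ 3) =ᶠ[𝓝 u] fun u => u ^ 3 := by
      filter_upwards [lt_mem_nhds h] with w hw
      rw [max_eq_left (le_of_lt hw)]
    refine (HasDerivAt.congr_of_eventuallyEq ?_ this)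
    simpa using hasDerivAt_pow 3 u

namespace BS

set_option exponentiation.threshold 1000

/-- the cut-off variable -/
def zt (z : ℝ × ℝ) : ℝ := max (1 / 10 ^ 12 / FF z - 1) 0

/-- the cut-off factor of the third Dulac function -/
def gc (z : ℝ × ℝ) : ℝ := if nrm z < ρ then zt z ^ 3 + 3 else 3

/-- its derivative with respect to `F` -/
def gd (z : ℝ × ℝ) : ℝ := if nrm z < ρ then 3 * zt z ^ 2 * (-(1 / 10 ^ 12) / FF z ^ 2) else 0

lemma zt_zero {z : ℝ × ℝ} (h : 1 / 10 ^ 12 ≤ FF z) : zt z = 0 := by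
  unfold zt
  refine max_eq_right ?_
  have : 1 / 10 ^ 12 / FF z ≤ 1 := (div_le_one (lt_of_lt_of_le (by norm_num) h)).2 h
  linarith

lemma gc_out {z : ℝ × ℝ} (h : 3 / 2 / 10 ^ 6 ≤ nrm z) : gc z = 3 := by
  unfold gc
  split_ifs with h1
  · rw [zt_zero (FF_big h h1.le).le]; norm_num
  · rfl

lemma gd_out {z : ℝ × ℝ} (h : 3 / 2 / 10 ^ 6 ≤ nrm z) : gd z = 0 := by
  unfold gd
  split_ifs with h1
  · rw [zt_zero (FF_big h h1.le).le]; norm_num
  · rfl

lemma gc_deriv {z : ℝ × ℝ} (h : nrm z < ρ → 0 < FF z) :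
    HasFDerivAt gc (lf (gd z * FF1 z) (gd z * FF2 z)) z := by
  rcases lt_or_ge (nrm z) ρ with h1 | h1
  · have hF := h h1
    have e : gc =ᶠ[𝓝 z] fun w => (max (1 / 10 ^ 12 / FF w - 1) 0) ^ 3 + 3 := by
      filter_upwards [nrm_cont.continuousAt.eventually (gt_mem_nhds h1)] with w hw
      exact if_pos hw
    refine HasFDerivAt.congr_of_eventuallyEq ?_ e
    have d1 : HasDerivAt (fun u : ℝ => 1 / 10 ^ 12 / u - 1) (-(1 / 10 ^ 12) / FF z ^ 2) (FF z) := by
      have := ((hasDerivAt_const (FF z) (1 / 10 ^ 12 : ℝ)).div (hasDerivAt_id (FF z)) hF.ne').sub_const 1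
      refine this.congr_deriv ?_
      simp
    have d2 := (hasDerivAt_maxcube (1 / 10 ^ 12 / FF z - 1)).comp (FF z) d1
    have d3 := (d2.comp_hasFDerivAt z (FF_deriv z)).add_const 3
    refine d3.congr_fderiv ?_
    have e2 : gd z = 3 * (max (1 / 10 ^ 12 / FF z - 1) 0) ^ 2 * (-(1 / 10 ^ 12) / FF z ^ 2) :=
      if_pos h1
    rw [e2]
    ext <;> simp
  · have h' : 3 / 2 / 10 ^ 6 < nrm z := lt_of_lt_of_le (by unfold ρ; norm_num) h1
    have e : gc =ᶠ[𝓝 z] fun _ => 3 := by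
      filter_upwards [nrm_cont.continuousAt.eventually (lt_mem_nhds h')] with w hw
      exact gc_out hw.le
    refine HasFDerivAt.congr_of_eventuallyEq ?_ e
    rw [gd_out h'.le]
    refine (hasFDerivAt_const (3:ℝ) z).congr_fderiv ?_
    ext <;> simp

lemma gd_cont {z : ℝ × ℝ} (h : nrm z < ρ → 0 < FF z) : ContinuousAt gd z := by
  rcases lt_or_ge (nrm z) ρ with h1 | h1
  · have hF := h h1
    have e : gd =ᶠ[𝓝 z] fun w => 3 * (max (1 / 10 ^ 12 / FF w - 1) 0) ^ 2 *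
        (-(1 / 10 ^ 12) / FF w ^ 2) := by
      filter_upwards [nrm_cont.continuousAt.eventually (gt_mem_nhds h1)] with w hw
      exact if_pos hw
    refine ContinuousAt.congr ?_ e.symm
    have c1 : ContinuousAt (fun w => 1 / 10 ^ 12 / FF w) z :=
      continuousAt_const.div FF_cont.continuousAt hF.ne'
    have c2 : ContinuousAt (fun w => -(1 / 10 ^ 12) / FF w ^ 2) z :=
      continuousAt_const.div (FF_cont.continuousAt.pow 2) (pow_ne_zero 2 hF.ne')
    exact (continuousAt_const.mul (((c1.sub continuousAt_const).max continuousAt_const).pow 2)).mul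
      c2
  · have h' : 3 / 2 / 10 ^ 6 < nrm z := lt_of_lt_of_le (by unfold ρ; norm_num) h1
    have e : gd =ᶠ[𝓝 z] fun _ => 0 := by
      filter_upwards [nrm_cont.continuousAt.eventually (lt_mem_nhds h')] with w hw
      exact gd_out hw.le
    exact ContinuousAt.congr continuousAt_const e.symm

lemma gc_ineq {z : ℝ × ℝ} (hH : HP z) (h : nrm z < ρ → 1 / 10 ^ 17 < FF z) :
    0 < gc z * NN z + 7 / 4 * psi z * (gd z * XF z) := by
  have outer : 99 / 10 ^ 8 ≤ nrm z → gc z = 3 → gd z = 0 →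
      0 < gc z * NN z + 7 / 4 * psi z * (gd z * XF z) := by
    intro h1 h2 h3
    rw [h2, h3]
    have := N_pos (nrm_nonneg z) (nrm_sq z) hH.lin h1
    linarith
  rcases lt_or_ge (nrm z) ρ with h1 | h1
  · have hF := h h1
    have hFp : 0 < FF z := lt_trans (by norm_num) hF
    have e1 : gc z = zt z ^ 3 + 3 := if_pos h1
    have e2 : gd z = 3 * zt z ^ 2 * (-(1 / 10 ^ 12) / FF z ^ 2) := if_pos h1
    rcases le_or_gt (FF z) (1 / 10 ^ 12) with h2 | h2
    · set ζ := 1 / 10 ^ 12 / FF z - 1 with hζ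
      have h3 : 1 ≤ 1 / 10 ^ 12 / FF z := (one_le_div hFp).2 h2
      have e3 : zt z = ζ := max_eq_left (by linarith)
      have e4 : (1 + ζ) * FF z = 1 / 10 ^ 12 := by
        rw [hζ]
        field_simp
        ring
      have key := T3_pos (nrm_nonneg z) (nrm_sq z) hH.lin h1.le hF.le h2 e4
      have e5 : (1:ℝ) / 10 ^ 12 / FF z ^ 2 = (1 + ζ) / FF z := by
        rw [← e4]
        field_simp
      have e6 : gc z * NN z + 7 / 4 * psi z * (gd z * XF z) =
          ((ζ ^ 3 + 3) * (FF z * NN z) - 7 / 4 * psi z * (3 * ζ ^ 2 * (1 + ζ) * XF z)) / FF z := by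
        rw [e1, e2, e3, neg_div, e5]
        field_simp
        ring
      rw [e6]
      exact div_pos key hFp
    · have e3 := zt_zero h2.le
      refine outer ?_ ?_ ?_
      · exact le_s_of_FF (nrm_nonneg z) (nrm_sq z) h1.le (by norm_num) h2.le
      · rw [e1, e3]; norm_num
      · rw [e2, e3]; norm_num
  · have h' : 3 / 2 / 10 ^ 6 ≤ nrm z := le_trans (by unfold ρ; norm_num) h1
    exact outer (le_trans (by norm_num) h') (gc_out h') (gd_out h')

lemma class3 {C D : Set (ℝ × ℝ)} (hC : C ∈ Orb XB 0) (hD : D ∈ Orb XB 0) {R R' S S' : ℝ → ℝ}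
    (h : PG XB C R R') (k : PG XB D S S') (hlt : ∀ φ, R φ < S φ)
    (hC1 : ∀ z ∈ C, 1 / 10 ^ 17 < G z) : False := by
  have hFF : ∀ φ, ∀ r ∈ Icc (R φ) (S φ), nrm (r * Real.cos φ, r * Real.sin φ) < ρ →
      1 / 10 ^ 17 < FF (r * Real.cos φ, r * Real.sin φ) := by
    intro φ r hr hn
    have hr0 : 0 < r := (h.pos φ).trans_le hr.1
    rw [nrm_polar hr0.le] at hn
    have h1 := lt_G (hC1 _ (h.mem φ)) (by rw [nrm_polar (h.pos φ).le]; linarith [hr.1])
    exact h1.trans_le (FF_mono (h.pos φ).le hr.1 hn.le)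
  refine no_two_psi (Ψ := psi) (Ψ1 := psi1) (Ψ2 := psi2) (g := gc)
    (g1 := fun z => gd z * FF1 z) (g2 := fun z => gd z * FF2 z) (κ := 7 / 4)
    (U := {z | ∃ φ, ∃ r ∈ Icc (R φ) (S φ), z = (r * Real.cos φ, r * Real.sin φ)})
    h k hlt (fun φ r hr => ⟨φ, r, hr, rfl⟩) (fun z _ => psi_deriv z) ?_
    psi1_cont.continuousOn psi2_cont.continuousOn ?_ ?_ ?_ (by norm_num) ?_
  · rintro z ⟨φ, r, hr, rfl⟩
    exact gc_deriv fun hn => lt_trans (by norm_num) (hFF φ r hr hn)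
  · rintro z ⟨φ, r, hr, rfl⟩
    exact ((gd_cont fun hn => lt_trans (by norm_num) (hFF φ r hr hn)).mul
      FF1_cont.continuousAt).continuousWithinAt
  · rintro z ⟨φ, r, hr, rfl⟩
    exact ((gd_cont fun hn => lt_trans (by norm_num) (hFF φ r hr hn)).mul
      FF2_cont.continuousAt).continuousWithinAt
  · rintro z ⟨φ, r, hr, rfl⟩
    exact psi_ann hC hD h k hlt hr
  · rintro z ⟨φ, r, hr, rfl⟩
    have h1 := PG.half hD k (φ := φ) (r := r) ⟨(h.pos φ).le.trans hr.1, hr.2⟩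
    refine lt_of_lt_of_eq (gc_ineq h1 (hFF φ r hr)) ?_
    unfold NN XF
    ring

/-- two nested orbits in a class -/
lemma subsing {P : Set (ℝ × ℝ) → Prop}
    (hP : ∀ {C D : Set (ℝ × ℝ)} {R R' S S' : ℝ → ℝ}, C ∈ Orb XB 0 → D ∈ Orb XB 0 →
      PG XB C R R' → PG XB D S S' → (∀ φ, R φ < S φ) → P C → P D → False) :
    {C | C ∈ Orb XB 0 ∧ P C}.Subsingleton := by
  intro C hC D hD
  by_contra hne
  obtain ⟨R, R', h⟩ := exists_PG f0 hC.1
  obtain ⟨S, S', k⟩ := exists_PG f0 hD.1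
  rcases PG.nested hC.1 hD.1 h k hne with h1 | h1
  · exact hP hC.1 hD.1 h k h1 hC.2 hD.2
  · exact hP hD.1 hC.1 k h h1 hD.2 hC.2

/-- At most three closed orbits around the weak focus. -/
theorem encard_le : (Orb XB 0).encard ≤ 3 := by
  have s1 : {C | C ∈ Orb XB 0 ∧ ∀ z ∈ C, G z < 1 / 10 ^ 60}.Subsingleton :=
    subsing fun hC hD h k hlt _ pD => class1 hC hD h k hlt pD
  have s2 : {C | C ∈ Orb XB 0 ∧ ∀ z ∈ C, 1 / 10 ^ 60 < G z ∧ G z < 1 / 10 ^ 17}.Subsingleton :=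
    subsing fun hC hD h k hlt pC pD =>
      class2 hC hD h k hlt (fun z hz => (pC z hz).1) fun z hz => (pD z hz).2
  have s3 : {C | C ∈ Orb XB 0 ∧ ∀ z ∈ C, 1 / 10 ^ 17 < G z}.Subsingleton :=
    subsing fun hC hD h k hlt pC _ => class3 hC hD h k hlt pC
  have hsub : Orb XB 0 ⊆ ({C | C ∈ Orb XB 0 ∧ ∀ z ∈ C, G z < 1 / 10 ^ 60} ∪
      {C | C ∈ Orb XB 0 ∧ ∀ z ∈ C, 1 / 10 ^ 60 < G z ∧ G z < 1 / 10 ^ 17}) ∪
      {C | C ∈ Orb XB 0 ∧ ∀ z ∈ C, 1 / 10 ^ 17 < G z} := by
    intro C hC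
    rcases classes hC with h | h | h
    · left; left; exact ⟨hC, h⟩
    · left; right; exact ⟨hC, h⟩
    · right; exact ⟨hC, h⟩
  have l1 := encard_le_one_iff_subsingleton.2 s1
  have l2 := encard_le_one_iff_subsingleton.2 s2
  have l3 := encard_le_one_iff_subsingleton.2 s3
  calc (Orb XB 0).encard ≤ _ := encard_le_encard hsub
    _ ≤ _ := encard_union_le _ _
    _ ≤ (1 + 1) + 1 := add_le_add ((encard_union_le _ _).trans (add_le_add l1 l2)) l3
    _ = 3 := by norm_num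

end BS

end

end Pool.Agent.Y301
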