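import Pool.Agent.Y301.Uniq

/-! Dulac functions `g Ψ ^ (-1/κ)`. -/

open Set Topology Filter

set_option linter.unusedSimpArgs false
set_option linter.deprecated false

namespace Pool.Agent.Y301

open Pool.Agent.H709Q
open Pool.Agent.H709R2 (wedge ClosedOrbit)

noncomputable section

/-- the linear form with coefficients `a`, `b` -/
abbrev lf (a b : ℝ) : ℝ × ℝ →L[ℝ] ℝ :=
  a • ContinuousLinearMap.fst ℝ ℝ ℝ + b • ContinuousLinearMap.snd ℝ ℝ ℝ

lemma dulac_deriv {Ψ g : ℝ × ℝ → ℝ} {z : ℝ × ℝ} {a b c d p : ℝ}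
    (hΨ : HasFDerivAt Ψ (lf a b) z) (hg : HasFDerivAt g (lf c d) z) (h0 : 0 < Ψ z) :
    HasFDerivAt (fun z => g z * Ψ z ^ p)
      (lf (c * Ψ z ^ p + g z * (p * Ψ z ^ (p - 1) * a))
        (d * Ψ z ^ p + g z * (p * Ψ z ^ (p - 1) * b))) z := by
  have h1 := hΨ.rpow_const (p := p) (Or.inl h0.ne')
  refine (hg.mul h1).congr_fderiv ?_
  ext
  · simp; ring
  · simp; ring

lemma dulac_pos {ψ g κ dv a b c d P Q : ℝ} (h0 : 0 < ψ) (hκ : 0 < κ)
    (h : 0 < g * (κ * ψ * dv - (a * P + b * Q)) + κ * ψ * (c * P + d * Q)) :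
    0 < g * ψ ^ (-(1 / κ)) * dv +
      ((c * ψ ^ (-(1 / κ)) + g * (-(1 / κ) * ψ ^ (-(1 / κ) - 1) * a)) * P +
       (d * ψ ^ (-(1 / κ)) + g * (-(1 / κ) * ψ ^ (-(1 / κ) - 1) * b)) * Q) := by
  have e : ψ ^ (-(1 / κ)) = ψ ^ (-(1 / κ) - 1) * ψ := by
    rw [← Real.rpow_add_one h0.ne']
    congr 1
    ring
  have h1 : 0 < ψ ^ (-(1 / κ) - 1) := Real.rpow_pos_of_pos h0 _
  have h2 : g * ψ ^ (-(1 / κ)) * dv +
      ((c * ψ ^ (-(1 / κ)) + g * (-(1 / κ) * ψ ^ (-(1 / κ) - 1) * a)) * P +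
       (d * ψ ^ (-(1 / κ)) + g * (-(1 / κ) * ψ ^ (-(1 / κ) - 1) * b)) * Q) =
      ψ ^ (-(1 / κ) - 1) / κ *
        (g * (κ * ψ * dv - (a * P + b * Q)) + κ * ψ * (c * P + d * Q)) := by
    rw [e]
    field_simp
    ring
  rw [h2]
  exact mul_pos (div_pos h1 hκ) h

/-- no Dulac function `g Ψ ^ (-1/κ)` between two closed orbits -/
theorem no_two_psi {X : QF} {C D : Set (ℝ × ℝ)} {R R' S S' : ℝ → ℝ} (h : PG X C R R')
    (k : PG X D S S') (hlt : ∀ φ, R φ < S φ)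
    {Ψ Ψ1 Ψ2 g g1 g2 : ℝ × ℝ → ℝ} {U : Set (ℝ × ℝ)}
    (hU : ∀ φ, ∀ r ∈ Icc (R φ) (S φ), (r * Real.cos φ, r * Real.sin φ) ∈ U)
    (hΨ : ∀ z ∈ U, HasFDerivAt Ψ (lf (Ψ1 z) (Ψ2 z)) z)
    (hg : ∀ z ∈ U, HasFDerivAt g (lf (g1 z) (g2 z)) z)
    (c1 : ContinuousOn Ψ1 U) (c2 : ContinuousOn Ψ2 U) (d1 : ContinuousOn g1 U)
    (d2 : ContinuousOn g2 U) (h0 : ∀ z ∈ U, 0 < Ψ z) {κ : ℝ} (hκ : 0 < κ)
    (hdiv : ∀ z ∈ U, 0 < g z * (κ * Ψ z * X.div z - (Ψ1 z * (X.f z).1 + Ψ2 z * (X.f z).2)) +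
      κ * Ψ z * (g1 z * (X.f z).1 + g2 z * (X.f z).2)) : False := by
  have cΨ : ContinuousOn Ψ U := fun z hz => (hΨ z hz).continuousAt.continuousWithinAt
  have cg : ContinuousOn g U := fun z hz => (hg z hz).continuousAt.continuousWithinAt
  have cp : ∀ p : ℝ, ContinuousOn (fun z => Ψ z ^ p) U := fun p =>
    cΨ.rpow_const fun z hz => Or.inl (h0 z hz).ne'
  refine no_two (B := fun z => g z * Ψ z ^ (-(1 / κ))) h k hlt hU
    (fun z hz => dulac_deriv (hΨ z hz) (hg z hz) (h0 z hz)) ?_ ?_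
    (fun z hz => dulac_pos (h0 z hz) hκ (hdiv z hz))
  · exact (d1.mul (cp _)).add (cg.mul ((continuousOn_const.mul (cp _)).mul c1))
  · exact (d2.mul (cp _)).add (cg.mul ((continuousOn_const.mul (cp _)).mul c2))

/-- no Dulac function `g Ψ ^ (-1/κ)` inside a closed orbit -/
theorem no_one_psi {X : QF} {C : Set (ℝ × ℝ)} {R R' : ℝ → ℝ} (h : PG X C R R')
    {Ψ Ψ1 Ψ2 g g1 g2 : ℝ × ℝ → ℝ} {U : Set (ℝ × ℝ)}
    (hU : ∀ φ, ∀ r ∈ Icc 0 (R φ), (r * Real.cos φ, r * Real.sin φ) ∈ U)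
    (hΨ : ∀ z ∈ U, HasFDerivAt Ψ (lf (Ψ1 z) (Ψ2 z)) z)
    (hg : ∀ z ∈ U, HasFDerivAt g (lf (g1 z) (g2 z)) z)
    (c1 : ContinuousOn Ψ1 U) (c2 : ContinuousOn Ψ2 U) (d1 : ContinuousOn g1 U)
    (d2 : ContinuousOn g2 U) (h0 : ∀ z ∈ U, 0 < Ψ z) {κ : ℝ} (hκ : 0 < κ)
    (hdiv : ∀ z ∈ U, 0 < g z * (κ * Ψ z * X.div z - (Ψ1 z * (X.f z).1 + Ψ2 z * (X.f z).2)) +
      κ * Ψ z * (g1 z * (X.f z).1 + g2 z * (X.f z).2)) : False := by
  have cΨ : ContinuousOn Ψ U := fun z hz => (hΨ z hz).continuousAt.continuousWithinAt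
  have cg : ContinuousOn g U := fun z hz => (hg z hz).continuousAt.continuousWithinAt
  have cp : ∀ p : ℝ, ContinuousOn (fun z => Ψ z ^ p) U := fun p =>
    cΨ.rpow_const fun z hz => Or.inl (h0 z hz).ne'
  refine no_one (B := fun z => g z * Ψ z ^ (-(1 / κ))) h hU
    (fun z hz => dulac_deriv (hΨ z hz) (hg z hz) (h0 z hz)) ?_ ?_
    (fun z hz => dulac_pos (h0 z hz) hκ (hdiv z hz))
  · exact (d1.mul (cp _)).add (cg.mul ((continuousOn_const.mul (cp _)).mul c1))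
  · exact (d2.mul (cp _)).add (cg.mul ((continuousOn_const.mul (cp _)).mul c2))

/-- sign of a solution of `g' = α g + β` with `β ≥ 0` -/
lemma linear_sign {g α β : ℝ → ℝ} {T t0 : ℝ} (hT : 0 < T) (hα : Continuous α)
    (hg : ∀ t, HasDerivAt g (α t * g t + β t) t) (hβ : ∀ t, 0 ≤ β t)
    (hper : ∀ t, g (t + T) = g t) (h0 : g t0 = 0) (t : ℝ) : g t = 0 ∧ β t = 0 := by
  set A : ℝ → ℝ := fun t => ∫ s in (0:ℝ)..t, α s with hA
  have hAd : ∀ t, HasDerivAt A (α t) t := fun t =>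
    (hα.integral_hasStrictDerivAt 0 t).hasDerivAt
  set G : ℝ → ℝ := fun t => g t * Real.exp (-A t) with hG
  have hGd : ∀ t, HasDerivAt G (β t * Real.exp (-A t)) t := by
    intro t
    have := (hg t).mul (hAd t).neg.exp
    refine this.congr_deriv ?_
    simp only [Pi.neg_apply]
    ring
  have hmono : Monotone G := by
    apply monotone_of_deriv_nonneg
    · exact fun t => (hGd t).differentiableAt
    · intro t
      rw [(hGd t).deriv]
      exact mul_nonneg (hβ t) (Real.exp_pos _).le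
  have hz : ∀ n : ℤ, G (t0 + n * T) = 0 := by
    intro n
    have hp : Function.Periodic g T := hper
    simp only [hG]
    rw [hp.int_mul n t0, h0, zero_mul]
  have hG0 : ∀ t, G t = 0 := by
    intro t
    obtain ⟨n, hn⟩ := exists_nat_gt (|t - t0| / T)
    rw [div_lt_iff₀ hT] at hn
    have h1 := abs_lt.1 hn
    have h2 := hmono (a := t0 + ((-n : ℤ) : ℝ) * T) (b := t) (by push_cast; linarith [h1.1])
    have h3 := hmono (a := t) (b := t0 + ((n : ℤ) : ℝ) * T) (by push_cast; linarith [h1.2])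
    rw [hz] at h2 h3
    exact le_antisymm h3 h2
  have hg0 : ∀ t, g t = 0 := by
    intro t
    have := hG0 t
    simp only [hG] at this
    rcases mul_eq_zero.1 this with h | h
    · exact h
    · exact absurd h (Real.exp_pos _).ne'
  refine ⟨hg0 t, ?_⟩
  have h1 : HasDerivAt g 0 t := by
    have : g = fun _ => 0 := funext hg0
    rw [this]
    exact hasDerivAt_const t 0
  have h2 := (hg t).unique h1
  rw [hg0 t, mul_zero, zero_add] at h2
  exact h2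

/-- a nonvanishing continuous function on a closed orbit has constant sign -/
lemma sign_const {g : ℝ → ℝ} (hg : Continuous g) (h0 : ∀ t, g t ≠ 0) {t1 : ℝ} (h1 : 0 < g t1)
    (t : ℝ) : 0 < g t := by
  by_contra hcon
  push Not at hcon
  have : (0:ℝ) ∈ uIcc (g t) (g t1) := by
    rw [mem_uIcc]; left; exact ⟨hcon, h1.le⟩
  obtain ⟨s, -, hs⟩ := intermediate_value_uIcc (f := g) hg.continuousOn this
  exact h0 s hs

/-- a cubic polynomial cannot have the signs `+ - + - +` at five increasing points -/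
lemma cubic_signs {c0 c1 c2 c3 x0 x1 x2 x3 x4 : ℝ} (h01 : x0 < x1) (h12 : x1 < x2)
    (h23 : x2 < x3) (h34 : x3 < x4)
    (p0 : 0 < c0 + c1 * x0 + c2 * x0 ^ 2 + c3 * x0 ^ 3)
    (p1 : c0 + c1 * x1 + c2 * x1 ^ 2 + c3 * x1 ^ 3 ≤ 0)
    (p2 : 0 < c0 + c1 * x2 + c2 * x2 ^ 2 + c3 * x2 ^ 3)
    (p3 : c0 + c1 * x3 + c2 * x3 ^ 2 + c3 * x3 ^ 3 ≤ 0)
    (p4 : 0 < c0 + c1 * x4 + c2 * x4 ^ 2 + c3 * x4 ^ 3) : False := by
  have d01 : c1 + c2 * (x0 + x1) + c3 * (x0 ^ 2 + x0 * x1 + x1 ^ 2) < 0 := by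
    by_contra h
    push Not at h
    have := mul_nonneg h (sub_pos.2 h01).le
    linarith
  have d12 : 0 < c1 + c2 * (x1 + x2) + c3 * (x1 ^ 2 + x1 * x2 + x2 ^ 2) := by
    by_contra h
    push Not at h
    have := mul_nonneg (neg_nonneg.2 h) (sub_pos.2 h12).le
    linarith
  have d23 : c1 + c2 * (x2 + x3) + c3 * (x2 ^ 2 + x2 * x3 + x3 ^ 2) < 0 := by
    by_contra h
    push Not at h
    have := mul_nonneg h (sub_pos.2 h23).le
    linarith
  have d34 : 0 < c1 + c2 * (x3 + x4) + c3 * (x3 ^ 2 + x3 * x4 + x4 ^ 2) := by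
    by_contra h
    push Not at h
    have := mul_nonneg (neg_nonneg.2 h) (sub_pos.2 h34).le
    linarith
  have e0 : 0 < c2 + c3 * (x0 + x1 + x2) := by
    by_contra h
    push Not at h
    have := mul_nonneg (neg_nonneg.2 h) (sub_pos.2 (h01.trans h12)).le
    linarith
  have e1 : c2 + c3 * (x1 + x2 + x3) < 0 := by
    by_contra h
    push Not at h
    have := mul_nonneg h (sub_pos.2 (h12.trans h23)).le
    linarith
  have e2 : 0 < c2 + c3 * (x2 + x3 + x4) := by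
    by_contra h
    push Not at h
    have := mul_nonneg (neg_nonneg.2 h) (sub_pos.2 (h23.trans h34)).le
    linarith
  have f0 : c3 < 0 := by
    by_contra h
    push Not at h
    have := mul_nonneg h (sub_pos.2 (h01.trans (h12.trans h23))).le
    linarith
  have f1 : 0 < c3 := by
    by_contra h
    push Not at h
    have := mul_nonneg (neg_nonneg.2 h) (sub_pos.2 (h12.trans (h23.trans h34))).le
    linarith
  linarith

end

end Pool.Agent.Y301
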