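import Mathlib

/-! The divergence theorem in the region between two closed orbits which are polar graphs. -/

open Set MeasureTheory Topology Filter

set_option linter.unusedSimpArgs false
set_option linter.deprecated false

namespace Pool.Agent.Y301

/-- two integrations and Fubini -/
lemma green_aux {F1 F2 K G : ℝ → ℝ → ℝ} {a b : ℝ} (hab : a < b)
    (hK : Continuous fun p : ℝ × ℝ => K p.1 p.2) (hG : Continuous fun p : ℝ × ℝ => G p.1 p.2)
    (h1 : ∀ s ∈ Icc (0:ℝ) 1, ∀ φ, HasDerivAt (fun φ => F1 φ s) (K φ s - G φ s) φ)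
    (h2 : ∀ φ, ∀ s ∈ Icc (0:ℝ) 1, HasDerivAt (F2 φ) (G φ s) s)
    (hper : ∀ s ∈ Icc (0:ℝ) 1, F1 b s = F1 a s) (hb0 : ∀ φ, F2 φ 0 = 0) (hb1 : ∀ φ, F2 φ 1 = 0)
    (hpos : ∀ φ, ∀ s ∈ Ioo (0:ℝ) 1, 0 < K φ s) : False := by
  have u01 : uIcc (0:ℝ) 1 = Icc 0 1 := uIcc_of_le zero_le_one
  have hKs : ∀ s, Continuous fun φ => K φ s := fun s =>
    hK.comp (continuous_id.prodMk continuous_const)
  have hGs : ∀ s, Continuous fun φ => G φ s := fun s =>
    hG.comp (continuous_id.prodMk continuous_const)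
  have hGφ : ∀ φ, Continuous (G φ) := fun φ =>
    hG.comp (continuous_const.prodMk continuous_id)
  have e1 : ∀ s ∈ Icc (0:ℝ) 1, ∫ φ in a..b, (K φ s - G φ s) = 0 := by
    intro s hs
    rw [intervalIntegral.integral_eq_sub_of_hasDerivAt (fun φ _ => h1 s hs φ)
      (((hKs s).sub (hGs s)).intervalIntegrable _ _), hper s hs, sub_self]
  have e2 : ∀ φ, ∫ s in (0:ℝ)..1, G φ s = 0 := by
    intro φ
    rw [intervalIntegral.integral_eq_sub_of_hasDerivAt (f := F2 φ)
      (fun s hs => h2 φ s (by rwa [u01] at hs)) ((hGφ φ).intervalIntegrable _ _), hb0, hb1, sub_self]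
  have hcK : Continuous fun s => ∫ φ in a..b, K φ s :=
    intervalIntegral.continuous_parametric_intervalIntegral_of_continuous'
      (f := fun s φ => K φ s) (hK.comp continuous_swap) a b
  have hcG : Continuous fun s => ∫ φ in a..b, G φ s :=
    intervalIntegral.continuous_parametric_intervalIntegral_of_continuous'
      (f := fun s φ => G φ s) (hG.comp continuous_swap) a b
  have e3 : ∫ s in (0:ℝ)..1, ∫ φ in a..b, G φ s = 0 := by
    have hi : IntegrableOn (Function.uncurry fun s φ => G φ s) (uIoc (0:ℝ) 1 ×ˢ uIoc a b) := by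
      have hc : Continuous (Function.uncurry fun s φ => G φ s) := hG.comp continuous_swap
      refine IntegrableOn.mono_set (t := Icc (0:ℝ) 1 ×ˢ Icc a b)
        (hc.continuousOn.integrableOn_compact (isCompact_Icc.prod isCompact_Icc)) ?_
      refine prod_mono ?_ ?_
      · rw [uIoc_of_le zero_le_one]; exact Ioc_subset_Icc_self
      · rw [uIoc_of_le hab.le]; exact Ioc_subset_Icc_self
    rw [intervalIntegral_intervalIntegral_swap hi]
    simp only [e2, intervalIntegral.integral_zero]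
  have e4 : ∫ s in (0:ℝ)..1, ∫ φ in a..b, K φ s = 0 := by
    have : ∀ s ∈ uIcc (0:ℝ) 1, ∫ φ in a..b, K φ s = ∫ φ in a..b, G φ s := by
      intro s hs
      rw [u01] at hs
      have h := e1 s hs
      rw [intervalIntegral.integral_sub ((hKs s).intervalIntegrable _ _)
        ((hGs s).intervalIntegrable _ _)] at h
      linarith
    rw [intervalIntegral.integral_congr this, e3]
  have e5 : 0 < ∫ s in (0:ℝ)..1, ∫ φ in a..b, K φ s := by
    refine intervalIntegral.intervalIntegral_pos_of_pos_on (hcK.intervalIntegrable _ _)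
      (fun s hs => ?_) zero_lt_one
    exact intervalIntegral.intervalIntegral_pos_of_pos ((hKs s).intervalIntegrable _ _)
      (fun φ => hpos φ s hs) hab
  linarith

/-- `R` is a polar graph tangent to the field `Y` -/
structure Tang (Y : ℝ × ℝ → ℝ × ℝ) (R R' : ℝ → ℝ) : Prop where
  deriv : ∀ φ, HasDerivAt R (R' φ) φ
  cont : Continuous R'
  per : R (2 * Real.pi) = R 0
  tang : ∀ φ, R' φ * (-Real.sin φ * (Y (R φ * Real.cos φ, R φ * Real.sin φ)).1 +
      Real.cos φ * (Y (R φ * Real.cos φ, R φ * Real.sin φ)).2) =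
    R φ * (Real.cos φ * (Y (R φ * Real.cos φ, R φ * Real.sin φ)).1 +
      Real.sin φ * (Y (R φ * Real.cos φ, R φ * Real.sin φ)).2)

/-- There is no field with positive divergence between two closed orbits. -/
theorem flux {Y1 Y2 A11 A12 A21 A22 : ℝ × ℝ → ℝ} {R1 R2 R1' R2' : ℝ → ℝ}
    (hR1 : Tang (fun z => (Y1 z, Y2 z)) R1 R1') (hR2 : Tang (fun z => (Y1 z, Y2 z)) R2 R2')
    (h0 : ∀ φ, 0 ≤ R1 φ) (hlt : ∀ φ, R1 φ < R2 φ) {S : Set (ℝ × ℝ)}
    (hS : ∀ φ, ∀ r ∈ Icc (R1 φ) (R2 φ), (r * Real.cos φ, r * Real.sin φ) ∈ S)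
    (hY1 : ∀ z ∈ S, HasFDerivAt Y1 (A11 z • ContinuousLinearMap.fst ℝ ℝ ℝ +
      A12 z • ContinuousLinearMap.snd ℝ ℝ ℝ) z)
    (hY2 : ∀ z ∈ S, HasFDerivAt Y2 (A21 z • ContinuousLinearMap.fst ℝ ℝ ℝ +
      A22 z • ContinuousLinearMap.snd ℝ ℝ ℝ) z)
    (c11 : ContinuousOn A11 S) (c12 : ContinuousOn A12 S) (c21 : ContinuousOn A21 S)
    (c22 : ContinuousOn A22 S)
    (hdiv : ∀ φ, ∀ r ∈ Ioo (R1 φ) (R2 φ), 0 < A11 (r * Real.cos φ, r * Real.sin φ) +
      A22 (r * Real.cos φ, r * Real.sin φ)) : False := by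
  -- the clamp
  set c : ℝ → ℝ := fun s => max 0 (min s 1) with hc
  have hcc : Continuous c := by fun_prop
  have hcs : ∀ s ∈ Icc (0:ℝ) 1, c s = s := by
    intro s hs
    simp only [hc, min_eq_left hs.2, max_eq_right hs.1]
  have hcm : ∀ s, c s ∈ Icc (0:ℝ) 1 := by
    intro s
    exact ⟨le_max_left _ _, max_le zero_le_one (min_le_right _ _)⟩
  have hR1c : Continuous R1 := continuous_iff_continuousAt.2 fun φ => (hR1.deriv φ).continuousAt
  have hR2c : Continuous R2 := continuous_iff_continuousAt.2 fun φ => (hR2.deriv φ).continuousAt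
  set r : ℝ → ℝ → ℝ := fun φ s => R1 φ + s * (R2 φ - R1 φ) with hr
  set rφ : ℝ → ℝ → ℝ := fun φ s => R1' φ + s * (R2' φ - R1' φ) with hrφ
  set z : ℝ → ℝ → ℝ × ℝ := fun φ s => (r φ s * Real.cos φ, r φ s * Real.sin φ) with hz
  have hrm : ∀ φ, ∀ s ∈ Icc (0:ℝ) 1, r φ s ∈ Icc (R1 φ) (R2 φ) := by
    intro φ s hs
    have := hlt φ
    constructor
    · simp only [hr]; nlinarith [hs.1]
    · simp only [hr]; nlinarith [hs.2]
  have hzS : ∀ φ, ∀ s ∈ Icc (0:ℝ) 1, z φ s ∈ S := fun φ s hs => hS φ _ (hrm φ s hs)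
  have hzc : Continuous fun p : ℝ × ℝ => z p.1 (c p.2) := by
    simp only [hz, hr]
    fun_prop
  have hcontS : ∀ {f : ℝ × ℝ → ℝ}, ContinuousOn f S →
      Continuous fun p : ℝ × ℝ => f (z p.1 (c p.2)) := by
    intro f hf
    exact hf.comp_continuous hzc fun p => hzS _ _ (hcm _)
  have hY1c : ContinuousOn Y1 S := fun z hz => (hY1 z hz).continuousAt.continuousWithinAt
  have hY2c : ContinuousOn Y2 S := fun z hz => (hY2 z hz).continuousAt.continuousWithinAt
  have k1 := hcontS hY1c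
  have k2 := hcontS hY2c
  have k11 := hcontS c11
  have k12 := hcontS c12
  have k21 := hcontS c21
  have k22 := hcontS c22
  -- the functions
  set F1 : ℝ → ℝ → ℝ := fun φ s => (-Real.sin φ * Y1 (z φ s) + Real.cos φ * Y2 (z φ s)) *
    (R2 φ - R1 φ) with hF1
  set F2 : ℝ → ℝ → ℝ := fun φ s => r φ s * (Real.cos φ * Y1 (z φ s) + Real.sin φ * Y2 (z φ s)) -
    (-Real.sin φ * Y1 (z φ s) + Real.cos φ * Y2 (z φ s)) * rφ φ s with hF2
  set K : ℝ → ℝ → ℝ := fun φ s => (R2 φ - R1 φ) * (R1 φ + c s * (R2 φ - R1 φ)) *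
    (A11 (z φ (c s)) + A22 (z φ (c s))) with hK
  -- derivative of `Y` along the ray
  set G : ℝ → ℝ → ℝ := fun φ s => (R2 φ - R1 φ) *
      (Real.cos φ * Y1 (z φ (c s)) + Real.sin φ * Y2 (z φ (c s))) +
    (R1 φ + c s * (R2 φ - R1 φ)) * (R2 φ - R1 φ) *
      (Real.cos φ * (A11 (z φ (c s)) * Real.cos φ + A12 (z φ (c s)) * Real.sin φ) +
       Real.sin φ * (A21 (z φ (c s)) * Real.cos φ + A22 (z φ (c s)) * Real.sin φ)) -
    (R2 φ - R1 φ) * (-Real.sin φ * (A11 (z φ (c s)) * Real.cos φ + A12 (z φ (c s)) * Real.sin φ) +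
       Real.cos φ * (A21 (z φ (c s)) * Real.cos φ + A22 (z φ (c s)) * Real.sin φ)) *
      (R1' φ + c s * (R2' φ - R1' φ)) -
    (-Real.sin φ * Y1 (z φ (c s)) + Real.cos φ * Y2 (z φ (c s))) * (R2' φ - R1' φ) with hG
  have d1 := hR1.deriv
  have d2 := hR2.deriv
  have e1 := hR1.cont
  have e2 := hR2.cont
  refine green_aux (F1 := F1) (F2 := F2) (K := K) (G := G) (a := 0) (b := 2 * Real.pi)
    (by positivity) ?_ ?_ ?_ ?_ ?_ ?_ ?_ ?_
  · have key : ∀ a b : ℝ × ℝ → ℝ, Continuous a → Continuous b → Continuous fun p : ℝ × ℝ =>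
        (R2 p.1 - R1 p.1) * (R1 p.1 + c p.2 * (R2 p.1 - R1 p.1)) * (a p + b p) := by
      intro a b ha hb
      fun_prop
    exact key _ _ k11 k22
  · have key : ∀ a11 a12 a21 a22 y1 y2 : ℝ × ℝ → ℝ, Continuous a11 → Continuous a12 →
        Continuous a21 → Continuous a22 → Continuous y1 → Continuous y2 →
        Continuous fun p : ℝ × ℝ => (R2 p.1 - R1 p.1) *
          (Real.cos p.1 * y1 p + Real.sin p.1 * y2 p) +
        (R1 p.1 + c p.2 * (R2 p.1 - R1 p.1)) * (R2 p.1 - R1 p.1) *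
          (Real.cos p.1 * (a11 p * Real.cos p.1 + a12 p * Real.sin p.1) +
           Real.sin p.1 * (a21 p * Real.cos p.1 + a22 p * Real.sin p.1)) -
        (R2 p.1 - R1 p.1) * (-Real.sin p.1 * (a11 p * Real.cos p.1 + a12 p * Real.sin p.1) +
           Real.cos p.1 * (a21 p * Real.cos p.1 + a22 p * Real.sin p.1)) *
          (R1' p.1 + c p.2 * (R2' p.1 - R1' p.1)) -
        (-Real.sin p.1 * y1 p + Real.cos p.1 * y2 p) * (R2' p.1 - R1' p.1) := by
      intro a11 a12 a21 a22 y1 y2 h1 h2 h3 h4 h5 h6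
      fun_prop
    exact key _ _ _ _ _ _ k11 k12 k21 k22 k1 k2
  · intro s hs φ
    have hrd : HasDerivAt (fun φ => r φ s) (rφ φ s) φ :=
      (d1 φ).add (((d2 φ).sub (d1 φ)).const_mul s)
    have hzd : HasDerivAt (fun φ => z φ s) (rφ φ s * Real.cos φ - r φ s * Real.sin φ,
        rφ φ s * Real.sin φ + r φ s * Real.cos φ) φ := by
      have a1 := hrd.mul (Real.hasDerivAt_cos φ)
      have a2 := hrd.mul (Real.hasDerivAt_sin φ)
      refine (a1.prodMk a2).congr_deriv ?_
      ext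
      · simp only; ring
      · simp only
    have b1 := (hY1 _ (hzS φ s hs)).comp_hasDerivAt φ hzd
    have b2 := (hY2 _ (hzS φ s hs)).comp_hasDerivAt φ hzd
    have b3 := (((Real.hasDerivAt_sin φ).neg.mul b1).add ((Real.hasDerivAt_cos φ).mul b2)).mul
      ((d2 φ).sub (d1 φ))
    refine b3.congr_deriv ?_
    simp only [hK, hG, hcs s hs]
    simp only [Function.comp_apply, ContinuousLinearMap.add_apply, ContinuousLinearMap.smul_apply,
      ContinuousLinearMap.coe_fst', ContinuousLinearMap.coe_snd', smul_eq_mul]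
    have hsc := Real.sin_sq_add_cos_sq φ
    simp only [hrφ, hr, Pi.add_apply, Pi.mul_apply, Pi.neg_apply, Pi.sub_apply,
      Function.comp_apply]
    linear_combination ((A11 (z φ s) + A22 (z φ s)) * (R2 φ - R1 φ) *
      (R1 φ + s * (R2 φ - R1 φ))) * hsc
  · intro φ s hs
    have hrd : HasDerivAt (fun s => r φ s) (R2 φ - R1 φ) s := by
      have := ((hasDerivAt_id s).mul_const (R2 φ - R1 φ)).const_add (R1 φ)
      exact this.congr_deriv (one_mul _)
    have hrd' : HasDerivAt (fun s => rφ φ s) (R2' φ - R1' φ) s := by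
      have := ((hasDerivAt_id s).mul_const (R2' φ - R1' φ)).const_add (R1' φ)
      exact this.congr_deriv (one_mul _)
    have hzd : HasDerivAt (fun s => z φ s) ((R2 φ - R1 φ) * Real.cos φ,
        (R2 φ - R1 φ) * Real.sin φ) s := (hrd.mul_const _).prodMk (hrd.mul_const _)
    have b1 := (hY1 _ (hzS φ s hs)).comp_hasDerivAt s hzd
    have b2 := (hY2 _ (hzS φ s hs)).comp_hasDerivAt s hzd
    have b3 := (hrd.mul ((b1.const_mul (Real.cos φ)).add (b2.const_mul (Real.sin φ)))).sub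
      (((b1.const_mul (-Real.sin φ)).add (b2.const_mul (Real.cos φ))).mul hrd')
    refine b3.congr_deriv ?_
    simp only [hG, hcs s hs]
    simp only [Function.comp_apply, ContinuousLinearMap.add_apply, ContinuousLinearMap.smul_apply,
      ContinuousLinearMap.coe_fst', ContinuousLinearMap.coe_snd', smul_eq_mul]
    simp only [hrφ, hr, Pi.add_apply, Pi.mul_apply, Pi.neg_apply, Pi.sub_apply,
      Function.comp_apply]
    ring
  · intro s hs
    simp only [hF1, hz, hr, hR1.per, hR2.per, Real.sin_two_pi, Real.cos_two_pi, Real.sin_zero,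
      Real.cos_zero]
  · intro φ
    have := hR1.tang φ
    simp only [hF2, hz, hr, hrφ, zero_mul, add_zero]
    linarith
  · intro φ
    have := hR2.tang φ
    simp only [hF2, hz, hr, hrφ, one_mul, add_sub_cancel]
    linarith
  · intro φ s hs
    have hs' : s ∈ Icc (0:ℝ) 1 := ⟨hs.1.le, hs.2.le⟩
    have h1 := hlt φ
    have h2 : R1 φ < R1 φ + s * (R2 φ - R1 φ) := by nlinarith [hs.1]
    have h3 : R1 φ + s * (R2 φ - R1 φ) < R2 φ := by nlinarith [hs.2]
    have h4 := hdiv φ _ ⟨h2, h3⟩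
    simp only [hK, hcs s hs', hz, hr]
    have h5 := h0 φ
    have h6 : 0 < R2 φ - R1 φ := by linarith
    have h7 : 0 < R1 φ + s * (R2 φ - R1 φ) := by linarith
    positivity

end Pool.Agent.Y301
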