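import Pool.Agent.Y301.Shi
import Pool.Agent.Y301.DataB
import Pool.Agent.Y301.ASide

/-! Inequalities around the weak focus. -/

open Set Topology Filter

set_option linter.unusedSimpArgs false
set_option linter.deprecated false

namespace Pool.Agent.Y301

open Pool.Agent.H709Q
open Pool.Agent.H709R2 (wedge ClosedOrbit)

noncomputable section

namespace BS

set_option exponentiation.threshold 1000

open DB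

lemma ev_PZ (z : ℝ × ℝ) : ev PZ z.1 z.2 = 10 ^ 200 * (XB.f z).1 := by
  rw [XB_f]
  simp only [PZ, ev_cons, ev_nil, ev1_cons, ev1_nil, lam, bb]
  push_cast
  ring

lemma ev_QZ (z : ℝ × ℝ) : ev QZ z.1 z.2 = 10 ^ 200 * (XB.f z).2 := by
  rw [XB_f]
  simp only [QZ, ev_cons, ev_nil, ev1_cons, ev1_nil, ee]
  push_cast
  ring

lemma ev_divZ (z : ℝ × ℝ) : ev divZ z.1 z.2 = 10 ^ 200 * XB.div z := by
  have h1 := (hasFDerivAt_f1 XB z).const_mul ((10:ℝ) ^ 200)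
  have h2 := (hasFDerivAt_f2 XB z).const_mul ((10:ℝ) ^ 200)
  have k1 := hasFDerivAt_ev PZ (hasFDerivAt_fst (𝕜 := ℝ) (E := ℝ) (F := ℝ) (p := z))
    (hasFDerivAt_snd (𝕜 := ℝ) (E := ℝ) (F := ℝ) (p := z))
  have k2 := hasFDerivAt_ev QZ (hasFDerivAt_fst (𝕜 := ℝ) (E := ℝ) (F := ℝ) (p := z))
    (hasFDerivAt_snd (𝕜 := ℝ) (E := ℝ) (F := ℝ) (p := z))
  simp only [ev_PZ] at k1
  simp only [ev_QZ] at k2
  have e1 := congrArg (fun L : ℝ × ℝ →L[ℝ] ℝ => L (1, 0)) (h1.unique k1)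
  have e2 := congrArg (fun L : ℝ × ℝ →L[ℝ] ℝ => L (0, 1)) (h2.unique k2)
  simp at e1 e2
  unfold divZ
  rw [ev_addP, ← e1, ← e2]
  unfold QF.div P1 Q2'
  ring

/-- the function `Ψ` -/
def psi (z : ℝ × ℝ) : ℝ := (4 * 10 ^ 60)⁻¹ * ev PsiZ z.1 z.2
def psi1 (z : ℝ × ℝ) : ℝ := (4 * 10 ^ 60)⁻¹ * ev (dX PsiZ) z.1 z.2
def psi2 (z : ℝ × ℝ) : ℝ := (4 * 10 ^ 60)⁻¹ * ev (dY PsiZ) z.1 z.2

/-- the function `F` -/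
def FF (z : ℝ × ℝ) : ℝ := (3 * 10 ^ 200)⁻¹ * ev FZ z.1 z.2
def FF1 (z : ℝ × ℝ) : ℝ := (3 * 10 ^ 200)⁻¹ * ev (dX FZ) z.1 z.2
def FF2 (z : ℝ × ℝ) : ℝ := (3 * 10 ^ 200)⁻¹ * ev (dY FZ) z.1 z.2

lemma psi_deriv (z : ℝ × ℝ) : HasFDerivAt psi (lf (psi1 z) (psi2 z)) z := by
  have := (hasFDerivAt_ev PsiZ (hasFDerivAt_fst (𝕜 := ℝ) (E := ℝ) (F := ℝ) (p := z))
    (hasFDerivAt_snd (𝕜 := ℝ) (E := ℝ) (F := ℝ) (p := z))).const_mul ((4 * 10 ^ 60)⁻¹ : ℝ)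
  refine this.congr_fderiv ?_
  ext <;> simp [psi1, psi2]

lemma FF_deriv (z : ℝ × ℝ) : HasFDerivAt FF (lf (FF1 z) (FF2 z)) z := by
  have := (hasFDerivAt_ev FZ (hasFDerivAt_fst (𝕜 := ℝ) (E := ℝ) (F := ℝ) (p := z))
    (hasFDerivAt_snd (𝕜 := ℝ) (E := ℝ) (F := ℝ) (p := z))).const_mul ((3 * 10 ^ 200)⁻¹ : ℝ)
  refine this.congr_fderiv ?_
  ext <;> simp [FF1, FF2]

lemma psi_cont : Continuous psi := continuous_const.mul (continuous_ev PsiZ)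
lemma psi1_cont : Continuous psi1 := continuous_const.mul (continuous_ev _)
lemma psi2_cont : Continuous psi2 := continuous_const.mul (continuous_ev _)
lemma FF_cont : Continuous FF := continuous_const.mul (continuous_ev FZ)
lemma FF1_cont : Continuous FF1 := continuous_const.mul (continuous_ev _)
lemma FF2_cont : Continuous FF2 := continuous_const.mul (continuous_ev _)

/-- `κ Ψ div - XΨ` -/
def NN (z : ℝ × ℝ) : ℝ :=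
  7 / 4 * psi z * XB.div z - (psi1 z * (XB.f z).1 + psi2 z * (XB.f z).2)

/-- `XF` -/
def XF (z : ℝ × ℝ) : ℝ := FF1 z * (XB.f z).1 + FF2 z * (XB.f z).2

lemma ev_NZ (z : ℝ × ℝ) : ev NZ z.1 z.2 = 16 * 10 ^ 260 * NN z := by
  unfold NZ NN psi psi1 psi2
  rw [ev_addP, ev_smulP, ev_smulP, ev_addP, ev_mulP, ev_mulP, ev_mulP, ev_PZ, ev_QZ, ev_divZ]
  push_cast
  ring

lemma ev_XFZ (z : ℝ × ℝ) : ev XFZ z.1 z.2 = 3 * 10 ^ 400 * XF z := by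
  unfold XFZ XF FF1 FF2
  rw [ev_addP, ev_mulP, ev_mulP, ev_PZ, ev_QZ]
  ring

lemma ev_FZ (z : ℝ × ℝ) : ev FZ z.1 z.2 = 3 * 10 ^ 200 * FF z := by
  unfold FF
  ring

lemma ev_PsiZ (z : ℝ × ℝ) : ev PsiZ z.1 z.2 = 4 * 10 ^ 60 * psi z := by
  unfold psi
  ring

lemma ev_AZ (z : ℝ × ℝ) : ev AZ z.1 z.2 = 48 * 10 ^ 460 * (FF z * NN z) := by
  unfold AZ
  rw [ev_mulP, ev_NZ, ev_FZ]
  ring

lemma ev_PXZ (z : ℝ × ℝ) : ev PXZ z.1 z.2 = 12 * 10 ^ 460 * (psi z * XF z) := by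
  unfold PXZ
  rw [ev_mulP, ev_XFZ, ev_PsiZ]
  ring

lemma ev_q2 (z : ℝ × ℝ) {s : ℝ} (hs : s ^ 2 = z.1 ^ 2 + z.2 ^ 2) : ev q2 z.1 z.2 = s ^ 2 := by
  simp only [q2, ev_cons, ev_nil, ev1_cons, ev1_nil]
  push_cast
  rw [hs]
  ring

lemma ev_q4 (z : ℝ × ℝ) {s : ℝ} (hs : s ^ 2 = z.1 ^ 2 + z.2 ^ 2) : ev q4 z.1 z.2 = s ^ 4 := by
  unfold q4
  rw [ev_mulP, ev_q2 z hs]
  ring

lemma ev_q6 (z : ℝ × ℝ) {s : ℝ} (hs : s ^ 2 = z.1 ^ 2 + z.2 ^ 2) : ev q6 z.1 z.2 = s ^ 6 := by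
  unfold q6
  rw [ev_mulP, ev_q4 z hs, ev_q2 z hs]
  ring

lemma ev_q8 (z : ℝ × ℝ) {s : ℝ} (hs : s ^ 2 = z.1 ^ 2 + z.2 ^ 2) : ev q8 z.1 z.2 = s ^ 8 := by
  unfold q8
  rw [ev_mulP, ev_q4 z hs]
  ring

lemma abs1_le {z : ℝ × ℝ} {s : ℝ} (h0 : 0 ≤ s) (hs : s ^ 2 = z.1 ^ 2 + z.2 ^ 2) : |z.1| ≤ s :=
  abs_le_of_sq_le_sq (by nlinarith [sq_nonneg z.2]) h0

lemma abs2_le {z : ℝ × ℝ} {s : ℝ} (h0 : 0 ≤ s) (hs : s ^ 2 = z.1 ^ 2 + z.2 ^ 2) : |z.2| ≤ s :=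
  abs_le_of_sq_le_sq (by nlinarith [sq_nonneg z.1]) h0

/-- powers -/
lemma pw {s ρ : ℝ} (h0 : 0 ≤ s) (h : s ≤ ρ) (k m : ℕ) : s ^ (k + m) ≤ s ^ k * ρ ^ m := by
  rw [pow_add]
  exact mul_le_mul_of_nonneg_left (pow_le_pow_left₀ h0 h m) (pow_nonneg h0 k)

lemma pw' {s σ : ℝ} (hσ : 0 ≤ σ) (h : σ ≤ s) (k m : ℕ) : s ^ k * σ ^ m ≤ s ^ (k + m) := by
  rw [pow_add]
  exact mul_le_mul_of_nonneg_left (pow_le_pow_left₀ hσ h m) (pow_nonneg (hσ.trans h) k)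

section bounds

variable {z : ℝ × ℝ} {s : ℝ} (h0 : 0 ≤ s) (hs : s ^ 2 = z.1 ^ 2 + z.2 ^ 2)

include h0 hs

lemma F_err : |FF z - s ^ 2| ≤ 10 / 10 ^ 201 * s ^ 2 + 54 * s ^ 3 + 1100 * s ^ 4 + 42000 * s ^ 5 +
    1100000 * s ^ 6 + 59000000 * s ^ 7 + 1900000000 * s ^ 8 + 170000000000 * s ^ 9 := by
  have h := abs_ev_le' EF bF leF (abs1_le h0 hs) (abs2_le h0 hs)
  have e1 : ev EF z.1 z.2 = 3 * 10 ^ 200 * (FF z - s ^ 2) := by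
    unfold EF
    rw [ev_addP, ev_smulP, ev_q2 z hs, ev_FZ]
    push_cast
    ring
  have e2 : ev1 bF s = 3 * 10 ^ 200 * (10 / 10 ^ 201 * s ^ 2 + 54 * s ^ 3 + 1100 * s ^ 4 +
      42000 * s ^ 5 + 1100000 * s ^ 6 + 59000000 * s ^ 7 + 1900000000 * s ^ 8 +
      170000000000 * s ^ 9) := by
    simp only [bF, ev1_cons, ev1_nil]
    push_cast
    ring
  rw [e1, e2, abs_mul, abs_of_pos (by positivity : (0:ℝ) < 3 * 10 ^ 200)] at h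
  exact le_of_mul_le_mul_left h (by positivity)

lemma R_err : |(z.1 * FF1 z + z.2 * FF2 z) - 2 * s ^ 2| ≤ 20 / 10 ^ 201 * s ^ 2 + 160 * s ^ 3 +
    4400 * s ^ 4 + 210000 * s ^ 5 + 6500000 * s ^ 6 + 420000000 * s ^ 7 + 16000000000 * s ^ 8 +
    1500000000000 * s ^ 9 := by
  have h := abs_ev_le' ER bR leR (abs1_le h0 hs) (abs2_le h0 hs)
  have hmap : ∀ p : List (List ℤ), ev (p.map (0 :: ·)) z.1 z.2 = z.2 * ev p z.1 z.2 := by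
    intro p
    induction p with
    | nil => simp
    | cons a p ih =>
      rw [List.map_cons, ev_cons, ih, ev_cons, ev1_cons]
      push_cast
      ring
  have e1 : ev ER z.1 z.2 = 3 * 10 ^ 200 * ((z.1 * FF1 z + z.2 * FF2 z) - 2 * s ^ 2) := by
    unfold ER RadZ FF1 FF2
    rw [ev_addP, ev_smulP, ev_q2 z hs, ev_addP, hmap, ev_cons, ev1_nil]
    push_cast
    ring
  have e2 : ev1 bR s = 3 * 10 ^ 200 * (20 / 10 ^ 201 * s ^ 2 + 160 * s ^ 3 +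
    4400 * s ^ 4 + 210000 * s ^ 5 + 6500000 * s ^ 6 + 420000000 * s ^ 7 + 16000000000 * s ^ 8 +
    1500000000000 * s ^ 9) := by
    simp only [bR, ev1_cons, ev1_nil]
    push_cast
    ring
  rw [e1, e2, abs_mul, abs_of_pos (by positivity : (0:ℝ) < 3 * 10 ^ 200)] at h
  exact le_of_mul_le_mul_left h (by positivity)

lemma P_err : |psi z - 1| ≤ 88 * s + 3000 * s ^ 2 + 49000 * s ^ 3 + 460000 * s ^ 4 +
    3100000 * s ^ 5 + 13000000 * s ^ 6 + 27000000 * s ^ 7 := by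
  have h := abs_ev_le' EP bP leP (abs1_le h0 hs) (abs2_le h0 hs)
  have e1 : ev EP z.1 z.2 = 4 * 10 ^ 60 * (psi z - 1) := by
    unfold EP
    rw [ev_addP, ev_PsiZ]
    simp only [ev_cons, ev_nil, ev1_cons, ev1_nil]
    push_cast
    ring
  have e2 : ev1 bP s = 4 * 10 ^ 60 * (88 * s + 3000 * s ^ 2 + 49000 * s ^ 3 + 460000 * s ^ 4 +
    3100000 * s ^ 5 + 13000000 * s ^ 6 + 27000000 * s ^ 7) := by
    simp only [bP, ev1_cons, ev1_nil]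
    push_cast
    ring
  rw [e1, e2, abs_mul, abs_of_pos (by positivity : (0:ℝ) < 4 * 10 ^ 60)] at h
  exact le_of_mul_le_mul_left h (by positivity)

lemma X_err : |XF z - (2 / 10 ^ 52 * s ^ 4 - 19 / 48 / 10 ^ 10 * s ^ 6)| ≤
    21 / 10 ^ 201 * s ^ 2 + 92 / 10 ^ 200 * s ^ 3 + 29 / 10 ^ 64 * s ^ 4 + 21 / 10 ^ 43 * s ^ 5 +
    19 / 10 ^ 24 * s ^ 6 + 12 / 10 ^ 10 * s ^ 7 + 150000 * s ^ 8 + 13000000 * s ^ 9 +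
    28 * 10 ^ 12 * s ^ 10 := by
  have h := abs_ev_le' EX bX leX (abs1_le h0 hs) (abs2_le h0 hs)
  have e1 : ev EX z.1 z.2 =
      3 * 10 ^ 400 * (XF z - (2 / 10 ^ 52 * s ^ 4 - 19 / 48 / 10 ^ 10 * s ^ 6)) := by
    unfold EX
    rw [ev_addP, ev_addP, ev_smulP, ev_smulP, ev_q4 z hs, ev_q6 z hs, ev_XFZ]
    push_cast
    ring
  have e2 : ev1 bX s = 3 * 10 ^ 400 * (21 / 10 ^ 201 * s ^ 2 + 92 / 10 ^ 200 * s ^ 3 +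
    29 / 10 ^ 64 * s ^ 4 + 21 / 10 ^ 43 * s ^ 5 +
    19 / 10 ^ 24 * s ^ 6 + 12 / 10 ^ 10 * s ^ 7 + 150000 * s ^ 8 + 13000000 * s ^ 9 +
    28 * 10 ^ 12 * s ^ 10) := by
    simp only [bX, ev1_cons, ev1_nil]
    push_cast
    ring
  rw [e1, e2, abs_mul, abs_of_pos (by positivity : (0:ℝ) < 3 * 10 ^ 400)] at h
  exact le_of_mul_le_mul_left h (by positivity)

lemma T1_err : |(FF z * NN z - 21 / 8 * (psi z * XF z)) -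
    (875 / 10 ^ 203 * s ^ 2 + 175 / 10 ^ 54 * s ^ 4)| ≤
    88 / 10 ^ 402 * s ^ 2 + 26 / 10 ^ 199 * s ^ 3 + 12 / 10 ^ 63 * s ^ 4 + 53 / 10 ^ 43 * s ^ 5 +
    84 / 10 ^ 11 * s ^ 6 + 12 / 10 ^ 8 * s ^ 7 + 640000 * s ^ 8 + 18000000 * s ^ 9 +
    74 * 10 ^ 12 * s ^ 10 + 54 * 10 ^ 14 * s ^ 11 + 15 * 10 ^ 16 * s ^ 12 + 24 * 10 ^ 17 * s ^ 13 +
    22 * 10 ^ 18 * s ^ 14 + 15 * 10 ^ 19 * s ^ 15 + 58 * 10 ^ 19 * s ^ 16 +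
    13 * 10 ^ 20 * s ^ 17 := by
  have h := abs_ev_le' ET1 bT1 leT1 (abs1_le h0 hs) (abs2_le h0 hs)
  have e1 : ev ET1 z.1 z.2 = 96 * 10 ^ 460 * ((FF z * NN z - 21 / 8 * (psi z * XF z)) -
    (875 / 10 ^ 203 * s ^ 2 + 175 / 10 ^ 54 * s ^ 4)) := by
    unfold ET1
    rw [ev_addP, ev_addP, ev_addP, ev_smulP, ev_smulP, ev_smulP, ev_smulP, ev_q4 z hs,
      ev_q2 z hs, ev_AZ, ev_PXZ]
    push_cast
    ring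
  have e2 : ev1 bT1 s = 96 * 10 ^ 460 * (88 / 10 ^ 402 * s ^ 2 + 26 / 10 ^ 199 * s ^ 3 +
    12 / 10 ^ 63 * s ^ 4 + 53 / 10 ^ 43 * s ^ 5 +
    84 / 10 ^ 11 * s ^ 6 + 12 / 10 ^ 8 * s ^ 7 + 640000 * s ^ 8 + 18000000 * s ^ 9 +
    74 * 10 ^ 12 * s ^ 10 + 54 * 10 ^ 14 * s ^ 11 + 15 * 10 ^ 16 * s ^ 12 + 24 * 10 ^ 17 * s ^ 13 +
    22 * 10 ^ 18 * s ^ 14 + 15 * 10 ^ 19 * s ^ 15 + 58 * 10 ^ 19 * s ^ 16 +
    13 * 10 ^ 20 * s ^ 17) := by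
    simp only [bT1, ev1_cons, ev1_nil]
    push_cast
    ring
  rw [e1, e2, abs_mul, abs_of_pos (by positivity : (0:ℝ) < 96 * 10 ^ 460)] at h
  exact le_of_mul_le_mul_left h (by positivity)

lemma T2_err : |(FF z * NN z - 35 / 8 * (psi z * XF z)) +
    (175 / 10 ^ 54 * s ^ 4 + 346 / 10 ^ 13 * s ^ 6)| ≤
    53 / 10 ^ 201 * s ^ 2 + 42 / 10 ^ 199 * s ^ 3 + 17 / 10 ^ 63 * s ^ 4 + 88 / 10 ^ 43 * s ^ 5 +
    29 / 10 ^ 14 * s ^ 6 + 17 / 10 ^ 8 * s ^ 7 + 390000 * s ^ 8 + 11000000 * s ^ 9 +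
    13 * 10 ^ 13 * s ^ 10 + 90 * 10 ^ 14 * s ^ 11 + 25 * 10 ^ 16 * s ^ 12 + 39 * 10 ^ 17 * s ^ 13 +
    37 * 10 ^ 18 * s ^ 14 + 25 * 10 ^ 19 * s ^ 15 + 97 * 10 ^ 19 * s ^ 16 +
    21 * 10 ^ 20 * s ^ 17 := by
  have h := abs_ev_le' ET2 bT2 leT2 (abs1_le h0 hs) (abs2_le h0 hs)
  have e1 : ev ET2 z.1 z.2 = 96 * 10 ^ 460 * ((FF z * NN z - 35 / 8 * (psi z * XF z)) +
    (175 / 10 ^ 54 * s ^ 4 + 346 / 10 ^ 13 * s ^ 6)) := by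
    unfold ET2
    rw [ev_addP, ev_addP, ev_addP, ev_smulP, ev_smulP, ev_smulP, ev_smulP, ev_q4 z hs,
      ev_q6 z hs, ev_AZ, ev_PXZ]
    push_cast
    ring
  have e2 : ev1 bT2 s = 96 * 10 ^ 460 * (53 / 10 ^ 201 * s ^ 2 + 42 / 10 ^ 199 * s ^ 3 +
    17 / 10 ^ 63 * s ^ 4 + 88 / 10 ^ 43 * s ^ 5 +
    29 / 10 ^ 14 * s ^ 6 + 17 / 10 ^ 8 * s ^ 7 + 390000 * s ^ 8 + 11000000 * s ^ 9 +
    13 * 10 ^ 13 * s ^ 10 + 90 * 10 ^ 14 * s ^ 11 + 25 * 10 ^ 16 * s ^ 12 + 39 * 10 ^ 17 * s ^ 13 +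
    37 * 10 ^ 18 * s ^ 14 + 25 * 10 ^ 19 * s ^ 15 + 97 * 10 ^ 19 * s ^ 16 +
    21 * 10 ^ 20 * s ^ 17) := by
    simp only [bT2, ev1_cons, ev1_nil]
    push_cast
    ring
  rw [e1, e2, abs_mul, abs_of_pos (by positivity : (0:ℝ) < 96 * 10 ^ 460)] at h
  exact le_of_mul_le_mul_left h (by positivity)

lemma B_err : |(FF z * NN z - 7 * (psi z * XF z)) - 133 / 192 / 10 ^ 10 * s ^ 6| ≤
    11 / 10 ^ 200 * s ^ 2 + 66 / 10 ^ 199 * s ^ 3 + 29 / 10 ^ 52 * s ^ 4 + 15 / 10 ^ 42 * s ^ 5 +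
    52 / 10 ^ 24 * s ^ 6 + 25 / 10 ^ 8 * s ^ 7 + 63 / 100 * s ^ 8 + 140 * s ^ 9 +
    20 * 10 ^ 13 * s ^ 10 + 15 * 10 ^ 15 * s ^ 11 + 40 * 10 ^ 16 * s ^ 12 + 62 * 10 ^ 17 * s ^ 13 +
    59 * 10 ^ 18 * s ^ 14 + 39 * 10 ^ 19 * s ^ 15 + 16 * 10 ^ 20 * s ^ 16 +
    34 * 10 ^ 20 * s ^ 17 := by
  have h := abs_ev_le' EB bB leB (abs1_le h0 hs) (abs2_le h0 hs)
  have e1 : ev EB z.1 z.2 = 48 * 10 ^ 460 * ((FF z * NN z - 7 * (psi z * XF z)) -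
      133 / 192 / 10 ^ 10 * s ^ 6) := by
    unfold EB
    rw [ev_addP, ev_addP, ev_smulP, ev_smulP, ev_q6 z hs, ev_AZ, ev_PXZ]
    push_cast
    ring
  have e2 : ev1 bB s = 48 * 10 ^ 460 * (11 / 10 ^ 200 * s ^ 2 + 66 / 10 ^ 199 * s ^ 3 +
    29 / 10 ^ 52 * s ^ 4 + 15 / 10 ^ 42 * s ^ 5 +
    52 / 10 ^ 24 * s ^ 6 + 25 / 10 ^ 8 * s ^ 7 + 63 / 100 * s ^ 8 + 140 * s ^ 9 +
    20 * 10 ^ 13 * s ^ 10 + 15 * 10 ^ 15 * s ^ 11 + 40 * 10 ^ 16 * s ^ 12 + 62 * 10 ^ 17 * s ^ 13 +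
    59 * 10 ^ 18 * s ^ 14 + 39 * 10 ^ 19 * s ^ 15 + 16 * 10 ^ 20 * s ^ 16 +
    34 * 10 ^ 20 * s ^ 17) := by
    simp only [bB, ev1_cons, ev1_nil]
    push_cast
    ring
  rw [e1, e2, abs_mul, abs_of_pos (by positivity : (0:ℝ) < 48 * 10 ^ 460)] at h
  exact le_of_mul_le_mul_left h (by positivity)

lemma N_lower (hlin : 25 * z.2 ≤ 1 + 1 / 10 ^ 10) :
    11600 * s ^ 6 + 3480 * s ^ 8 - 133 / 64 / 10 ^ 10 * s ^ 4 -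
    (18 / 10 ^ 201 + 15 / 10 ^ 199 * s + 15 / 10 ^ 52 * s ^ 2 + 21 / 10 ^ 59 * s ^ 3 +
      54 / 10 ^ 24 * s ^ 4 + 73 / 10 ^ 13 * s ^ 5 + 53 * s ^ 6 + 140 * s ^ 7 + 380 * s ^ 8) ≤
    NN z := by
  have h := abs_ev_le' EN bN leN (abs1_le h0 hs) (abs2_le h0 hs)
  have h4 := AS.ev_sos_nonneg sq0 (by decide) z.1 z.2
  have h5 := AS.ev_sos_nonneg sq1 (by decide) z.1 z.2
  have h6 : ev linZ z.1 z.2 = 10 ^ 10 * (1 + 1 / 10 ^ 10 - 25 * z.2) := by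
    simp only [linZ, ev_cons, ev_nil, ev1_cons, ev1_nil]
    push_cast
    ring
  have h7 : 0 ≤ ev linZ z.1 z.2 := by
    rw [h6]
    have : 0 ≤ 1 + 1 / 10 ^ 10 - 25 * z.2 := by linarith
    positivity
  have e1 : ev EN z.1 z.2 = 16 * 10 ^ 260 * (NN z + 133 / 64 / 10 ^ 10 * s ^ 4) -
      ev CertZ z.1 z.2 := by
    unfold EN
    rw [ev_addP, ev_addP, ev_smulP, ev_smulP, ev_q4 z hs, ev_NZ]
    push_cast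
    ring
  have e2 : ev1 bN s = 16 * 10 ^ 260 * (18 / 10 ^ 201 + 15 / 10 ^ 199 * s + 15 / 10 ^ 52 * s ^ 2 +
      21 / 10 ^ 59 * s ^ 3 + 54 / 10 ^ 24 * s ^ 4 + 73 / 10 ^ 13 * s ^ 5 + 53 * s ^ 6 +
      140 * s ^ 7 + 380 * s ^ 8) := by
    simp only [bN, ev1_cons, ev1_nil]
    push_cast
    ring
  have e3 : 16 * 10 ^ 260 * (11600 * s ^ 6 + 3480 * s ^ 8) ≤ ev CertZ z.1 z.2 := by
    unfold CertZ
    rw [ev_addP, ev_addP, ev_addP, ev_smulP, ev_smulP, ev_smulP, ev_smulP, ev_mulP, ev_q6 z hs,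
      ev_q8 z hs]
    have k1 := mul_nonneg h7 h5
    push_cast
    nlinarith [h4, k1]
  rw [e1, e2] at h
  have h8 := (abs_le.1 h).1
  refine le_of_mul_le_mul_left ?_ (by positivity : (0:ℝ) < 16 * 10 ^ 260)
  linarith

end bounds

end BS

end

end Pool.Agent.Y301
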