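import Pool.Agent.Y301.LocB

/-! Inequalities around the weak focus, II. -/

open Set Topology Filter

set_option linter.unusedSimpArgs false
set_option linter.deprecated false

namespace Pool.Agent.Y301

open Pool.Agent.H709Q
open Pool.Agent.H709R2 (wedge ClosedOrbit)

noncomputable section

namespace BS

set_option exponentiation.threshold 1000

section bounds

variable {z : ℝ × ℝ} {s : ℝ} (h0 : 0 ≤ s) (hs : s ^ 2 = z.1 ^ 2 + z.2 ^ 2)

include h0 hs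

lemma F_fine (hρ : s ≤ 2 / 10 ^ 6) : |FF z - s ^ 2| ≤ 1 / 10 ^ 200 * s ^ 2 + 55 * s ^ 3 := by
  have h := F_err h0 hs
  have a0 := pow_nonneg h0 2
  have a1 := pow_nonneg h0 3
  have a4 := pw h0 hρ 3 1
  have a5 := pw h0 hρ 3 2
  have a6 := pw h0 hρ 3 3
  have a7 := pw h0 hρ 3 4
  have a8 := pw h0 hρ 3 5
  have a9 := pw h0 hρ 3 6
  norm_num at *
  linarith

lemma F_range (hρ : s ≤ 2 / 10 ^ 6) : |FF z - s ^ 2| ≤ 1 / 8000 * s ^ 2 := by
  have h := F_fine h0 hs hρ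
  have a0 := pow_nonneg h0 2
  have a3 := pw h0 hρ 2 1
  norm_num at *
  linarith

lemma R_pos (hρ : s ≤ 2 / 10 ^ 6) (hpos : 0 < s) : 0 < z.1 * FF1 z + z.2 * FF2 z := by
  have h := (abs_le.1 (R_err h0 hs)).1
  have a0 := pow_pos hpos 2
  have a3 := pw h0 hρ 2 1
  have a4 := pw h0 hρ 2 2
  have a5 := pw h0 hρ 2 3
  have a6 := pw h0 hρ 2 4
  have a7 := pw h0 hρ 2 5
  have a8 := pw h0 hρ 2 6
  have a9 := pw h0 hρ 2 7
  norm_num at *
  linarith

lemma psi_ge (hρ : s ≤ 2 / 10 ^ 6) : 3 / 4 ≤ psi z := by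
  have h := (abs_le.1 (P_err h0 hs)).1
  have a2 := pw h0 hρ 0 2
  have a3 := pw h0 hρ 0 3
  have a4 := pw h0 hρ 0 4
  have a5 := pw h0 hρ 0 5
  have a6 := pw h0 hρ 0 6
  have a7 := pw h0 hρ 0 7
  norm_num at *
  linarith

/-- sign of `XF` on the first barrier -/
lemma XF_pos (h1 : s ≤ 101 / 100 / 10 ^ 30) (h2 : 99 / 100 / 10 ^ 30 ≤ s) : 0 < XF z := by
  have h := (abs_le.1 (X_err h0 hs)).1
  have hpos : 0 < s := lt_of_lt_of_le (by norm_num) h2
  have a0 := pow_pos hpos 4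
  have a2 := pw' (by norm_num) h2 2 2
  have a3 := pw' (by norm_num) h2 3 1
  have a5 := pw h0 h1 4 1
  have a6 := pw h0 h1 4 2
  have a7 := pw h0 h1 4 3
  have a8 := pw h0 h1 4 4
  have a9 := pw h0 h1 4 5
  have a10 := pw h0 h1 4 6
  norm_num at *
  linarith

/-- sign of `XF` on the second barrier -/
lemma XF_neg (h1 : s ≤ 32 / 10 ^ 10) (h2 : 31 / 10 ^ 10 ≤ s) : XF z < 0 := by
  have h := (abs_le.1 (X_err h0 hs)).2
  have hpos : 0 < s := lt_of_lt_of_le (by norm_num) h2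
  have a0 := pow_pos hpos 6
  have a2 := pw' (by norm_num) h2 2 4
  have a3 := pw' (by norm_num) h2 3 3
  have a4 := pw' (by norm_num) h2 4 2
  have a5 := pw' (by norm_num) h2 5 1
  have a7 := pw h0 h1 6 1
  have a8 := pw h0 h1 6 2
  have a9 := pw h0 h1 6 3
  have a10 := pw h0 h1 6 4
  norm_num at *
  linarith

lemma T1_pos (h1 : s ≤ 101 / 100 / 10 ^ 30) (hpos : 0 < s) :
    0 < FF z * NN z - 21 / 8 * (psi z * XF z) := by
  have h := (abs_le.1 (T1_err h0 hs)).1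
  have a0 := pow_pos hpos 2
  have a1 := pow_pos hpos 4
  have a3 := pw h0 h1 2 1
  have a5 := pw h0 h1 4 1
  have a6 := pw h0 h1 4 2
  have a7 := pw h0 h1 4 3
  have a8 := pw h0 h1 4 4
  have a9 := pw h0 h1 4 5
  have a10 := pw h0 h1 4 6
  have a11 := pw h0 h1 4 7
  have a12 := pw h0 h1 4 8
  have a13 := pw h0 h1 4 9
  have a14 := pw h0 h1 4 10
  have a15 := pw h0 h1 4 11
  have a16 := pw h0 h1 4 12
  have a17 := pw h0 h1 4 13
  norm_num at *
  linarith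

lemma T2_neg (h1 : s ≤ 32 / 10 ^ 10) (h2 : 99 / 100 / 10 ^ 30 ≤ s) :
    FF z * NN z - 35 / 8 * (psi z * XF z) < 0 := by
  have h := (abs_le.1 (T2_err h0 hs)).2
  have hpos : 0 < s := lt_of_lt_of_le (by norm_num) h2
  have a0 := pow_pos hpos 4
  have a1 := pow_pos hpos 6
  have a2 := pw' (by norm_num) h2 2 2
  have a3 := pw' (by norm_num) h2 3 1
  have a5 : s ^ 5 ≤ 1 / 10 ^ 15 * s ^ 4 + 10 ^ 15 * s ^ 6 := by
    have : 0 ≤ s ^ 4 * ((s * 10 ^ 15 - 1) ^ 2 + s * 10 ^ 15) / 10 ^ 15 := by positivity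
    nlinarith [this]
  have a7 := pw h0 h1 6 1
  have a8 := pw h0 h1 6 2
  have a9 := pw h0 h1 6 3
  have a10 := pw h0 h1 6 4
  have a11 := pw h0 h1 6 5
  have a12 := pw h0 h1 6 6
  have a13 := pw h0 h1 6 7
  have a14 := pw h0 h1 6 8
  have a15 := pw h0 h1 6 9
  have a16 := pw h0 h1 6 10
  have a17 := pw h0 h1 6 11
  norm_num at *
  linarith

lemma B_lower (h1 : s ≤ 10001 / 10 ^ 10) (h2 : 31 / 10 ^ 10 ≤ s) :
    133 / 192 / 10 ^ 10 * s ^ 6 - 300 * s ^ 8 ≤ FF z * NN z - 7 * (psi z * XF z) := by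
  have h := (abs_le.1 (B_err h0 hs)).1
  have hpos : 0 < s := lt_of_lt_of_le (by norm_num) h2
  have a0 := pow_pos hpos 8
  have a2 := pw' (by norm_num) h2 2 6
  have a3 := pw' (by norm_num) h2 3 5
  have a4 := pw' (by norm_num) h2 4 4
  have a5 := pw' (by norm_num) h2 5 3
  have a6 := pw' (by norm_num) h2 6 2
  have a7 := pw' (by norm_num) h2 7 1
  have a9 := pw h0 h1 8 1
  have a10 := pw h0 h1 8 2
  have a11 := pw h0 h1 8 3
  have a12 := pw h0 h1 8 4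
  have a13 := pw h0 h1 8 5
  have a14 := pw h0 h1 8 6
  have a15 := pw h0 h1 8 7
  have a16 := pw h0 h1 8 8
  have a17 := pw h0 h1 8 9
  norm_num at *
  linarith

lemma N_pos (hlin : 25 * z.2 ≤ 1 + 1 / 10 ^ 10) (h2 : 99 / 10 ^ 8 ≤ s) : 0 < NN z := by
  have h := N_lower h0 hs hlin
  have hpos : 0 < s := lt_of_lt_of_le (by norm_num) h2
  have a0 := pow_pos hpos 6
  have a8 := pow_pos hpos 8
  have b0 := pw' (by norm_num) h2 0 6
  have b1 := pw' (by norm_num) h2 1 5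
  have b2 := pw' (by norm_num) h2 2 4
  have b3 := pw' (by norm_num) h2 3 3
  have b4 := pw' (by norm_num) h2 4 2
  have b5 := pw' (by norm_num) h2 5 1
  have a7 : s ^ 7 ≤ 1 / 2 * s ^ 6 + 1 / 2 * s ^ 8 := by
    have : 0 ≤ s ^ 6 * (s - 1) ^ 2 := by positivity
    nlinarith [this]
  norm_num at *
  linarith

lemma A_lower (hlin : 25 * z.2 ≤ 1 + 1 / 10 ^ 10) (h1 : s ≤ 10001 / 10 ^ 10)
    (h2 : 31 / 10 ^ 10 ≤ s) :
    11490 * s ^ 8 - 133 / 64 / 10 ^ 10 * s ^ 6 ≤ FF z * NN z := by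
  have h := N_lower h0 hs hlin
  have hpos : 0 < s := lt_of_lt_of_le (by norm_num) h2
  have hF := abs_le.1 (F_fine h0 hs (h1.trans (by norm_num)))
  have hF' := abs_le.1 (F_range h0 hs (h1.trans (by norm_num)))
  have hFp : 0 ≤ FF z := by nlinarith [hF'.1, sq_nonneg s]
  have b0 := pw' (by norm_num) h2 0 6
  have b1 := pw' (by norm_num) h2 1 5
  have b2 := pw' (by norm_num) h2 2 4
  have b3 := pw' (by norm_num) h2 3 3
  have b4 := pw' (by norm_num) h2 4 2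
  have b5 := pw' (by norm_num) h2 5 1
  have a7 := pw h0 h1 6 1
  have a8 := pw h0 h1 6 2
  have p8 := pow_pos hpos 8
  have p6 := pow_pos hpos 6
  have k1 : 11530 * s ^ 6 - 133 / 64 / 10 ^ 10 * s ^ 4 ≤ NN z := by
    norm_num at *
    linarith
  have k2 := mul_le_mul_of_nonneg_left k1 hFp
  -- `FF * s ^ 6` from below, `FF * s ^ 4` from above
  have k3 : (1 - 1 / 8000) * s ^ 8 ≤ FF z * s ^ 6 := by
    have := mul_nonneg (sub_nonneg.2 (by linarith [hF'.1] : (1 - 1 / 8000) * s ^ 2 ≤ FF z)) p6.le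
    nlinarith [this]
  have k4 : FF z * s ^ 4 ≤ (1 + 1 / 10 ^ 200) * s ^ 6 + 55 * s ^ 7 := by
    have := mul_nonneg (sub_nonneg.2 (by linarith [hF.2] :
      FF z ≤ (1 + 1 / 10 ^ 200) * s ^ 2 + 55 * s ^ 3)) (pow_nonneg h0 4)
    nlinarith [this]
  have b6 := pw' (by norm_num) h2 6 2
  have b7 := pw' (by norm_num) h2 7 1
  have k5 : FF z * (11530 * s ^ 6 - 133 / 64 / 10 ^ 10 * s ^ 4) =
    11530 * (FF z * s ^ 6) - 133 / 64 / 10 ^ 10 * (FF z * s ^ 4) := by ring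
  rw [k5] at k2
  norm_num at *
  linarith

end bounds

end BS

end

end Pool.Agent.Y301
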