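import Pool.Agent.Y301.LocC

/-! The third Dulac function, the barriers. -/

open Set Topology Filter

set_option linter.unusedSimpArgs false
set_option linter.deprecated false

namespace Pool.Agent.Y301

open Pool.Agent.H709Q
open Pool.Agent.H709R2 (wedge ClosedOrbit)

noncomputable section

namespace BS

set_option exponentiation.threshold 1000

/-- radius of the disc in which `F` is used -/
def ρ : ℝ := 2 / 10 ^ 6

section bounds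

variable {z : ℝ × ℝ} {s : ℝ} (h0 : 0 ≤ s) (hs : s ^ 2 = z.1 ^ 2 + z.2 ^ 2)

include h0 hs

lemma FF_pos (hρ : s ≤ ρ) (hpos : 0 < s) : 0 < FF z := by
  have h := abs_le.1 (F_range h0 hs hρ)
  have := pow_pos hpos 2
  linarith [h.1]

/-- bounds of `s` by `F` -/
lemma s_le_of_FF (hρ : s ≤ ρ) {a b : ℝ} (ha : 0 ≤ a) (hb : b ≤ (1 - 1 / 8000) * a ^ 2)
    (h : FF z ≤ b) : s ≤ a := by
  have h1 := abs_le.1 (F_range h0 hs hρ)
  have h2 : s ^ 2 ≤ a ^ 2 := by nlinarith [h1.1]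
  exact (abs_le_of_sq_le_sq' h2 ha).2

lemma le_s_of_FF (hρ : s ≤ ρ) {a b : ℝ} (hb : (1 + 1 / 8000) * a ^ 2 ≤ b)
    (h : b ≤ FF z) : a ≤ s := by
  have h1 := abs_le.1 (F_range h0 hs hρ)
  have h2 : a ^ 2 ≤ s ^ 2 := by nlinarith [h1.2]
  exact (abs_le_of_sq_le_sq' h2 h0).2

/-- the inequality for the third Dulac function -/
lemma T3_pos (hlin : 25 * z.2 ≤ 1 + 1 / 10 ^ 10) (hρ : s ≤ ρ) (h1 : 1 / 10 ^ 17 ≤ FF z)
    (h2 : FF z ≤ 1 / 10 ^ 12) {ζ : ℝ} (hζ : (1 + ζ) * FF z = 1 / 10 ^ 12) :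
    0 < (ζ ^ 3 + 3) * (FF z * NN z) - 7 / 4 * psi z * (3 * ζ ^ 2 * (1 + ζ) * XF z) := by
  have hs1 : s ≤ 10001 / 10 ^ 10 := s_le_of_FF h0 hs hρ (by norm_num) (by norm_num) h2
  have hs2 : 31 / 10 ^ 10 ≤ s := le_s_of_FF h0 hs hρ (by norm_num) h1
  have hpos : 0 < s := lt_of_lt_of_le (by norm_num) hs2
  have hA := A_lower h0 hs hlin hs1 hs2
  have hB := B_lower h0 hs hs1 hs2
  have hFp : 0 < FF z := lt_of_lt_of_le (by norm_num) h1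
  have hζ0 : 0 ≤ ζ := by
    by_contra hc
    push Not at hc
    have := mul_neg_of_neg_of_pos hc hFp
    linarith
  have hF := abs_le.1 (F_range h0 hs hρ)
  set A := FF z * NN z with hAd
  set W := psi z * XF z with hW
  set B := A - 7 * W with hBd
  have e1 : (ζ ^ 3 + 3) * A - 7 / 4 * psi z * (3 * ζ ^ 2 * (1 + ζ) * XF z) =
      (ζ ^ 3 / 4 - 3 / 4 * ζ ^ 2 + 3) * A + 3 / 4 * (ζ ^ 3 + ζ ^ 2) * B := by
    rw [hBd, hW]
    ring
  rw [e1]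
  have ha : 2 ≤ ζ ^ 3 / 4 - 3 / 4 * ζ ^ 2 + 3 := by
    nlinarith [mul_nonneg hζ0 (sq_nonneg (ζ - 2)), sq_nonneg (ζ - 2)]
  have hh : 3 / 4 * (ζ ^ 3 + ζ ^ 2) ≤ 10 * (ζ ^ 3 / 4 - 3 / 4 * ζ ^ 2 + 3) := by
    nlinarith [mul_nonneg hζ0 (sq_nonneg (ζ - 3)), sq_nonneg (ζ - 3)]
  have hh0 : 0 ≤ 3 / 4 * (ζ ^ 3 + ζ ^ 2) := by positivity
  have k1 := mul_le_mul_of_nonneg_left hA (by linarith : 0 ≤ ζ ^ 3 / 4 - 3 / 4 * ζ ^ 2 + 3)
  have k2 := mul_le_mul_of_nonneg_left hB hh0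
  have p6 := pow_pos hpos 6
  have p8 := pow_pos hpos 8
  have k3 := mul_le_mul_of_nonneg_right hh p8.le
  have k4 := mul_le_mul_of_nonneg_right ha p8.le
  -- main comparison
  have k5 : 1 ≤ 10 ^ 12 * (1 + 1 / 8000) * (1 + ζ) * s ^ 2 := by
    have : (1 + ζ) * FF z ≤ (1 + ζ) * ((1 + 1 / 8000) * s ^ 2) :=
      mul_le_mul_of_nonneg_left (by linarith [hF.2]) (by linarith)
    rw [hζ] at this
    linarith
  have k6 : 0 < 16980 * s ^ 2 + 133 / 64 / 10 ^ 10 * (ζ ^ 2 - 3) := by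
    have h3 : 0 < (1 + ζ) * (16980 * s ^ 2 + 133 / 64 / 10 ^ 10 * (ζ ^ 2 - 3)) := by
      nlinarith [k5, mul_nonneg hζ0 (sq_nonneg (ζ - 1)), sq_nonneg (ζ - 1)]
    exact (mul_pos_iff_of_pos_left (by linarith)).1 h3
  have k7 := mul_pos p6 k6
  nlinarith [k1, k2, k3, k4, k7]

end bounds

end BS

end

end Pool.Agent.Y301
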