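import Pool.Agent.Y301.CutB

/-! Shi's system has at most four closed orbits. -/

open Set Topology Filter

namespace Pool.Agent.Y301

open Pool.Agent.H709Q
open Pool.Agent.H709R2 (wedge ClosedOrbit)

/-- every closed orbit surrounds one of the two foci, in the expected direction -/
theorem closed_mem {C : Set (ℝ × ℝ)} (hC : ClosedOrbit XB.f C) :
    C ∈ Orb XB 0 ∪ Orb (XB.rot Real.pi) (0, 1) := by
  obtain ⟨p, hp, h⟩ := around_zero XB C hC
  rcases XB_zero hp with rfl | rfl
  · rcases h with h | h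
    · exact Or.inl h
    · exact absurd h (no_rev_B C)
  · rcases h with h | h
    · exact absurd h (no_dir_A C)
    · exact Or.inr h

theorem main : {C : Set (ℝ × ℝ) | ClosedOrbit XB.f C}.encard ≤ 4 := by
  have h1 : {C : Set (ℝ × ℝ) | ClosedOrbit XB.f C} ⊆ Orb XB 0 ∪ Orb (XB.rot Real.pi) (0, 1) :=
    fun C hC => closed_mem hC
  have h2 : (Orb (XB.rot Real.pi) (0, 1)).encard ≤ 1 :=
    orb_A_le.trans (encard_le_one_iff_subsingleton.2 AS.subsingleton)
  calc _ ≤ _ := encard_le_encard h1
    _ ≤ _ := encard_union_le _ _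
    _ ≤ 3 + 1 := add_le_add BS.encard_le h2
    _ = 4 := by norm_num

end Pool.Agent.Y301
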