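import Pool.Agent.Y301.LocD

/-! Orbits around the weak focus: half plane and positivity of `Ψ`. -/

open Set Topology Filter

set_option linter.unusedSimpArgs false
set_option linter.deprecated false

namespace Pool.Agent.Y301

open Pool.Agent.H709Q
open Pool.Agent.H709R2 (wedge ClosedOrbit)

noncomputable section

namespace BS

lemma f0 : XB.f 0 = 0 := zero_mem XB rfl rfl

lemma ee_neg : ee < -24 := by unfold ee; norm_num

/-- the half plane of the orbits -/
def HP (z : ℝ × ℝ) : Prop := 0 < 1 + ee * z.2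

lemma HP.lin {z : ℝ × ℝ} (h : HP z) : 25 * z.2 ≤ 1 + 1 / 10 ^ 10 := by
  unfold HP at h
  rcases le_or_gt z.2 0 with h1 | h1
  · linarith
  · have h2 : z.2 < 1 := by
      by_contra hc
      push Not at hc
      have := ee_neg
      nlinarith
    have h3 : (25 + ee) * z.2 ≤ 1 / 10 ^ 10 := by
      have h4 : 25 + ee ≤ 1 / 10 ^ 10 := by unfold ee; norm_num
      have h5 : 0 ≤ 25 + ee := by unfold ee; norm_num
      nlinarith
    linarith

lemma orbit_half {γ : ℝ → ℝ × ℝ} {T : ℝ} (hc : Cyc XB γ T) (ha : Around XB 0 γ) (t : ℝ) :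
    HP (γ t) := by
  have hγc : Continuous γ := continuous_iff_continuousAt.2 fun t => (hc.ode t).continuousAt
  have hd1 : ∀ t, HasDerivAt (fun t => (γ t).1) (XB.f (γ t)).1 t := fun t =>
    (hasFDerivAt_fst (𝕜 := ℝ) (p := γ t)).comp_hasDerivAt t (hc.ode t)
  have hd2 : ∀ t, HasDerivAt (fun t => (γ t).2) (XB.f (γ t)).2 t := fun t =>
    (hasFDerivAt_snd (𝕜 := ℝ) (p := γ t)).comp_hasDerivAt t (hc.ode t)
  set g : ℝ → ℝ := fun t => -(1 + ee * (γ t).2) with hg
  have hgd : ∀ t, HasDerivAt g (ee * (γ t).1 * g t + -ee * (γ t).1 ^ 2) t := by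
    intro t
    have := (((hd2 t).const_mul ee).const_add 1).neg
    refine this.congr_deriv ?_
    rw [XB_f]
    simp only [hg]
    ring
  have hne : ∀ t, g t ≠ 0 := by
    intro t0 h0
    have hall := linear_sign (g := g) (α := fun t => ee * (γ t).1)
      (β := fun t => -ee * (γ t).1 ^ 2) hc.pos (by fun_prop) hgd
      (fun t => by
        have := sq_nonneg (γ t).1
        have := ee_neg
        nlinarith) (fun t => by simp only [hg, hc.per]) h0
    have hx : ∀ t, (γ t).1 = 0 := by
      intro t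
      have h1 := (hall t).2
      have h2 : (γ t).1 ^ 2 = 0 := by
        rcases mul_eq_zero.1 h1 with h3 | h3
        · have := ee_neg; linarith
        · exact h3
      exact pow_eq_zero_iff (two_ne_zero) |>.1 h2
    have h2 := hd1 0
    have h3 : HasDerivAt (fun t => (γ t).1) 0 0 := by
      have : (fun t => (γ t).1) = fun _ => 0 := funext hx
      rw [this]
      exact hasDerivAt_const 0 0
    have h4 := h2.unique h3
    rw [XB_f] at h4
    simp only [hx] at h4
    have h5 := (hall 0).1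
    simp only [hg] at h5
    have h6 := ee_neg
    have h7 : (γ 0).2 * ((γ 0).2 - 1) = 0 := by linear_combination h4
    rcases mul_eq_zero.1 h7 with h8 | h8
    · rw [h8] at h5; linarith
    · rw [show (γ 0).2 = 1 by linarith] at h5; linarith
  obtain ⟨t1, r, hr, ht1⟩ := rays XB γ T 0 hc ha (0, -1) (by simp)
  have h1 : 0 < -g t1 := by
    simp only [hg, ht1]
    have := ee_neg
    simp
    nlinarith
  have hgc : Continuous g := by simp only [hg]; fun_prop
  have := sign_const (g := fun t => -g t) hgc.neg (fun t => neg_ne_zero.2 (hne t)) h1 t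
  have h2 : 0 < -g t := this
  simp only [hg, neg_neg] at h2
  exact h2

lemma HP_mono {z : ℝ × ℝ} {a : ℝ} (ha0 : 0 ≤ a) (ha1 : a ≤ 1) (h : HP z) :
    0 < 1 + ee * (a * z.2) := by
  unfold HP at h
  have : 1 + ee * (a * z.2) = (1 - a) + a * (1 + ee * z.2) := by ring
  rw [this]
  rcases eq_or_lt_of_le ha0 with h2 | h2
  · rw [← h2]; linarith
  · nlinarith [mul_pos h2 h]

lemma PG.half {C : Set (ℝ × ℝ)} (hC : C ∈ Orb XB 0) {R R' : ℝ → ℝ} (h : PG XB C R R')
    {φ r : ℝ} (hr : r ∈ Icc 0 (R φ)) : HP (r * Real.cos φ, r * Real.sin φ) := by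
  have h1 := h.mem φ
  obtain ⟨γ, T, hc, ha, rfl⟩ := hC
  obtain ⟨t, ht⟩ := h1
  have h2 := orbit_half hc ha t
  rw [ht] at h2
  have h3 := h.pos φ
  have h4 := HP_mono (a := r / R φ) (div_nonneg hr.1 h3.le) ((div_le_one h3).2 hr.2) h2
  unfold HP
  simp only at h4 ⊢
  have e : r / R φ * (R φ * Real.sin φ) = r * Real.sin φ := by field_simp
  rwa [e] at h4

/-- the norm -/
def nrm (z : ℝ × ℝ) : ℝ := Real.sqrt (z.1 ^ 2 + z.2 ^ 2)

lemma nrm_nonneg (z : ℝ × ℝ) : 0 ≤ nrm z := Real.sqrt_nonneg _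

lemma nrm_sq (z : ℝ × ℝ) : nrm z ^ 2 = z.1 ^ 2 + z.2 ^ 2 := Real.sq_sqrt (by positivity)

lemma nrm_cont : Continuous nrm := by unfold nrm; fun_prop

lemma nrm_polar {r : ℝ} (hr : 0 ≤ r) (φ : ℝ) : nrm (r * Real.cos φ, r * Real.sin φ) = r := by
  unfold nrm
  have : (r * Real.cos φ) ^ 2 + (r * Real.sin φ) ^ 2 = r ^ 2 := by
    linear_combination r ^ 2 * Real.cos_sq_add_sin_sq φ
  simp only [this]
  exact Real.sqrt_sq hr

/-- `XΨ < 0` where `Ψ = 0` -/
lemma psi_cross {z : ℝ × ℝ} (h : HP z) (h0 : psi z = 0) :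
    psi1 z * (XB.f z).1 + psi2 z * (XB.f z).2 < 0 := by
  have h1 : 99 / 10 ^ 8 ≤ nrm z := by
    by_contra hc
    push Not at hc
    have := psi_ge (nrm_nonneg z) (nrm_sq z) (hc.le.trans (by norm_num))
    linarith
  have h2 := N_pos (nrm_nonneg z) (nrm_sq z) h.lin h1
  unfold NN at h2
  rw [h0] at h2
  linarith

lemma psi_axis {t : ℝ} (ht : 0 ≤ t) : 0 < psi (0, -t) := by
  unfold psi
  have : ev DB.PsiZ 0 (-t) =
      4000000000000000000000000000000000000000000000000000000000000 +
      314999999999993700000000000000000000000000000000000005600000000 * t +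
      8737039999999863500000000001050000000000000000000000122500000000 * t ^ 2 +
      95567997500004562446416666477959791666667875479166662662926333200 * t ^ 3 +
      301733172070358360514078124208000000000000000000000000000000000000 * t ^ 4 +
      358578212723506768000000000000000000000000000000000000000000000000 * t ^ 5 +
      120568000000000000000000000000000000000000000000000000000000000000 * t ^ 6 +
      26272000000000000000000000000000000000000000000000000000000000000 * t ^ 7 := by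
    simp only [DB.PsiZ, ev_cons, ev_nil, ev1_cons, ev1_nil]
    push_cast
    ring
  simp only [this]
  positivity

lemma psi_ne {γ : ℝ → ℝ × ℝ} {T : ℝ} (hc : Cyc XB γ T) (ha : Around XB 0 γ) (t : ℝ) :
    psi (γ t) ≠ 0 := by
  have hγc : Continuous γ := continuous_iff_continuousAt.2 fun t => (hc.ode t).continuousAt
  have := no_cross (g := fun t => -psi (γ t)) hc.pos (fun t => by simp only [hc.per])
    (psi_cont.comp hγc).neg ?_ t
  · intro h
    exact this (by simp only [h, neg_zero])
  · intro s hs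
    have h1 := ((psi_deriv (γ s)).comp_hasDerivAt s (hc.ode s)).neg
    refine ⟨_, ?_, h1⟩
    have h2 := psi_cross (orbit_half hc ha s) (by linarith)
    simp
    linarith

lemma psi_pos {C : Set (ℝ × ℝ)} (hC : C ∈ Orb XB 0) : ∀ z ∈ C, 0 < psi z := by
  obtain ⟨γ, T, hc, ha, rfl⟩ := hC
  rintro z ⟨t, rfl⟩
  have hγc : Continuous γ := continuous_iff_continuousAt.2 fun t => (hc.ode t).continuousAt
  obtain ⟨t1, r, hr, ht1⟩ := rays XB γ T 0 hc ha (0, -1) (by simp)
  refine sign_const (g := fun t => psi (γ t)) (psi_cont.comp hγc) (psi_ne hc ha)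
    (t1 := t1) ?_ t
  have := psi_axis hr.le
  simp only [ht1]
  simpa using this

/-- positivity in the annulus -/
lemma psi_ann {C D : Set (ℝ × ℝ)} (hC : C ∈ Orb XB 0) (hD : D ∈ Orb XB 0) {R R' S S' : ℝ → ℝ}
    (h : PG XB C R R') (k : PG XB D S S') (hlt : ∀ φ, R φ < S φ) {φ r : ℝ}
    (hr : r ∈ Icc (R φ) (S φ)) : 0 < psi (r * Real.cos φ, r * Real.sin φ) := by
  by_contra hcon
  push Not at hcon
  have hprop := h.exists_nonpos₂ k hlt (f := psi) (f1 := psi1) (f2 := psi2) psi_deriv
    (psi_pos hC) (psi_pos hD) (ε := 1) (Or.inl rfl)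
    (by
      rintro φ r hr z rfl hz
      have h2 := PG.half hD k (φ := φ) (r := r) ⟨(h.pos φ).le.trans hr.1.le, hr.2.le⟩
      rw [one_mul]
      exact psi_cross h2 hz) hr hcon
  obtain ⟨a, ha1, ha2⟩ := hprop (-(Real.pi / 2))
  rw [Real.cos_neg, Real.sin_neg, Real.cos_pi_div_two, Real.sin_pi_div_two, mul_zero, mul_neg,
    mul_one] at ha2
  have := psi_axis ((h.pos _).le.trans ha1.1)
  linarith

end BS

end

end Pool.Agent.Y301
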