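import Pool.Agent.H709Q.T1
import Pool.Agent.H709Q.T2a
import Pool.Agent.H709Q.T2s
import Pool.Agent.H709Q.T2b
import Pool.Agent.H709Q.T2c
import Pool.Agent.H709Q.T3
import Pool.Agent.H709Q.T4
import Pool.Agent.H709Q.T4b
import Pool.Agent.H709Q.T6a
import Pool.Agent.H709Q.T6c
import Pool.Agent.H709Q.T12a
import Pool.Agent.Y301.Flux

/-! Closed orbits of quadratic systems around the origin as polar graphs. -/

open Set Topology Filter

namespace Pool.Agent.Y301

open Pool.Agent.H709Q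
open Pool.Agent.H709R2 (wedge ClosedOrbit)

theorem convexity0 : Convexity := convexity curvSign (supporting halfCross crossSigns)

theorem ccw0 : CcwOfAround := ccwOfAround convexity0 rays

theorem linPos0 : LinPos := linPos rays

/-- A closed orbit is counterclockwise around a zero of the field or its reverse is. -/
theorem around_zero (X : QF) (C : Set (ℝ × ℝ)) (hC : ClosedOrbit (QF.f X) C) :
    ∃ p, X.f p = 0 ∧ (C ∈ Orb X p ∨ C ∈ Orb (X.rot Real.pi) p) := by
  obtain ⟨γ, T, hc, rfl⟩ := minimalPeriod X C hC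
  rcases convexity0 X γ T hc with h | h
  · obtain ⟨p, hp, ha⟩ := zeroInside X γ T hc h
    exact ⟨p, hp, Or.inl ⟨γ, T, hc, ha, rfl⟩⟩
  · obtain ⟨p, hp, ha⟩ := zeroInside _ _ T (cyc_rev hc) h
    rw [X.f_rot_pi] at hp
    refine ⟨p, neg_eq_zero.1 hp, Or.inr ⟨_, T, cyc_rev hc, ha, ?_⟩⟩
    ext z
    constructor
    · rintro ⟨t, rfl⟩
      exact ⟨-t, by simp⟩
    · rintro ⟨t, rfl⟩
      exact ⟨-t, rfl⟩

/-- uniqueness for autonomous equations -/
lemma ode_unique {E : Type*} [NormedAddCommGroup E] [NormedSpace ℝ E] [ProperSpace E]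
    {F : E → E} (hF : ContDiff ℝ 1 F) {f g : ℝ → E} (hf : ∀ t, HasDerivAt f (F (f t)) t)
    (hg : ∀ t, HasDerivAt g (F (g t)) t) {t0 : ℝ} (h : f t0 = g t0) : f = g := by
  funext t
  obtain ⟨A, B, Ht, Ht₀⟩ : ∃ A B, t ∈ Set.Ioo A B ∧ t0 ∈ Set.Ioo A B := by
    use (min (-|t|) (-|t0|) - 1), (max |t| |t0| + 1)
    grind
  have hfc : Continuous f := continuous_iff_continuousAt.2 fun t => (hf t).continuousAt
  have hgc : Continuous g := continuous_iff_continuousAt.2 fun t => (hg t).continuousAt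
  obtain ⟨R1, hR1⟩ := (isCompact_Icc (a := A) (b := B)).exists_bound_of_continuousOn
    hfc.continuousOn
  obtain ⟨R2, hR2⟩ := (isCompact_Icc (a := A) (b := B)).exists_bound_of_continuousOn
    hgc.continuousOn
  obtain ⟨K, hK⟩ := LocallyLipschitzOn.exists_lipschitzOnWith_of_compact
    (isCompact_closedBall (0 : E) (max R1 R2)) (hF.locallyLipschitz.locallyLipschitzOn)
  refine ODE_solution_unique_of_mem_Ioo (v := fun _ => F) (s := fun _ => Metric.closedBall 0 (max R1 R2))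
    (fun _ _ => hK) Ht₀ (fun t ht => ⟨hf t, ?_⟩) (fun t ht => ⟨hg t, ?_⟩) h Ht
  · rw [mem_closedBall_zero_iff]
    exact (hR1 t ⟨ht.1.le, ht.2.le⟩).trans (le_max_left _ _)
  · rw [mem_closedBall_zero_iff]
    exact (hR2 t ⟨ht.1.le, ht.2.le⟩).trans (le_max_right _ _)

/-- closed orbits which meet are equal -/
lemma range_eq_of_meet {X : QF} {γ δ : ℝ → ℝ × ℝ} {T S : ℝ} (hγ : Cyc X γ T) (hδ : Cyc X δ S)
    {s t : ℝ} (h : γ s = δ t) : range γ = range δ := by
  have h1 : ∀ u, HasDerivAt (fun u => γ (u + s)) (X.f (γ (u + s))) u := fun u =>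
    (hγ.ode (u + s)).comp_add_const u s
  have h2 : ∀ u, HasDerivAt (fun u => δ (u + t)) (X.f (δ (u + t))) u := fun u =>
    (hδ.ode (u + t)).comp_add_const u t
  have h3 := ode_unique (X.contDiff_f (m := 1)) h1 h2 (t0 := 0) (by simpa using h)
  ext z
  constructor
  · rintro ⟨u, rfl⟩
    refine ⟨u - s + t, ?_⟩
    have := congrFun h3 (u - s)
    simp only [sub_add_cancel] at this
    exact this.symm
  · rintro ⟨u, rfl⟩
    refine ⟨u - t + s, ?_⟩
    have := congrFun h3 (u - t)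
    simp only [sub_add_cancel] at this
    exact this

/-- a closed orbit as a polar graph -/
structure PG (X : QF) (C : Set (ℝ × ℝ)) (R R' : ℝ → ℝ) : Prop where
  pos : ∀ φ, 0 < R φ
  deriv : ∀ φ, HasDerivAt R (R' φ) φ
  cont : Continuous R'
  per : ∀ φ, R (φ + 2 * Real.pi) = R φ
  rng : C = {z | ∃ φ, z = (R φ * Real.cos φ, R φ * Real.sin φ)}
  tang : ∀ φ, R' φ * (-Real.sin φ * (X.f (R φ * Real.cos φ, R φ * Real.sin φ)).1 +
      Real.cos φ * (X.f (R φ * Real.cos φ, R φ * Real.sin φ)).2) =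
    R φ * (Real.cos φ * (X.f (R φ * Real.cos φ, R φ * Real.sin φ)).1 +
      Real.sin φ * (X.f (R φ * Real.cos φ, R φ * Real.sin φ)).2)
  ang : ∀ φ, ∀ r ∈ Ioc 0 (R φ), 0 < -Real.sin φ * (X.f (r * Real.cos φ, r * Real.sin φ)).1 +
      Real.cos φ * (X.f (r * Real.cos φ, r * Real.sin φ)).2

lemma PG.mem {X : QF} {C : Set (ℝ × ℝ)} {R R' : ℝ → ℝ} (h : PG X C R R') (φ : ℝ) :
    (R φ * Real.cos φ, R φ * Real.sin φ) ∈ C := by
  rw [h.rng]; exact ⟨φ, rfl⟩

lemma PG.contR {X : QF} {C : Set (ℝ × ℝ)} {R R' : ℝ → ℝ} (h : PG X C R R') : Continuous R :=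
  continuous_iff_continuousAt.2 fun φ => (h.deriv φ).continuousAt

/-- on each ray there is only one point -/
lemma ray_unique {X : QF} {γ : ℝ → ℝ × ℝ} {T : ℝ} (hc : Cyc X γ T) (ha : Around X 0 γ)
    {u : ℝ × ℝ} {r1 r2 t1 t2 : ℝ} (h1 : 0 < r1) (h2 : 0 < r2) (e1 : γ t1 = r1 • u)
    (e2 : γ t2 = r2 • u) : r1 = r2 := by
  have hccw := ccw0 X γ T 0 hc ha
  have key : ∀ {r1 r2 t1 t2 : ℝ}, 0 < r1 → γ t1 = r1 • u → γ t2 = r2 • u → r2 ≤ r1 := by
    intro r1 r2 t1 t2 h1 e1 e2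
    have k1 := hccw.nonneg t1 t2
    have k2 := ha t1
    rw [sub_zero] at k2
    by_contra hlt
    push Not at hlt
    have k3 : wedge (X.f (γ t1)) (γ t2 - γ t1) * r1 = -((r2 - r1) * wedge (γ t1) (X.f (γ t1))) := by
      generalize X.f (γ t1) = v
      rw [e2, e1]
      unfold wedge
      simp only [Prod.fst_sub, Prod.snd_sub, Prod.smul_fst, Prod.smul_snd, smul_eq_mul]
      ring
    have k4 := mul_pos (sub_pos.2 hlt) k2
    have k5 := mul_nonneg k1 h1.le
    linarith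
  exact le_antisymm (key h2 e2 e1) (key h1 e1 e2)

/-- every closed orbit around the origin is a polar graph -/
theorem exists_PG {X : QF} (hX : X.f 0 = 0) {C : Set (ℝ × ℝ)} (hC : C ∈ Orb X 0) :
    ∃ R R', PG X C R R' := by
  obtain ⟨γ, T, hc, ha, rfl⟩ := hC
  obtain ⟨ρ, hρ0, hρm, hρp, hρd⟩ := polar X γ T hX hc ha
  have hlin := linPos0 X γ T 0 hc hX ha
  have hρc : Continuous ρ := continuous_iff_continuousAt.2 fun φ => (hρd φ).continuousAt
  have hev : ∀ φ, ev φ = (Real.cos φ, Real.sin φ) := fun φ => rfl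
  have hevc : Continuous (ev : ℝ → ℝ × ℝ) := by
    unfold H709Q.ev
    fun_prop
  -- the derivative
  set ρ' : ℝ → ℝ := fun φ => -(ρ φ * ((Real.cos φ * (X.D 0 (ev φ)).1 +
    Real.sin φ * (X.D 0 (ev φ)).2) * ρ φ +
        (Real.cos φ * (X.qd (ev φ)).1 + Real.sin φ * (X.qd (ev φ)).2))) /
        (wedge (ev φ) (X.D 0 (ev φ)) * ρ φ + wedge (ev φ) (X.qd (ev φ))) with hρ'
  have hρ'c : Continuous ρ' := by
    refine Continuous.div ?_ ?_ fun φ => (hρp φ).ne'
    · simp only [hev, QF.D, QF.qd]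
      fun_prop
    · simp only [hev, QF.D, QF.qd, wedge]
      fun_prop
  set R : ℝ → ℝ := fun φ => (ρ φ)⁻¹ with hR
  set R' : ℝ → ℝ := fun φ => -ρ' φ / ρ φ ^ 2 with hR'
  have hRpos : ∀ φ, 0 < R φ := fun φ => inv_pos.2 (hρ0 φ)
  have hRm : ∀ φ, ∃ t, γ t = R φ • ev φ := fun φ => by
    obtain ⟨t, ht⟩ := hρm φ
    exact ⟨t, ht⟩
  have hpt : ∀ φ, (R φ * Real.cos φ, R φ * Real.sin φ) = R φ • ev φ := fun φ => by
    rw [hev]; rfl
  -- the field on the ray
  have hf : ∀ (r φ : ℝ), X.f (r * Real.cos φ, r * Real.sin φ) =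
      r • X.D 0 (ev φ) + r ^ 2 • X.qd (ev φ) := by
    intro r φ
    have h1 := X.f_add 0 (r • ev φ)
    rw [zero_add, hX, zero_add] at h1
    have h2 : (r * Real.cos φ, r * Real.sin φ) = r • ev φ := by rw [hev]; rfl
    rw [h2, h1]
    unfold QF.D QF.qd
    ext <;> simp <;> ring
  refine ⟨R, R', hRpos, fun φ => ?_, ?_, fun φ => ?_, ?_, fun φ => ?_, fun φ r hr => ?_⟩
  · have := (hρd φ).inv (hρ0 φ).ne'
    exact this
  · exact (hρ'c.neg).div (hρc.pow 2) fun φ => (pow_pos (hρ0 φ) 2).ne'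
  · obtain ⟨t1, h1⟩ := hRm φ
    obtain ⟨t2, h2⟩ := hRm (φ + 2 * Real.pi)
    have h3 : ev (φ + 2 * Real.pi) = ev φ := by
      simp only [hev, Real.cos_add_two_pi, Real.sin_add_two_pi]
    rw [h3] at h2
    exact ray_unique hc ha (hRpos _) (hRpos _) h2 h1
  · ext z
    constructor
    · rintro ⟨t, rfl⟩
      obtain ⟨θ, -, hθ⟩ := exists_polar_angle hc ha
      have hs : 0 < √(H709R2.sq (γ t)) := by
        apply Real.sqrt_pos.2
        apply H709R2.sq_pos
        intro h0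
        have := ha t
        rw [h0] at this
        simp [wedge] at this
      obtain ⟨t1, h1⟩ := hRm (θ t)
      have h2 := ray_unique hc ha hs (hRpos _) (hθ t) h1
      refine ⟨θ t, ?_⟩
      rw [hpt, ← h2]
      exact hθ t
    · rintro ⟨φ, rfl⟩
      obtain ⟨t, ht⟩ := hRm φ
      exact ⟨t, by rw [ht, hpt]⟩
  · rw [hf]
    have h1 := (hρp φ).ne'
    have h2 := (hρ0 φ).ne'
    have e1 : -Real.sin φ * (R φ • X.D 0 (ev φ) + R φ ^ 2 • X.qd (ev φ)).1 +
        Real.cos φ * (R φ • X.D 0 (ev φ) + R φ ^ 2 • X.qd (ev φ)).2 =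
        (wedge (ev φ) (X.D 0 (ev φ)) * ρ φ + wedge (ev φ) (X.qd (ev φ))) / ρ φ ^ 2 := by
      simp only [hR, Prod.fst_add, Prod.snd_add, Prod.smul_fst, Prod.smul_snd, smul_eq_mul, wedge,
        hev]
      field_simp
      ring
    have e2 : Real.cos φ * (R φ • X.D 0 (ev φ) + R φ ^ 2 • X.qd (ev φ)).1 +
        Real.sin φ * (R φ • X.D 0 (ev φ) + R φ ^ 2 • X.qd (ev φ)).2 =
        ((Real.cos φ * (X.D 0 (ev φ)).1 + Real.sin φ * (X.D 0 (ev φ)).2) * ρ φ +
        (Real.cos φ * (X.qd (ev φ)).1 + Real.sin φ * (X.qd (ev φ)).2)) / ρ φ ^ 2 := by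
      simp only [hR, Prod.fst_add, Prod.snd_add, Prod.smul_fst, Prod.smul_snd, smul_eq_mul]
      field_simp
      ring
    rw [e1, e2]
    simp only [hR', hρ', hR]
    have h3 : ρ φ * wedge (ev φ) (X.D 0 (ev φ)) + wedge (ev φ) (X.qd (ev φ)) ≠ 0 := by
      rwa [mul_comm (ρ φ)]
    field_simp
  · have hc0 : 0 < wedge (ev φ) (X.D 0 (ev φ)) := by
      apply hlin
      intro h0
      have h1 := congrArg Prod.fst h0
      have h2 := congrArg Prod.snd h0
      simp only [hev, Prod.fst_zero, Prod.snd_zero] at h1 h2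
      have := Real.sin_sq_add_cos_sq φ
      rw [h1, h2] at this
      norm_num at this
    have h1 := hρp φ
    have e1 : -Real.sin φ * (X.f (r * Real.cos φ, r * Real.sin φ)).1 +
        Real.cos φ * (X.f (r * Real.cos φ, r * Real.sin φ)).2 =
        r * (wedge (ev φ) (X.D 0 (ev φ)) + r * wedge (ev φ) (X.qd (ev φ))) := by
      rw [hf]
      simp only [Prod.fst_add, Prod.snd_add, Prod.smul_fst, Prod.smul_snd, smul_eq_mul, wedge,
        hev]
      ring
    rw [e1]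
    refine mul_pos hr.1 ?_
    have h2 : r * ρ φ ≤ 1 := by
      have := mul_le_mul_of_nonneg_right hr.2 (hρ0 φ).le
      rwa [hR, inv_mul_cancel₀ (hρ0 φ).ne'] at this
    rcases le_or_gt 0 (wedge (ev φ) (X.qd (ev φ))) with h3 | h3
    · have := mul_nonneg hr.1.le h3
      linarith
    · nlinarith [mul_pos hr.1 h1]

/-- two different closed orbits around the origin are nested -/
theorem PG.nested {X : QF} {C D : Set (ℝ × ℝ)} {R R' S S' : ℝ → ℝ} (hC : C ∈ Orb X 0)
    (hD : D ∈ Orb X 0) (h : PG X C R R') (k : PG X D S S') (hne : C ≠ D) :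
    (∀ φ, R φ < S φ) ∨ (∀ φ, S φ < R φ) := by
  have hne' : ∀ φ, R φ ≠ S φ := by
    intro φ he
    have h1 := h.mem φ
    have h2 := k.mem φ
    obtain ⟨γ, T, hc, ha, rfl⟩ := hC
    obtain ⟨δ, T', hc', ha', rfl⟩ := hD
    obtain ⟨s, hs⟩ := h1
    obtain ⟨t, ht⟩ := h2
    exact hne (range_eq_of_meet hc hc' (s := s) (t := t) (by rw [hs, ht, he]))
  rcases lt_or_gt_of_ne (hne' 0) with h0 | h0
  · left
    intro φ
    by_contra hcon
    push Not at hcon
    have hcont : Continuous fun φ => S φ - R φ := k.contR.sub h.contR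
    obtain ⟨ψ, -, hψ⟩ := intermediate_value_uIcc (f := fun φ => S φ - R φ) (a := φ) (b := 0)
      hcont.continuousOn (show (0:ℝ) ∈ _ from by
        rw [mem_uIcc]; left; exact ⟨by simpa using hcon, by simpa using h0.le⟩)
    exact hne' ψ (by linarith)
  · right
    intro φ
    by_contra hcon
    push Not at hcon
    have hcont : Continuous fun φ => R φ - S φ := h.contR.sub k.contR
    obtain ⟨ψ, -, hψ⟩ := intermediate_value_uIcc (f := fun φ => R φ - S φ) (a := φ) (b := 0)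
      hcont.continuousOn (show (0:ℝ) ∈ _ from by
        rw [mem_uIcc]; left; exact ⟨by simpa using hcon, by simpa using h0.le⟩)
    exact hne' ψ (by linarith)

end Pool.Agent.Y301
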