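import Mathlib

/-! Bivariate polynomials with integer coefficients as lists of lists, for kernel computations. -/

namespace Pool.Agent.Y301

/-- univariate evaluation -/
noncomputable def ev1 : List ℤ → ℝ → ℝ
  | [], _ => 0
  | c :: l, y => c + y * ev1 l y

/-- bivariate evaluation: row `i` is the coefficient of `x ^ i` -/
noncomputable def ev : List (List ℤ) → ℝ → ℝ → ℝ
  | [], _, _ => 0
  | r :: p, x, y => ev1 r y + x * ev p x y

def add1 : List ℤ → List ℤ → List ℤ
  | [], m => m
  | l, [] => l
  | a :: l, b :: m => (a + b) :: add1 l m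

def smul1 (c : ℤ) (l : List ℤ) : List ℤ := l.map (c * ·)

def mul1 : List ℤ → List ℤ → List ℤ
  | [], _ => []
  | a :: l, m => add1 (smul1 a m) (0 :: mul1 l m)

def addP : List (List ℤ) → List (List ℤ) → List (List ℤ)
  | [], q => q
  | p, [] => p
  | a :: p, b :: q => add1 a b :: addP p q

def smulP (c : ℤ) (p : List (List ℤ)) : List (List ℤ) := p.map (smul1 c)

def rowMul (r : List ℤ) (p : List (List ℤ)) : List (List ℤ) := p.map (mul1 r)

def mulP : List (List ℤ) → List (List ℤ) → List (List ℤ)
  | [], _ => []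
  | r :: p, q => addP (rowMul r q) ([] :: mulP p q)

def der1 : List ℤ → List ℤ
  | [] => []
  | _ :: l => add1 l (0 :: der1 l)

/-- derivative in `x` -/
def dX : List (List ℤ) → List (List ℤ)
  | [] => []
  | _ :: p => addP p ([] :: dX p)

/-- derivative in `y` -/
def dY (p : List (List ℤ)) : List (List ℤ) := p.map der1

def abs1 (l : List ℤ) : List ℤ := l.map (fun c => |c|)

def absP (p : List (List ℤ)) : List (List ℤ) := p.map abs1

/-- substitution `x = y = r` -/
def diag : List (List ℤ) → List ℤ
  | [] => []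
  | r :: p => add1 r (0 :: diag p)

@[simp] lemma ev1_nil (y : ℝ) : ev1 [] y = 0 := rfl
@[simp] lemma ev1_cons (c : ℤ) (l : List ℤ) (y : ℝ) : ev1 (c :: l) y = c + y * ev1 l y := rfl
@[simp] lemma ev_nil (x y : ℝ) : ev [] x y = 0 := rfl
@[simp] lemma ev_cons (r : List ℤ) (p : List (List ℤ)) (x y : ℝ) :
    ev (r :: p) x y = ev1 r y + x * ev p x y := rfl

lemma ev1_add1 (l m : List ℤ) (y : ℝ) : ev1 (add1 l m) y = ev1 l y + ev1 m y := by
  induction l generalizing m with
  | nil => simp [add1]
  | cons a l ih =>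
    cases m with
    | nil => simp [add1]
    | cons b m =>
      simp only [add1, ev1_cons, ih]
      push_cast
      ring

lemma ev1_smul1 (c : ℤ) (l : List ℤ) (y : ℝ) : ev1 (smul1 c l) y = c * ev1 l y := by
  induction l with
  | nil => simp [smul1]
  | cons a l ih =>
    have : smul1 c (a :: l) = (c * a) :: smul1 c l := rfl
    rw [this, ev1_cons, ev1_cons, ih]
    push_cast
    ring

lemma ev1_mul1 (l m : List ℤ) (y : ℝ) : ev1 (mul1 l m) y = ev1 l y * ev1 m y := by
  induction l with
  | nil => simp [mul1]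
  | cons a l ih =>
    simp only [mul1, ev1_add1, ev1_smul1, ev1_cons, ih]
    push_cast
    ring

lemma ev_addP (p q : List (List ℤ)) (x y : ℝ) : ev (addP p q) x y = ev p x y + ev q x y := by
  induction p generalizing q with
  | nil => simp [addP]
  | cons a p ih =>
    cases q with
    | nil => simp [addP]
    | cons b q =>
      simp only [addP, ev_cons, ih, ev1_add1]
      ring

lemma ev_smulP (c : ℤ) (p : List (List ℤ)) (x y : ℝ) : ev (smulP c p) x y = c * ev p x y := by
  induction p with
  | nil => simp [smulP]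
  | cons a p ih =>
    have : smulP c (a :: p) = smul1 c a :: smulP c p := rfl
    rw [this, ev_cons, ev_cons, ih, ev1_smul1]
    ring

lemma ev_rowMul (r : List ℤ) (p : List (List ℤ)) (x y : ℝ) :
    ev (rowMul r p) x y = ev1 r y * ev p x y := by
  induction p with
  | nil => simp [rowMul]
  | cons a p ih =>
    have : rowMul r (a :: p) = mul1 r a :: rowMul r p := rfl
    rw [this, ev_cons, ev_cons, ih, ev1_mul1]
    ring

lemma ev_mulP (p q : List (List ℤ)) (x y : ℝ) : ev (mulP p q) x y = ev p x y * ev q x y := by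
  induction p with
  | nil => simp [mulP]
  | cons a p ih =>
    simp only [mulP, ev_addP, ev_rowMul, ev_cons, ih, ev1_nil]
    ring

lemma hasDerivAt_ev1 (l : List ℤ) {v : ℝ → ℝ} {v' t : ℝ} (hv : HasDerivAt v v' t) :
    HasDerivAt (fun t => ev1 l (v t)) (ev1 (der1 l) (v t) * v') t := by
  induction l with
  | nil => simpa [der1] using hasDerivAt_const t (0:ℝ)
  | cons a l ih =>
    have h := (hv.mul ih).const_add (a:ℝ)
    refine h.congr_deriv ?_
    simp only [der1, ev1_add1, ev1_cons]
    push_cast
    ring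

lemma hasDerivAt_ev (p : List (List ℤ)) {u v : ℝ → ℝ} {u' v' t : ℝ} (hu : HasDerivAt u u' t)
    (hv : HasDerivAt v v' t) :
    HasDerivAt (fun t => ev p (u t) (v t))
      (ev (dX p) (u t) (v t) * u' + ev (dY p) (u t) (v t) * v') t := by
  induction p with
  | nil => simpa [dX, dY] using hasDerivAt_const t (0:ℝ)
  | cons a p ih =>
    have h := (hasDerivAt_ev1 a hv).add (hu.mul ih)
    refine h.congr_deriv ?_
    have e1 : dY (a :: p) = der1 a :: dY p := rfl
    rw [e1]
    simp only [dX, ev_addP, ev_cons, ev1_nil]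
    ring

lemma hasFDerivAt_ev1 (l : List ℤ) {E : Type*} [NormedAddCommGroup E] [NormedSpace ℝ E]
    {v : E → ℝ} {v' : E →L[ℝ] ℝ} {z : E} (hv : HasFDerivAt v v' z) :
    HasFDerivAt (fun z => ev1 l (v z)) (ev1 (der1 l) (v z) • v') z := by
  induction l with
  | nil => simpa [der1] using hasFDerivAt_const (0:ℝ) z
  | cons a l ih =>
    have h := (hv.mul ih).const_add (a:ℝ)
    refine h.congr_fderiv ?_
    simp only [der1, ev1_add1, ev1_cons]
    ext w
    simp only [ContinuousLinearMap.add_apply, ContinuousLinearMap.smul_apply, smul_eq_mul]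
    push_cast
    ring

lemma hasFDerivAt_ev (p : List (List ℤ)) {E : Type*} [NormedAddCommGroup E] [NormedSpace ℝ E]
    {u v : E → ℝ} {u' v' : E →L[ℝ] ℝ} {z : E} (hu : HasFDerivAt u u' z)
    (hv : HasFDerivAt v v' z) :
    HasFDerivAt (fun z => ev p (u z) (v z))
      (ev (dX p) (u z) (v z) • u' + ev (dY p) (u z) (v z) • v') z := by
  induction p with
  | nil => simpa [dX, dY] using hasFDerivAt_const (0:ℝ) z
  | cons a p ih =>
    have h := (hasFDerivAt_ev1 a hv).add (hu.mul ih)
    refine h.congr_fderiv ?_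
    have e1 : dY (a :: p) = der1 a :: dY p := rfl
    rw [e1]
    simp only [dX, ev_addP, ev_cons, ev1_nil]
    ext w
    simp only [ContinuousLinearMap.add_apply, ContinuousLinearMap.smul_apply, smul_eq_mul]
    ring

lemma continuous_ev1 (l : List ℤ) : Continuous (ev1 l) := by
  induction l with
  | nil => simpa [ev1] using continuous_const
  | cons a l ih => exact continuous_const.add (continuous_id.mul ih)

lemma continuous_ev (p : List (List ℤ)) : Continuous fun z : ℝ × ℝ => ev p z.1 z.2 := by
  induction p with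
  | nil => simpa [ev] using continuous_const
  | cons a p ih =>
    exact ((continuous_ev1 a).comp continuous_snd).add (continuous_fst.mul ih)

lemma ev1_abs_nonneg (l : List ℤ) {r : ℝ} (hr : 0 ≤ r) : 0 ≤ ev1 (abs1 l) r := by
  induction l with
  | nil => simp [abs1]
  | cons a l ih =>
    have : abs1 (a :: l) = |a| :: abs1 l := rfl
    rw [this, ev1_cons]
    have : (0:ℝ) ≤ ((|a| : ℤ) : ℝ) := by exact_mod_cast abs_nonneg a
    positivity

lemma abs_ev1_le (l : List ℤ) {y r : ℝ} (hy : |y| ≤ r) : |ev1 l y| ≤ ev1 (abs1 l) r := by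
  induction l with
  | nil => simp [abs1]
  | cons a l ih =>
    have e : abs1 (a :: l) = |a| :: abs1 l := rfl
    have hr : 0 ≤ r := (abs_nonneg y).trans hy
    rw [e, ev1_cons, ev1_cons]
    refine (abs_add_le _ _).trans ?_
    rw [abs_mul]
    have h1 : |(a:ℝ)| = ((|a| : ℤ) : ℝ) := by push_cast; rfl
    rw [h1]
    have h2 := mul_le_mul hy ih (abs_nonneg _) hr
    linarith

lemma ev_abs_nonneg (p : List (List ℤ)) {r s : ℝ} (hr : 0 ≤ r) (hs : 0 ≤ s) :
    0 ≤ ev (absP p) r s := by
  induction p with
  | nil => simp [absP]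
  | cons a p ih =>
    have : absP (a :: p) = abs1 a :: absP p := rfl
    rw [this, ev_cons]
    have := ev1_abs_nonneg a hs
    positivity

lemma ev_diag (p : List (List ℤ)) (r : ℝ) : ev1 (diag p) r = ev p r r := by
  induction p with
  | nil => simp [diag]
  | cons a p ih =>
    simp only [diag, ev1_add1, ev1_cons, ev_cons, ih]
    push_cast
    ring

lemma abs_ev_le (p : List (List ℤ)) {x y r : ℝ} (hx : |x| ≤ r) (hy : |y| ≤ r) :
    |ev p x y| ≤ ev1 (diag (absP p)) r := by
  rw [ev_diag]
  induction p with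
  | nil => simp [absP]
  | cons a p ih =>
    have e : absP (a :: p) = abs1 a :: absP p := rfl
    have hr : 0 ≤ r := (abs_nonneg y).trans hy
    rw [e, ev_cons, ev_cons]
    refine (abs_add_le _ _).trans ?_
    rw [abs_mul]
    have h1 := abs_ev1_le a hy
    have h2 := mul_le_mul hx ih (abs_nonneg _) hr
    linarith

/-- coefficientwise comparison of lists (missing entries are zero) -/
def leL : List ℤ → List ℤ → Bool
  | [], m => m.all (fun b => decide (0 ≤ b))
  | l, [] => l.all (fun a => decide (a ≤ 0))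
  | a :: l, b :: m => decide (a ≤ b) && leL l m

lemma ev1_nonneg_of_all {m : List ℤ} (h : m.all (fun b => decide (0 ≤ b)) = true) {r : ℝ}
    (hr : 0 ≤ r) : 0 ≤ ev1 m r := by
  induction m with
  | nil => simp
  | cons a m ih =>
    rw [List.all_cons, Bool.and_eq_true, decide_eq_true_eq] at h
    have h1 : (0:ℝ) ≤ a := by exact_mod_cast h.1
    have h2 := ih h.2
    rw [ev1_cons]
    positivity

lemma ev1_nonpos_of_all {m : List ℤ} (h : m.all (fun b => decide (b ≤ 0)) = true) {r : ℝ}
    (hr : 0 ≤ r) : ev1 m r ≤ 0 := by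
  induction m with
  | nil => simp
  | cons a m ih =>
    rw [List.all_cons, Bool.and_eq_true, decide_eq_true_eq] at h
    have h1 : (a:ℝ) ≤ 0 := by exact_mod_cast h.1
    have h2 := ih h.2
    rw [ev1_cons]
    nlinarith [mul_nonneg hr (neg_nonneg.2 h2)]

lemma ev1_le_of_leL {l m : List ℤ} (h : leL l m = true) {r : ℝ} (hr : 0 ≤ r) :
    ev1 l r ≤ ev1 m r := by
  induction l generalizing m with
  | nil =>
    simp only [leL] at h
    simpa using ev1_nonneg_of_all h hr
  | cons a l ih =>
    cases m with
    | nil =>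
      simp only [leL] at h
      simpa using ev1_nonpos_of_all h hr
    | cons b m =>
      simp only [leL, Bool.and_eq_true, decide_eq_true_eq] at h
      have h1 : (a:ℝ) ≤ b := by exact_mod_cast h.1
      have h2 := ih h.2
      rw [ev1_cons, ev1_cons]
      have := mul_le_mul_of_nonneg_left h2 hr
      linarith

/-- the bound used in the certificates -/
lemma abs_ev_le' (p : List (List ℤ)) (B : List ℤ) (h : leL (diag (absP p)) B = true)
    {x y r : ℝ} (hx : |x| ≤ r) (hy : |y| ≤ r) : |ev p x y| ≤ ev1 B r :=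
  (abs_ev_le p hx hy).trans (ev1_le_of_leL h ((abs_nonneg x).trans hx))

end Pool.Agent.Y301
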