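import Mathlib

/-! Propagation of the sign of a function along the region between two closed orbits. -/

open Set Topology Filter

set_option linter.unusedSimpArgs false
set_option linter.deprecated false

namespace Pool.Agent.Y301

/-- If `H φ · ` has a nonpositive value on `[0, 1]`, then this persists for larger `φ`, provided `H`
decreases at every zero which is a minimum. -/
lemma propagate {H : ℝ → ℝ → ℝ} (hc : Continuous fun p : ℝ × ℝ => H p.1 p.2)
    (hd : ∀ φ, ∀ s ∈ Icc (0:ℝ) 1, H φ s = 0 → (∀ s' ∈ Icc (0:ℝ) 1, 0 ≤ H φ s') →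
      ∃ d < 0, HasDerivAt (fun φ => H φ s) d φ) {φ0 φ1 s0 : ℝ} (h01 : φ0 ≤ φ1)
    (hs0 : s0 ∈ Icc (0:ℝ) 1) (h0 : H φ0 s0 ≤ 0) : ∃ s ∈ Icc (0:ℝ) 1, H φ1 s ≤ 0 := by
  by_contra hcon
  push Not at hcon
  -- the last parameter with a nonpositive value
  have hcomp : IsCompact ((Icc φ0 φ1 ×ˢ Icc (0:ℝ) 1) ∩ {p : ℝ × ℝ | H p.1 p.2 ≤ 0}) :=
    (isCompact_Icc.prod isCompact_Icc).inter_right (isClosed_le hc continuous_const)
  have himg := hcomp.image continuous_fst
  obtain ⟨φs, hφs, hmax⟩ := himg.exists_isGreatest ⟨φ0, ⟨(φ0, s0), ⟨⟨⟨le_rfl, h01⟩, hs0⟩, h0⟩, rfl⟩⟩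
  obtain ⟨⟨a, s⟩, ⟨⟨ha, hs⟩, hH⟩, rfl⟩ := hφs
  simp only at ha hs hH hmax
  have hlt : a < φ1 := by
    rcases lt_or_eq_of_le ha.2 with h | h
    · exact h
    · exfalso
      have h1 : H a s ≤ 0 := hH
      have h2 := hcon s hs
      rw [← h] at h2
      linarith
  have hpos : ∀ φ ∈ Ioc a φ1, ∀ s ∈ Icc (0:ℝ) 1, 0 < H φ s := by
    intro φ hφ s' hs'
    by_contra hc'
    push Not at hc'
    have := hmax ⟨(φ, s'), ⟨⟨⟨ha.1.trans hφ.1.le, hφ.2⟩, hs'⟩, hc'⟩, rfl⟩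
    simp only at this
    linarith [hφ.1]
  have hnn : ∀ s' ∈ Icc (0:ℝ) 1, 0 ≤ H a s' := by
    intro s' hs'
    have hcc : ContinuousWithinAt (fun φ => H φ s') (Ioi a) a :=
      (hc.comp (continuous_id.prodMk continuous_const)).continuousWithinAt
    refine ge_of_tendsto hcc ?_
    filter_upwards [Ioc_mem_nhdsGT hlt] with φ hφ
    exact (hpos φ hφ s' hs').le
  have h0' : H a s = 0 := le_antisymm hH (hnn s hs)
  obtain ⟨d, hd0, hd1⟩ := hd a s hs h0' hnn
  have h2 := (hasDerivWithinAt_iff_tendsto_slope' (s := Ioi a) (by simp)).1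
    hd1.hasDerivWithinAt
  have h3 : ∀ᶠ φ in 𝓝[>] a, slope (fun φ => H φ s) a φ < 0 := h2.eventually (gt_mem_nhds hd0)
  obtain ⟨φ, hφ1, hφ2⟩ := (h3.and (Ioc_mem_nhdsGT hlt)).exists
  rw [slope_def_field, h0', sub_zero] at hφ1
  have h4 := hpos φ hφ2 s hs
  have h5 : 0 < H φ s / (φ - a) := div_pos h4 (by linarith [hφ2.1])
  linarith

/-- Propagation of a nonpositive value of `f` around an annulus or a disc. -/
theorem exists_nonpos {P Q f f1 f2 : ℝ × ℝ → ℝ} {R S R' S' : ℝ → ℝ}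
    (hR : ∀ φ, HasDerivAt R (R' φ) φ) (hS : ∀ φ, HasDerivAt S (S' φ) φ)
    (hRp : ∀ φ, R (φ + 2 * Real.pi) = R φ) (hSp : ∀ φ, S (φ + 2 * Real.pi) = S φ)
    (h0 : ∀ φ, 0 ≤ R φ) (hlt : ∀ φ, R φ < S φ)
    (hang : ∀ φ, ∀ r ∈ Ioo (R φ) (S φ), 0 < -Real.sin φ * P (r * Real.cos φ, r * Real.sin φ) +
      Real.cos φ * Q (r * Real.cos φ, r * Real.sin φ))
    (hf : ∀ z, HasFDerivAt f (f1 z • ContinuousLinearMap.fst ℝ ℝ ℝ +
      f2 z • ContinuousLinearMap.snd ℝ ℝ ℝ) z)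
    (hb1 : ∀ φ, 0 < f (R φ * Real.cos φ, R φ * Real.sin φ))
    (hb2 : ∀ φ, 0 < f (S φ * Real.cos φ, S φ * Real.sin φ))
    {ε : ℝ} (hε : ε = 1 ∨ ε = -1)
    (hX : ∀ φ, ∀ r ∈ Ioo (R φ) (S φ), f (r * Real.cos φ, r * Real.sin φ) = 0 →
      ε * (f1 (r * Real.cos φ, r * Real.sin φ) * P (r * Real.cos φ, r * Real.sin φ) +
        f2 (r * Real.cos φ, r * Real.sin φ) * Q (r * Real.cos φ, r * Real.sin φ)) < 0)
    {φ1 r1 : ℝ} (hr1 : r1 ∈ Icc (R φ1) (S φ1))
    (h1 : f (r1 * Real.cos φ1, r1 * Real.sin φ1) ≤ 0) :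
    ∀ φ, ∃ r ∈ Icc (R φ) (S φ), f (r * Real.cos φ, r * Real.sin φ) ≤ 0 := by
  have hεε : ε * ε = 1 := by rcases hε with h | h <;> rw [h] <;> norm_num
  have hRc : Continuous R := continuous_iff_continuousAt.2 fun φ => (hR φ).continuousAt
  have hSc : Continuous S := continuous_iff_continuousAt.2 fun φ => (hS φ).continuousAt
  have hfc : Continuous f := continuous_iff_continuousAt.2 fun z => (hf z).continuousAt
  set r : ℝ → ℝ → ℝ := fun φ s => R φ + s * (S φ - R φ) with hr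
  have hrm : ∀ φ, ∀ s ∈ Icc (0:ℝ) 1, r φ s ∈ Icc (R φ) (S φ) := by
    intro φ s hs
    have := hlt φ
    constructor
    · simp only [hr]; nlinarith [hs.1]
    · simp only [hr]; nlinarith [hs.2]
  set H : ℝ → ℝ → ℝ := fun φ s => f (r (ε * φ) s * Real.cos (ε * φ),
    r (ε * φ) s * Real.sin (ε * φ)) with hH
  have hHc : Continuous fun p : ℝ × ℝ => H p.1 p.2 := by
    refine hfc.comp ?_
    simp only [hr]
    fun_prop
  have hsurj : ∀ φ, ∀ ρ ∈ Icc (R φ) (S φ), ∃ s ∈ Icc (0:ℝ) 1, r φ s = ρ := by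
    intro φ ρ hρ
    have h2 := sub_pos.2 (hlt φ)
    refine ⟨(ρ - R φ) / (S φ - R φ), ⟨div_nonneg (by linarith [hρ.1]) h2.le, ?_⟩, ?_⟩
    · rw [div_le_one h2]; linarith [hρ.2]
    · simp only [hr]
      field_simp
      ring
  have key : ∀ {φ0 φ1 s0 : ℝ}, φ0 ≤ φ1 → s0 ∈ Icc (0:ℝ) 1 → H φ0 s0 ≤ 0 →
      ∃ s ∈ Icc (0:ℝ) 1, H φ1 s ≤ 0 := by
    intro φ0 φ1 s0 h01 hs0 h00
    refine propagate hHc ?_ h01 hs0 h00
    intro φ s hs hz hmin
    -- the minimum is in the interior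
    have hs01 : s ∈ Ioo (0:ℝ) 1 := by
      constructor
      · refine lt_of_le_of_ne hs.1 fun he => ?_
        rw [← he] at hz
        simp only [hH, hr, zero_mul, add_zero] at hz
        have := hb1 (ε * φ)
        linarith
      · refine lt_of_le_of_ne hs.2 fun he => ?_
        rw [he] at hz
        simp only [hH, hr, one_mul, add_sub_cancel] at hz
        have := hb2 (ε * φ)
        linarith
    set ψ := ε * φ with hψ
    set ρ := r ψ s with hρ
    have hρ1 : ρ ∈ Ioo (R ψ) (S ψ) := by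
      have := hlt ψ
      constructor
      · simp only [hρ, hr]; nlinarith [hs01.1]
      · simp only [hρ, hr]; nlinarith [hs01.2]
    set z : ℝ × ℝ := (ρ * Real.cos ψ, ρ * Real.sin ψ) with hz'
    -- derivative in `s`
    have hrad : f1 z * Real.cos ψ + f2 z * Real.sin ψ = 0 := by
      have hd1 : HasDerivAt (fun s => r ψ s) (S ψ - R ψ) s := by
        have := ((hasDerivAt_id s).mul_const (S ψ - R ψ)).const_add (R ψ)
        exact this.congr_deriv (one_mul _)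
      have hd2 : HasDerivAt (fun s => (r ψ s * Real.cos ψ, r ψ s * Real.sin ψ))
          ((S ψ - R ψ) * Real.cos ψ, (S ψ - R ψ) * Real.sin ψ) s :=
        (hd1.mul_const _).prodMk (hd1.mul_const _)
      have hd3 := (hf z).comp_hasDerivAt s hd2
      have hloc : IsLocalMin (f ∘ fun s => (r ψ s * Real.cos ψ, r ψ s * Real.sin ψ)) s := by
        filter_upwards [Ioo_mem_nhds hs01.1 hs01.2] with s' hs'
        have h3 := hmin s' ⟨hs'.1.le, hs'.2.le⟩
        have h4 : H φ s = (f ∘ fun s => (r ψ s * Real.cos ψ, r ψ s * Real.sin ψ)) s := rfl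
        rw [← h4, hz]
        exact h3
      have h5 := hloc.hasDerivAt_eq_zero hd3
      simp only [ContinuousLinearMap.add_apply, ContinuousLinearMap.smul_apply,
        ContinuousLinearMap.coe_fst', ContinuousLinearMap.coe_snd', smul_eq_mul] at h5
      have h6 := sub_pos.2 (hlt ψ)
      have h7 : (S ψ - R ψ) * (f1 z * Real.cos ψ + f2 z * Real.sin ψ) = 0 := by
        linear_combination h5
      rcases mul_eq_zero.1 h7 with h8 | h8
      · linarith
      · exact h8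
    -- derivative in `φ`
    have hεd : HasDerivAt (fun φ : ℝ => ε * φ) ε φ := by
      simpa using (hasDerivAt_id φ).const_mul ε
    have hd1 : HasDerivAt (fun φ => r (ε * φ) s) ((R' ψ + s * (S' ψ - R' ψ)) * ε) φ := by
      have h3 : HasDerivAt (fun ψ => r ψ s) (R' ψ + s * (S' ψ - R' ψ)) ψ :=
        (hR ψ).add (((hS ψ).sub (hR ψ)).const_mul s)
      exact h3.comp φ hεd
    have hcd : HasDerivAt (fun φ => Real.cos (ε * φ)) (-Real.sin ψ * ε) φ :=
      (Real.hasDerivAt_cos ψ).comp φ hεd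
    have hsd : HasDerivAt (fun φ => Real.sin (ε * φ)) (Real.cos ψ * ε) φ :=
      (Real.hasDerivAt_sin ψ).comp φ hεd
    have hd2 := (hd1.mul hcd).prodMk (hd1.mul hsd)
    have hd3 := (hf z).comp_hasDerivAt φ hd2
    refine ⟨_, ?_, hd3⟩
    have hsc := Real.sin_sq_add_cos_sq ψ
    have e1 := hX ψ ρ hρ1 hz
    have e2 := hang ψ ρ hρ1
    have hρ0 : 0 < ρ := lt_of_le_of_lt (h0 ψ) hρ1.1
    -- `∇f = g ω^⊥`
    set g := -Real.sin ψ * f1 z + Real.cos ψ * f2 z with hg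
    have g1 : f1 z = -Real.sin ψ * g := by
      rw [hg]
      linear_combination (-(f1 z)) * hsc + Real.cos ψ * hrad
    have g2 : f2 z = Real.cos ψ * g := by
      rw [hg]
      linear_combination (-(f2 z)) * hsc + Real.sin ψ * hrad
    have e3 : ε * (g * (-Real.sin ψ * P z + Real.cos ψ * Q z)) < 0 := by
      have : ε * (g * (-Real.sin ψ * P z + Real.cos ψ * Q z)) =
          ε * (f1 z * P z + f2 z * Q z) := by
        rw [g1, g2]; ring
      rw [this]
      exact e1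
    have e4 : ε * g < 0 := by
      by_contra hcon
      push Not at hcon
      have := mul_nonneg hcon e2.le
      linarith
    simp only [ContinuousLinearMap.add_apply, ContinuousLinearMap.smul_apply,
      ContinuousLinearMap.coe_fst', ContinuousLinearMap.coe_snd', smul_eq_mul]
    have e5 : f1 z * ((R' ψ + s * (S' ψ - R' ψ)) * ε * Real.cos ψ +
          r ψ s * (-Real.sin ψ * ε)) +
        f2 z * ((R' ψ + s * (S' ψ - R' ψ)) * ε * Real.sin ψ + r ψ s * (Real.cos ψ * ε)) =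
        ρ * (ε * g) := by
      rw [g1, g2, hρ]
      linear_combination (r ψ s * ε * g) * hsc
    rw [show (ε * φ) = ψ from rfl]
    rw [e5]
    exact mul_neg_of_pos_of_neg hρ0 e4
  intro φ
  obtain ⟨s1, hs1, hs1e⟩ := hsurj φ1 r1 hr1
  have hstart : H (ε * φ1) s1 ≤ 0 := by
    simp only [hH]
    rw [← mul_assoc, hεε, one_mul, hs1e]
    exact h1
  -- move far forward
  obtain ⟨n, hn⟩ := exists_nat_gt ((ε * φ1 - ε * φ) / (2 * Real.pi))
  have hpi : (0:ℝ) < 2 * Real.pi := by positivity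
  rw [div_lt_iff₀ hpi] at hn
  obtain ⟨s, hs, hsH⟩ := key (φ0 := ε * φ1) (φ1 := ε * φ + n * (2 * Real.pi)) (by linarith) hs1 hstart
  have hperN : ∀ {T : ℝ → ℝ}, (∀ φ, T (φ + 2 * Real.pi) = T φ) → ∀ m : ℤ, ∀ φ,
      T (φ + m * (2 * Real.pi)) = T φ := by
    intro T hT m φ
    have hp : Function.Periodic T (2 * Real.pi) := hT
    exact hp.int_mul m φ
  obtain ⟨m, hm⟩ : ∃ m : ℤ, ε * (ε * φ + n * (2 * Real.pi)) = φ + m * (2 * Real.pi) := by
    rcases hε with h | h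
    · refine ⟨n, ?_⟩
      rw [h]; push_cast; ring
    · refine ⟨-n, ?_⟩
      rw [h]; push_cast; ring
  simp only [hH] at hsH
  rw [hm] at hsH
  refine ⟨r φ s, hrm φ s hs, ?_⟩
  have e1 : r (φ + m * (2 * Real.pi)) s = r φ s := by
    simp only [hr, hperN hRp, hperN hSp]
  rw [e1, Real.cos_add_int_mul_two_pi, Real.sin_add_int_mul_two_pi] at hsH
  exact hsH

end Pool.Agent.Y301
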