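import Pool.Agent.Y301.Dulac

/-! Shi's system. -/

open Set Topology Filter

namespace Pool.Agent.Y301

open Pool.Agent.H709Q
open Pool.Agent.H709R2 (wedge ClosedOrbit)

noncomputable section

def lam : ℝ := -1 / 10 ^ 200
def bb : ℝ := 5 - 1 / 10 ^ 13
def ee : ℝ := -25 + 9 / 10 ^ 13 - 8 / 10 ^ 52

/-- Shi's system -/
def XB : QF :=
  { a0 := 0, a1 := lam, a2 := -1, a3 := -10, a4 := bb, a5 := 1,
    b0 := 0, b1 := 1, b2 := 0, b3 := 1, b4 := ee, b5 := 0 }

/-- Shi's system with the other focus at the origin and reversed time -/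
def XA : QF :=
  { a0 := 0, a1 := -(lam + bb), a2 := -1, a3 := 10, a4 := -bb, a5 := -1,
    b0 := 0, b1 := -(1 + ee), b2 := 0, b3 := -1, b4 := -ee, b5 := 0 }

lemma XB_f (z : ℝ × ℝ) : XB.f z = (lam * z.1 - z.2 - 10 * z.1 ^ 2 + bb * (z.1 * z.2) + z.2 ^ 2,
    z.1 + z.1 ^ 2 + ee * (z.1 * z.2)) := by
  unfold QF.f XB
  ext <;> simp only <;> ring

lemma XA_f (z : ℝ × ℝ) : XA.f z = (-(lam + bb) * z.1 - z.2 + 10 * z.1 ^ 2 - bb * (z.1 * z.2) -
    z.2 ^ 2, -(1 + ee) * z.1 - z.1 ^ 2 - ee * (z.1 * z.2)) := by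
  unfold QF.f XA
  ext <;> simp only <;> ring

/-- the zeros -/
lemma XB_zero {p : ℝ × ℝ} (h : XB.f p = 0) : p = (0, 0) ∨ p = (0, 1) := by
  obtain ⟨x, y⟩ := p
  rw [XB_f] at h
  have h1 := congrArg Prod.fst h
  have h2 := congrArg Prod.snd h
  simp only [Prod.fst_zero, Prod.snd_zero] at h1 h2
  have h3 : x * (1 + x + ee * y) = 0 := by linear_combination h2
  rcases mul_eq_zero.1 h3 with h4 | h4
  · subst h4
    have h5 : y * (y - 1) = 0 := by linear_combination h1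
    rcases mul_eq_zero.1 h5 with h6 | h6
    · left; rw [h6]
    · right; rw [show y = 1 by linarith]
  · exfalso
    have h5 : x = -1 - ee * y := by linear_combination h4
    rw [h5] at h1
    have h6 : (lam * (-1 - ee * y) - y - 10 * (-1 - ee * y) ^ 2 + bb * ((-1 - ee * y) * y) + y ^ 2)
        < 0 := by
      unfold lam bb ee
      nlinarith [sq_nonneg (y - 247 / 6124)]
    linarith

lemma zero_mem (X : QF) (h : X.a0 = 0) (h' : X.b0 = 0) : X.f 0 = 0 := by
  unfold QF.f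
  ext <;> simp [h, h']

/-- orientation at the origin -/
lemma no_rev_B (C : Set (ℝ × ℝ)) : C ∉ Orb (XB.rot Real.pi) 0 := by
  rintro ⟨γ, T, hc, ha, -⟩
  have hz : (XB.rot Real.pi).f 0 = 0 := by
    rw [XB.f_rot_pi, zero_mem XB rfl rfl, neg_zero]
  have h := linPos0 _ γ T 0 hc hz ha (0, 1) (by simp)
  rw [QF.D_rot] at h
  simp only [H709R2.rot, wedge, Real.cos_pi, Real.sin_pi, QF.D, XB, Prod.fst_zero,
    Prod.snd_zero] at h
  norm_num at h

lemma no_dir_A (C : Set (ℝ × ℝ)) : C ∉ Orb XB (0, 1) := by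
  rintro ⟨γ, T, hc, ha, -⟩
  have hz : XB.f (0, 1) = 0 := by
    rw [XB_f]; ext <;> simp
  have h := linPos0 _ γ T (0, 1) hc hz ha (0, 1) (by simp)
  simp only [wedge, QF.D, XB] at h
  norm_num at h

/-- the number of closed orbits around the second focus, by translation -/
lemma orb_A_le : (Orb (XB.rot Real.pi) (0, 1)).encard ≤ (Orb XA 0).encard := by
  have hz : XB.f (0, 1) = 0 := by
    rw [XB_f]; ext <;> simp
  have h := T12a.orb_le XB (0, 1) 1 1 1 0 one_pos one_pos (by norm_num) hz Real.pi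
  have e : (T12a.tr XB (0, 1) 1 1 1 0).rot Real.pi = XA := by
    unfold T12a.tr QF.rot XB XA
    simp only [Real.cos_pi, Real.sin_pi, QF.mk.injEq]
    refine ⟨?_, ?_, ?_, ?_, ?_, ?_, ?_, ?_, ?_, ?_, ?_, ?_⟩ <;> ring
  rw [e] at h
  exact h

end

end Pool.Agent.Y301
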