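import Pool.Agent.Y301.Orbit
import Pool.Agent.Y301.Ray

/-! Dulac functions in annuli and discs bounded by closed orbits. -/

open Set Topology Filter

set_option linter.unusedSimpArgs false
set_option linter.deprecated false

namespace Pool.Agent.Y301

open Pool.Agent.H709Q
open Pool.Agent.H709R2 (wedge ClosedOrbit)

noncomputable section

/-- partial derivatives of the components -/
def P1 (X : QF) (z : ℝ × ℝ) : ℝ := X.a1 + 2 * X.a3 * z.1 + X.a4 * z.2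
def P2 (X : QF) (z : ℝ × ℝ) : ℝ := X.a2 + X.a4 * z.1 + 2 * X.a5 * z.2
def Q1' (X : QF) (z : ℝ × ℝ) : ℝ := X.b1 + 2 * X.b3 * z.1 + X.b4 * z.2
def Q2' (X : QF) (z : ℝ × ℝ) : ℝ := X.b2 + X.b4 * z.1 + 2 * X.b5 * z.2

lemma hasFDerivAt_f1 (X : QF) (z : ℝ × ℝ) : HasFDerivAt (fun z => (X.f z).1)
    (P1 X z • ContinuousLinearMap.fst ℝ ℝ ℝ + P2 X z • ContinuousLinearMap.snd ℝ ℝ ℝ) z := by
  have h1 := hasFDerivAt_fst (𝕜 := ℝ) (E := ℝ) (F := ℝ) (p := z)
  have h2 := hasFDerivAt_snd (𝕜 := ℝ) (E := ℝ) (F := ℝ) (p := z)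
  have := (((((hasFDerivAt_const X.a0 z).add (h1.const_mul X.a1)).add (h2.const_mul X.a2)).add
      ((h1.pow 2).const_mul X.a3)).add ((h1.mul h2).const_mul X.a4)).add
      ((h2.pow 2).const_mul X.a5)
  refine this.congr_fderiv ?_
  ext
  · simp [P1, P2]; ring
  · simp [P1, P2]; ring

lemma hasFDerivAt_f2 (X : QF) (z : ℝ × ℝ) : HasFDerivAt (fun z => (X.f z).2)
    (Q1' X z • ContinuousLinearMap.fst ℝ ℝ ℝ + Q2' X z • ContinuousLinearMap.snd ℝ ℝ ℝ) z := by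
  have h1 := hasFDerivAt_fst (𝕜 := ℝ) (E := ℝ) (F := ℝ) (p := z)
  have h2 := hasFDerivAt_snd (𝕜 := ℝ) (E := ℝ) (F := ℝ) (p := z)
  have := (((((hasFDerivAt_const X.b0 z).add (h1.const_mul X.b1)).add (h2.const_mul X.b2)).add
      ((h1.pow 2).const_mul X.b3)).add ((h1.mul h2).const_mul X.b4)).add
      ((h2.pow 2).const_mul X.b5)
  refine this.congr_fderiv ?_
  ext
  · simp [Q1', Q2']; ring
  · simp [Q1', Q2']; ring

/-- the weighted flux lemma -/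
theorem flux_B {X : QF} {R R' S S' : ℝ → ℝ}
    (hR : Tang X.f R R') (hS : Tang X.f S S')
    (h0 : ∀ φ, 0 ≤ R φ) (hlt : ∀ φ, R φ < S φ)
    {B B1 B2 : ℝ × ℝ → ℝ} {U : Set (ℝ × ℝ)}
    (hU : ∀ φ, ∀ r ∈ Icc (R φ) (S φ), (r * Real.cos φ, r * Real.sin φ) ∈ U)
    (hB : ∀ z ∈ U, HasFDerivAt B (B1 z • ContinuousLinearMap.fst ℝ ℝ ℝ +
      B2 z • ContinuousLinearMap.snd ℝ ℝ ℝ) z)
    (c1 : ContinuousOn B1 U) (c2 : ContinuousOn B2 U)
    (hdiv : ∀ φ, ∀ r ∈ Ioo (R φ) (S φ), ∀ z, z = (r * Real.cos φ, r * Real.sin φ) →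
      0 < B z * X.div z + (B1 z * (X.f z).1 + B2 z * (X.f z).2)) : False := by
  have hf1 : Continuous fun z => (X.f z).1 := continuous_fst.comp X.continuous_f
  have hf2 : Continuous fun z => (X.f z).2 := continuous_snd.comp X.continuous_f
  have cB : ContinuousOn B U := fun z hz => (hB z hz).continuousAt.continuousWithinAt
  have tang : ∀ {T T' : ℝ → ℝ}, Tang X.f T T' →
      Tang (fun z => (B z * (X.f z).1, B z * (X.f z).2)) T T' := by
    intro T T' h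
    refine ⟨h.deriv, h.cont, h.per, fun φ => ?_⟩
    have := h.tang φ
    simp only
    linear_combination (B (T φ * Real.cos φ, T φ * Real.sin φ)) * this
  refine flux (Y1 := fun z => B z * (X.f z).1) (Y2 := fun z => B z * (X.f z).2)
    (A11 := fun z => B z * P1 X z + B1 z * (X.f z).1)
    (A12 := fun z => B z * P2 X z + B2 z * (X.f z).1)
    (A21 := fun z => B z * Q1' X z + B1 z * (X.f z).2)
    (A22 := fun z => B z * Q2' X z + B2 z * (X.f z).2)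
    (tang hR) (tang hS) h0 hlt hU ?_ ?_ ?_ ?_ ?_ ?_ ?_
  · intro z hz
    refine ((hB z hz).mul (hasFDerivAt_f1 X z)).congr_fderiv ?_
    ext
    · simp [mul_comm]
    · simp [mul_comm]
  · intro z hz
    refine ((hB z hz).mul (hasFDerivAt_f2 X z)).congr_fderiv ?_
    ext
    · simp [mul_comm]
    · simp [mul_comm]
  · have : Continuous (P1 X) := by unfold P1; fun_prop
    exact (cB.mul this.continuousOn).add (c1.mul hf1.continuousOn)
  · have : Continuous (P2 X) := by unfold P2; fun_prop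
    exact (cB.mul this.continuousOn).add (c2.mul hf1.continuousOn)
  · have : Continuous (Q1' X) := by unfold Q1'; fun_prop
    exact (cB.mul this.continuousOn).add (c1.mul hf2.continuousOn)
  · have : Continuous (Q2' X) := by unfold Q2'; fun_prop
    exact (cB.mul this.continuousOn).add (c2.mul hf2.continuousOn)
  · intro φ r hr
    have := hdiv φ r hr _ rfl
    refine lt_of_lt_of_eq this ?_
    unfold QF.div P1 Q2'
    ring

lemma PG.Tang {X : QF} {C : Set (ℝ × ℝ)} {R R' : ℝ → ℝ} (h : PG X C R R') :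
    Tang X.f R R' :=
  ⟨h.deriv, h.cont, by have := h.per 0; rwa [zero_add] at this, h.tang⟩

lemma zeroTang (X : QF) : Y301.Tang X.f (fun _ => 0) (fun _ => 0) :=
  ⟨fun φ => hasDerivAt_const φ 0, continuous_const, rfl, fun φ => by simp⟩

/-- No Dulac function between two closed orbits. -/
theorem no_two {X : QF} {C D : Set (ℝ × ℝ)} {R R' S S' : ℝ → ℝ} (h : PG X C R R')
    (k : PG X D S S') (hlt : ∀ φ, R φ < S φ)
    {B B1 B2 : ℝ × ℝ → ℝ} {U : Set (ℝ × ℝ)}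
    (hU : ∀ φ, ∀ r ∈ Icc (R φ) (S φ), (r * Real.cos φ, r * Real.sin φ) ∈ U)
    (hB : ∀ z ∈ U, HasFDerivAt B (B1 z • ContinuousLinearMap.fst ℝ ℝ ℝ +
      B2 z • ContinuousLinearMap.snd ℝ ℝ ℝ) z)
    (c1 : ContinuousOn B1 U) (c2 : ContinuousOn B2 U)
    (hdiv : ∀ z ∈ U, 0 < B z * X.div z + (B1 z * (X.f z).1 + B2 z * (X.f z).2)) : False := by
  refine flux_B h.Tang k.Tang (fun φ => (h.pos φ).le) hlt hU hB c1 c2 ?_
  rintro φ r hr z rfl
  exact hdiv _ (hU φ r ⟨hr.1.le, hr.2.le⟩)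

/-- No Dulac function inside a closed orbit. -/
theorem no_one {X : QF} {C : Set (ℝ × ℝ)} {R R' : ℝ → ℝ} (h : PG X C R R')
    {B B1 B2 : ℝ × ℝ → ℝ} {U : Set (ℝ × ℝ)}
    (hU : ∀ φ, ∀ r ∈ Icc 0 (R φ), (r * Real.cos φ, r * Real.sin φ) ∈ U)
    (hB : ∀ z ∈ U, HasFDerivAt B (B1 z • ContinuousLinearMap.fst ℝ ℝ ℝ +
      B2 z • ContinuousLinearMap.snd ℝ ℝ ℝ) z)
    (c1 : ContinuousOn B1 U) (c2 : ContinuousOn B2 U)
    (hdiv : ∀ z ∈ U, 0 < B z * X.div z + (B1 z * (X.f z).1 + B2 z * (X.f z).2)) : False := by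
  refine flux_B (zeroTang X) h.Tang (fun _ => le_rfl) (fun φ => h.pos φ) hU hB c1 c2 ?_
  rintro φ r hr z rfl
  exact hdiv _ (hU φ r ⟨hr.1.le, hr.2.le⟩)

/-- a nonpositive value of `f` in an annulus between closed orbits propagates -/
theorem PG.exists_nonpos₂ {X : QF} {C D : Set (ℝ × ℝ)} {R R' S S' : ℝ → ℝ} (h : PG X C R R')
    (k : PG X D S S') (hlt : ∀ φ, R φ < S φ) {f f1 f2 : ℝ × ℝ → ℝ}
    (hf : ∀ z, HasFDerivAt f (f1 z • ContinuousLinearMap.fst ℝ ℝ ℝ +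
      f2 z • ContinuousLinearMap.snd ℝ ℝ ℝ) z)
    (hb1 : ∀ z ∈ C, 0 < f z) (hb2 : ∀ z ∈ D, 0 < f z) {ε : ℝ} (hε : ε = 1 ∨ ε = -1)
    (hX : ∀ φ, ∀ r ∈ Ioo (R φ) (S φ), ∀ z, z = (r * Real.cos φ, r * Real.sin φ) → f z = 0 →
      ε * (f1 z * (X.f z).1 + f2 z * (X.f z).2) < 0)
    {φ1 r1 : ℝ} (hr1 : r1 ∈ Icc (R φ1) (S φ1))
    (h1 : f (r1 * Real.cos φ1, r1 * Real.sin φ1) ≤ 0) :
    ∀ φ, ∃ r ∈ Icc (R φ) (S φ), f (r * Real.cos φ, r * Real.sin φ) ≤ 0 :=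
  exists_nonpos (P := fun z => (X.f z).1) (Q := fun z => (X.f z).2) h.deriv k.deriv h.per k.per
    (fun φ => (h.pos φ).le) hlt
    (fun φ r hr => k.ang φ r ⟨(h.pos φ).trans hr.1, hr.2.le⟩) hf (fun φ => hb1 _ (h.mem φ))
    (fun φ => hb2 _ (k.mem φ)) hε (fun φ r hr => hX φ r hr _ rfl) hr1 h1

/-- a nonpositive value of `f` in the disc bounded by a closed orbit propagates -/
theorem PG.exists_nonpos₁ {X : QF} {C : Set (ℝ × ℝ)} {R R' : ℝ → ℝ} (h : PG X C R R')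
    {f f1 f2 : ℝ × ℝ → ℝ}
    (hf : ∀ z, HasFDerivAt f (f1 z • ContinuousLinearMap.fst ℝ ℝ ℝ +
      f2 z • ContinuousLinearMap.snd ℝ ℝ ℝ) z)
    (hb1 : 0 < f (0, 0)) (hb2 : ∀ z ∈ C, 0 < f z) {ε : ℝ} (hε : ε = 1 ∨ ε = -1)
    (hX : ∀ φ, ∀ r ∈ Ioo 0 (R φ), ∀ z, z = (r * Real.cos φ, r * Real.sin φ) → f z = 0 →
      ε * (f1 z * (X.f z).1 + f2 z * (X.f z).2) < 0)
    {φ1 r1 : ℝ} (hr1 : r1 ∈ Icc 0 (R φ1))
    (h1 : f (r1 * Real.cos φ1, r1 * Real.sin φ1) ≤ 0) :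
    ∀ φ, ∃ r ∈ Icc 0 (R φ), f (r * Real.cos φ, r * Real.sin φ) ≤ 0 :=
  exists_nonpos (P := fun z => (X.f z).1) (Q := fun z => (X.f z).2) (R := fun _ => 0)
    (R' := fun _ => 0) (fun φ => hasDerivAt_const φ 0) h.deriv (fun _ => rfl) h.per
    (fun φ => le_rfl) (fun φ => h.pos φ)
    (fun φ r hr => h.ang φ r ⟨hr.1, hr.2.le⟩) hf (fun φ => by simpa using hb1)
    (fun φ => hb2 _ (h.mem φ)) hε (fun φ r hr => hX φ r hr _ rfl) hr1 h1

/-- along a periodic solution a function cannot cross a level in one direction only -/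
lemma no_cross {g : ℝ → ℝ} {T : ℝ} (hT : 0 < T) (hper : ∀ t, g (t + T) = g t)
    (hg : Continuous g) (hd : ∀ t, g t = 0 → ∃ d > 0, HasDerivAt g d t) (t : ℝ) : g t ≠ 0 := by
  intro h0
  have hper' : Function.Periodic g T := hper
  obtain ⟨d, hd0, hd1⟩ := hd t h0
  -- `g > 0` just after `t`
  have h2 := (hasDerivWithinAt_iff_tendsto_slope' (s := Ioi t) (by simp)).1
    hd1.hasDerivWithinAt
  have h3 : ∀ᶠ s in 𝓝[>] t, 0 < slope g t s := h2.eventually (lt_mem_nhds hd0)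
  obtain ⟨s, hs1, hs2⟩ := (h3.and (Ioo_mem_nhdsGT (by linarith : t < t + T))).exists
  rw [slope_def_field, h0, sub_zero] at hs1
  have hs3 : 0 < g s := by
    have := mul_pos hs1 (by linarith [hs2.1] : 0 < s - t)
    rwa [div_mul_cancel₀ _ (by linarith [hs2.1] : s - t ≠ 0)] at this
  -- the first zero after `s`
  have hcomp : IsCompact (Icc s (t + T) ∩ {u | g u ≤ 0}) :=
    isCompact_Icc.inter_right (isClosed_le hg continuous_const)
  obtain ⟨u, hu, hmin⟩ := hcomp.exists_isLeast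
    ⟨t + T, ⟨hs2.2.le, le_rfl⟩, by simp only [mem_setOf_eq]; rw [hper, h0]⟩
  have hsu : s < u := by
    rcases eq_or_lt_of_le hu.1.1 with h | h
    · exfalso
      have := hu.2
      simp only [mem_setOf_eq] at this
      rw [← h] at this
      linarith
    · exact h
  have hpos : ∀ v ∈ Ico s u, 0 < g v := by
    intro v hv
    by_contra hc
    push Not at hc
    have := hmin ⟨⟨hv.1, hv.2.le.trans hu.1.2⟩, hc⟩
    linarith [hv.2]
  have hu0 : g u = 0 := by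
    refine le_antisymm hu.2 ?_
    have hcc : ContinuousWithinAt g (Iio u) u := hg.continuousWithinAt
    refine ge_of_tendsto hcc ?_
    filter_upwards [Ioo_mem_nhdsLT hsu] with v hv
    exact (hpos v ⟨hv.1.le, hv.2⟩).le
  obtain ⟨d', hd0', hd1'⟩ := hd u hu0
  have h4 := (hasDerivWithinAt_iff_tendsto_slope' (s := Iio u) (by simp)).1
    hd1'.hasDerivWithinAt
  have h5 : ∀ᶠ v in 𝓝[<] u, 0 < slope g u v := h4.eventually (lt_mem_nhds hd0')
  obtain ⟨v, hv1, hv2⟩ := (h5.and (Ioo_mem_nhdsLT hsu)).exists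
  rw [slope_def_field, hu0, sub_zero] at hv1
  have h6 := hpos v ⟨hv2.1.le, hv2.2⟩
  have h7 : g v / (v - u) < 0 := div_neg_of_pos_of_neg h6 (by linarith [hv2.2])
  linarith

end

end Pool.Agent.Y301
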